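import Mathlib

set_option autoImplicit false

/-!
# The first event of a family: an abstract second moment inequality
-/

namespace Pool.Agent.V11115.Gap

open Finset Filter Topology MeasureTheory

section

variable {Ω : Type*} [MeasurableSpace Ω]

lemma prod_01 {T : Finset ℕ} {f : ℕ → ℝ} (hf : ∀ p, f p = 0 ∨ f p = 1) :
    (∏ p ∈ T, (1 - f p) = 0 ∧ ∃ p ∈ T, f p = 1) ∨ (∏ p ∈ T, (1 - f p) = 1 ∧ ∀ p ∈ T, f p = 0) := by
  by_cases h : ∃ p ∈ T, f p = 1
  · left
    obtain ⟨p, hp, h1⟩ := h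
    exact ⟨Finset.prod_eq_zero hp (by rw [h1]; norm_num), p, hp, h1⟩
  · right
    push Not at h
    have h0 : ∀ p ∈ T, f p = 0 := fun p hp => (hf p).resolve_right (h p hp)
    refine ⟨Finset.prod_eq_one fun p hp => by rw [h0 p hp]; norm_num, h0⟩

/-- the square of a sum -/
lemma sq_sum_le (P : Finset ℕ) (T : ℕ → Finset ℕ) (f : ℕ → ℝ) (hf : ∀ p, f p = 0 ∨ f p = 1) :
    (∑ q ∈ P, (∏ p ∈ T q, (1 - f p)) * f q) ^ 2 ≤
      (∑ q ∈ P, (∏ p ∈ T q, (1 - f p)) * f q) +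
      2 * ∑ p ∈ P, ∑ q ∈ P.filter (fun q => p < q ∧ p ∉ T q),
        (∏ l ∈ T p, (1 - f l)) * (f p * f q) := by
  classical
  set a : ℕ → ℝ := fun q => (∏ p ∈ T q, (1 - f p)) * f q with ha
  have hpi : ∀ q, (∏ p ∈ T q, (1 - f p)) = 0 ∨ (∏ p ∈ T q, (1 - f p)) = 1 := fun q => by
    rcases prod_01 (T := T q) hf with h | h
    · exact Or.inl h.1
    · exact Or.inr h.1
  have ha01 : ∀ q, a q = 0 ∨ a q = 1 := by
    intro q
    simp only [ha]
    rcases hpi q with h | h <;> rcases hf q with h2 | h2 <;> rw [h, h2] <;> norm_num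
  have ha0 : ∀ q, 0 ≤ a q := fun q => by rcases ha01 q with h | h <;> rw [h]; norm_num
  have e1 : (∑ q ∈ P, a q) ^ 2 = ∑ p ∈ P, ∑ q ∈ P, a p * a q := by
    rw [sq, Finset.sum_mul_sum]
  have e2 : ∀ p q, a p * a q = (if p = q then a p * a q else 0) +
      ((if p < q then a p * a q else 0) + (if q < p then a p * a q else 0)) := by
    intro p q
    rcases lt_trichotomy p q with h | h | h
    · rw [if_neg h.ne, if_pos h, if_neg (by omega)]; ring
    · rw [if_pos h, if_neg (by omega), if_neg (by omega)]; ring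
    · rw [if_neg (by omega), if_neg (by omega), if_pos h]; ring
  have e3 : ∑ p ∈ P, ∑ q ∈ P, (if q < p then a p * a q else 0) =
      ∑ p ∈ P, ∑ q ∈ P, (if p < q then a p * a q else 0) := by
    rw [Finset.sum_comm]
    refine Finset.sum_congr rfl fun p _ => Finset.sum_congr rfl fun q _ => ?_
    split_ifs
    · ring
    · rfl
  have e4 : ∑ p ∈ P, ∑ q ∈ P, (if p = q then a p * a q else 0) = ∑ q ∈ P, a q := by
    refine Finset.sum_congr rfl fun p hp => ?_
    rw [Finset.sum_ite_eq, if_pos hp]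
    rcases ha01 p with h | h <;> rw [h] <;> norm_num
  have e5 : (∑ q ∈ P, a q) ^ 2 = ∑ q ∈ P, a q + 2 * ∑ p ∈ P, ∑ q ∈ P, (if p < q then a p * a q else 0) := by
    rw [e1]
    rw [Finset.sum_congr rfl fun p _ => Finset.sum_congr rfl fun q _ => e2 p q]
    simp only [Finset.sum_add_distrib]
    rw [e3, e4]
    ring
  rw [e5]
  refine add_le_add le_rfl (mul_le_mul_of_nonneg_left ?_ (by norm_num))
  refine Finset.sum_le_sum fun p _ => ?_
  rw [Finset.sum_filter]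
  refine Finset.sum_le_sum fun q _ => ?_
  by_cases h1 : p < q
  · rw [if_pos h1]
    by_cases h2 : p ∈ T q
    · rw [if_neg (fun h => h.2 h2)]
      have h3 : a p * a q = 0 := by
        rcases hf p with h | h
        · simp only [ha]; rw [h]; ring
        · have : ∏ l ∈ T q, (1 - f l) = 0 := Finset.prod_eq_zero h2 (by rw [h]; norm_num)
          simp only [ha]; rw [this]; ring
      rw [h3]
    · rw [if_pos ⟨h1, h2⟩]
      simp only [ha]
      have h4 : 0 ≤ (∏ l ∈ T p, (1 - f l)) := by rcases hpi p with h | h <;> rw [h]; norm_num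
      have h5 : (∏ l ∈ T q, (1 - f l)) ≤ 1 := by rcases hpi q with h | h <;> rw [h]; norm_num
      have h6 : 0 ≤ f p := by rcases hf p with h | h <;> rw [h]; norm_num
      have h7 : 0 ≤ f q := by rcases hf q with h | h <;> rw [h]; norm_num
      calc (∏ l ∈ T p, (1 - f l)) * f p * ((∏ l ∈ T q, (1 - f l)) * f q) =
            ((∏ l ∈ T p, (1 - f l)) * (f p * f q)) * (∏ l ∈ T q, (1 - f l)) := by ring
        _ ≤ ((∏ l ∈ T p, (1 - f l)) * (f p * f q)) * 1 :=
            mul_le_mul_of_nonneg_left h5 (by positivity)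
        _ = _ := mul_one _
  · rw [if_neg h1, if_neg (fun h => h1 h.1)]

variable {μ : Measure Ω} [IsFiniteMeasure μ]

lemma integ {g : Ω → ℝ} (hg : Measurable g) {M : ℝ} (hM : ∀ x, |g x| ≤ M) : Integrable g μ :=
  Integrable.of_bound hg.aestronglyMeasurable M (Eventually.of_forall fun x => by
    rw [Real.norm_eq_abs]; exact hM x)

/-- **The abstract inequality.** -/
theorem first_event (P : Finset ℕ) (T : ℕ → Finset ℕ) (hT : ∀ q ∈ P, T q ⊆ P)
    (f : ℕ → Ω → ℝ) (hfm : ∀ p, Measurable (f p)) (hf : ∀ p x, f p x = 0 ∨ f p x = 1)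
    (F : Ω → ℝ) (hFm : Measurable F) (hF0 : ∀ x, 0 ≤ F x) (hF1 : ∀ x, F x ≤ 1)
    (w e E : ℕ → ℝ) (α R : ℝ) (hα : 0 ≤ α) (hR : 0 ≤ R) (hw : ∀ q, 0 ≤ w q) (hE : ∀ q, 0 ≤ E q)
    (h1 : ∀ q ∈ P, α * w q * (∫ x, F x * ∏ p ∈ T q, (1 - f p x) ∂μ) ≤
      (∫ x, F x * ((∏ p ∈ T q, (1 - f p x)) * f q x) ∂μ) + e q)
    (h2 : ∀ p ∈ P, ∑ q ∈ P.filter (fun q => p < q ∧ p ∉ T q),
        (∫ x, F x * ((∏ l ∈ T p, (1 - f l x)) * (f p x * f q x)) ∂μ) ≤
      R * (∫ x, F x * ((∏ l ∈ T p, (1 - f l x)) * f p x) ∂μ) + E p) :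
    α * (∑ q ∈ P, w q) * (∫ x, F x * ∏ p ∈ P, (1 - f p x) ∂μ) ≤
      (2 * R + 1) * ((∫ x, F x ∂μ) - ∫ x, F x * ∏ p ∈ P, (1 - f p x) ∂μ) +
      ∑ q ∈ P, (2 * E q + e q) := by
  classical
  have hpm : ∀ S : Finset ℕ, Measurable fun x => ∏ p ∈ S, (1 - f p x) := fun S =>
    Finset.measurable_prod _ fun p _ => measurable_const.sub (hfm p)
  have hp01 : ∀ (S : Finset ℕ) x, 0 ≤ ∏ p ∈ S, (1 - f p x) ∧ ∏ p ∈ S, (1 - f p x) ≤ 1 := by
    intro S x
    rcases prod_01 (T := S) (fun p => hf p x) with h | h <;> rw [h.1] <;> norm_num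
  have hf01 : ∀ p x, 0 ≤ f p x ∧ f p x ≤ 1 := by
    intro p x
    rcases hf p x with h | h <;> rw [h] <;> norm_num
  have hFabs : ∀ x, |F x| ≤ 1 := fun x => by rw [abs_of_nonneg (hF0 x)]; exact hF1 x
  -- integrability of products
  have hint : ∀ g : Ω → ℝ, Measurable g → (∀ x, 0 ≤ g x) → ∀ M : ℝ, (∀ x, g x ≤ M) →
      Integrable (fun x => F x * g x) μ := by
    intro g hg hg0 M hgM
    refine integ (M := M) (hFm.mul hg) fun x => ?_
    rw [abs_mul, abs_of_nonneg (hg0 x)]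
    calc |F x| * g x ≤ 1 * g x := mul_le_mul_of_nonneg_right (hFabs x) (hg0 x)
      _ ≤ M := by rw [one_mul]; exact hgM x
  have hi1 : ∀ S : Finset ℕ, Integrable (fun x => F x * ∏ p ∈ S, (1 - f p x)) μ := fun S =>
    hint _ (hpm S) (fun x => (hp01 S x).1) 1 fun x => (hp01 S x).2
  have hi2 : ∀ q, Integrable (fun x => F x * ((∏ p ∈ T q, (1 - f p x)) * f q x)) μ := fun q =>
    hint _ ((hpm _).mul (hfm q)) (fun x => mul_nonneg (hp01 _ x).1 (hf01 q x).1) 1 fun x =>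
      mul_le_one₀ (hp01 _ x).2 (hf01 q x).1 (hf01 q x).2
  have hi3 : ∀ p q, Integrable (fun x => F x * ((∏ l ∈ T p, (1 - f l x)) * (f p x * f q x))) μ :=
    fun p q => hint _ ((hpm _).mul ((hfm p).mul (hfm q)))
      (fun x => mul_nonneg (hp01 _ x).1 (mul_nonneg (hf01 p x).1 (hf01 q x).1)) 1 fun x =>
      mul_le_one₀ (hp01 _ x).2 (mul_nonneg (hf01 p x).1 (hf01 q x).1)
        (mul_le_one₀ (hf01 p x).2 (hf01 q x).1 (hf01 q x).2)
  have hiF : Integrable F μ := integ hFm hFabs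
  set I := ∫ x, F x ∂μ with hI
  set δ := ∫ x, F x * ∏ p ∈ P, (1 - f p x) ∂μ with hδ
  set X := ∑ q ∈ P, ∫ x, F x * ((∏ p ∈ T q, (1 - f p x)) * f q x) ∂μ with hX
  set Z : Ω → ℝ := fun x => ∑ q ∈ P, (∏ p ∈ T q, (1 - f p x)) * f q x with hZ
  have hZm : Measurable Z := Finset.measurable_sum _ fun q _ => (hpm _).mul (hfm q)
  have hZ0 : ∀ x, 0 ≤ Z x := fun x => Finset.sum_nonneg fun q _ =>
    mul_nonneg (hp01 _ x).1 (hf01 q x).1
  have hZP : ∀ x, Z x ≤ P.card := by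
    intro x
    simp only [hZ]
    calc ∑ q ∈ P, (∏ p ∈ T q, (1 - f p x)) * f q x ≤ ∑ q ∈ P, (1 : ℝ) :=
          Finset.sum_le_sum fun q _ => mul_le_one₀ (hp01 _ x).2 (hf01 q x).1 (hf01 q x).2
      _ = P.card := by simp
  have hFZ : ∫ x, F x * Z x ∂μ = X := by
    have e : ∀ x, F x * Z x = ∑ q ∈ P, F x * ((∏ p ∈ T q, (1 - f p x)) * f q x) := fun x => by
      simp only [hZ, Finset.mul_sum]
    simp only [e]
    rw [integral_finsetSum _ fun q _ => hi2 q]
  have hiZ2 : Integrable (fun x => F x * Z x ^ 2) μ :=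
    hint _ (hZm.pow_const 2) (fun x => sq_nonneg _) ((P.card : ℝ) ^ 2) fun x =>
      pow_le_pow_left₀ (hZ0 x) (hZP x) 2
  have hiZ : Integrable (fun x => F x * Z x) μ := hint _ hZm hZ0 _ hZP
  -- second moment
  have hsq : ∫ x, F x * Z x ^ 2 ∂μ ≤ (2 * R + 1) * X + 2 * ∑ p ∈ P, E p := by
    have hpt : ∀ x, F x * Z x ^ 2 ≤ F x * Z x + 2 * ∑ p ∈ P, ∑ q ∈ P.filter (fun q => p < q ∧ p ∉ T q),
        F x * ((∏ l ∈ T p, (1 - f l x)) * (f p x * f q x)) := by
      intro x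
      have h3 := mul_le_mul_of_nonneg_left (sq_sum_le P T (fun p => f p x) (fun p => hf p x)) (hF0 x)
      refine h3.trans (le_of_eq ?_)
      simp only [hZ]
      rw [mul_add]
      congr 1
      rw [mul_left_comm, Finset.mul_sum]
      congr 1
      refine Finset.sum_congr rfl fun p _ => ?_
      rw [Finset.mul_sum]
    have his : Integrable (fun x => ∑ p ∈ P, ∑ q ∈ P.filter (fun q => p < q ∧ p ∉ T q),
        F x * ((∏ l ∈ T p, (1 - f l x)) * (f p x * f q x))) μ :=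
      integrable_finsetSum _ fun p _ => integrable_finsetSum _ fun q _ => hi3 p q
    refine (integral_mono hiZ2 (hiZ.add (his.const_mul 2)) hpt).trans ?_
    simp only [Pi.add_apply]
    rw [integral_add hiZ (his.const_mul 2), hFZ, integral_const_mul,
      integral_finsetSum _ fun p _ => integrable_finsetSum _ fun q _ => hi3 p q]
    have h4 : ∑ p ∈ P, ∫ x, ∑ q ∈ P.filter (fun q => p < q ∧ p ∉ T q),
        F x * ((∏ l ∈ T p, (1 - f l x)) * (f p x * f q x)) ∂μ ≤ R * X + ∑ p ∈ P, E p := by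
      rw [hX, Finset.mul_sum, ← Finset.sum_add_distrib]
      refine Finset.sum_le_sum fun p hp => ?_
      rw [integral_finsetSum _ fun q _ => hi3 p q]
      exact h2 p hp
    linarith
  -- the pointwise inequality
  set R1 := 2 * R + 1 with hR1
  have hR1p : 1 ≤ R1 := by linarith
  have hpt2 : ∀ x, F x * Z x ≤ (1 / (2 * R1)) * (F x * Z x ^ 2) +
      (R1 / 2) * (F x - F x * ∏ p ∈ P, (1 - f p x)) := by
    intro x
    have hF := hF0 x
    rcases prod_01 (T := P) (fun p => hf p x) with h | h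
    · rw [h.1, mul_zero, sub_zero]
      have h3 : Z x ≤ 1 / (2 * R1) * Z x ^ 2 + R1 / 2 := by
        have h4 : 0 ≤ (Z x - R1) ^ 2 := sq_nonneg _
        have e : 1 / (2 * R1) * Z x ^ 2 + R1 / 2 - Z x = (Z x - R1) ^ 2 / (2 * R1) := by
          field_simp; ring
        have h5 : 0 ≤ (Z x - R1) ^ 2 / (2 * R1) := by positivity
        linarith
      calc F x * Z x ≤ F x * (1 / (2 * R1) * Z x ^ 2 + R1 / 2) := mul_le_mul_of_nonneg_left h3 hF
        _ = _ := by ring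
    · rw [h.1, mul_one, sub_self, mul_zero, add_zero]
      have hz : Z x = 0 := by
        simp only [hZ]
        refine Finset.sum_eq_zero fun q hq => ?_
        rw [h.2 q hq, mul_zero]
      rw [hz]
      simp
  have hmain : X ≤ (1 / (2 * R1)) * (∫ x, F x * Z x ^ 2 ∂μ) + (R1 / 2) * (I - δ) := by
    have hid : Integrable (fun x => F x - F x * ∏ p ∈ P, (1 - f p x)) μ := hiF.sub (hi1 P)
    have hid2 : Integrable (fun x => (R1 / 2) * (F x - F x * ∏ p ∈ P, (1 - f p x))) μ :=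
      hid.const_mul _
    have hiZ2' : Integrable (fun x => (1 / (2 * R1)) * (F x * Z x ^ 2)) μ := hiZ2.const_mul _
    rw [← hFZ]
    refine (integral_mono hiZ (hiZ2'.add hid2) hpt2).trans (le_of_eq ?_)
    simp only [Pi.add_apply]
    rw [integral_add hiZ2' hid2, integral_const_mul, integral_const_mul, integral_sub hiF (hi1 P)]
  have hEs : 0 ≤ ∑ p ∈ P, E p := Finset.sum_nonneg fun p _ => hE p
  have hX2 : X ≤ 2 * ∑ p ∈ P, E p + R1 * (I - δ) := by
    have h3 : (1 / (2 * R1)) * (∫ x, F x * Z x ^ 2 ∂μ) ≤ X / 2 + ∑ p ∈ P, E p := by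
      calc (1 / (2 * R1)) * (∫ x, F x * Z x ^ 2 ∂μ) ≤ (1 / (2 * R1)) * (R1 * X + 2 * ∑ p ∈ P, E p) :=
            mul_le_mul_of_nonneg_left hsq (by positivity)
        _ = X / 2 + (1 / R1) * ∑ p ∈ P, E p := by field_simp
        _ ≤ X / 2 + 1 * ∑ p ∈ P, E p := by
            have h4 : 1 / R1 ≤ 1 := by rw [div_le_one (by linarith)]; exact hR1p
            linarith [mul_le_mul_of_nonneg_right h4 hEs]
        _ = _ := by ring
    linarith
  -- lower bound
  have hδle : ∀ q ∈ P, δ ≤ ∫ x, F x * ∏ p ∈ T q, (1 - f p x) ∂μ := by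
    intro q hq
    refine integral_mono (hi1 P) (hi1 (T q)) fun x => ?_
    refine mul_le_mul_of_nonneg_left ?_ (hF0 x)
    rcases prod_01 (T := P) (fun p => hf p x) with h | h
    · rw [h.1]; exact (hp01 _ x).1
    · rw [h.1]
      rw [Finset.prod_eq_one fun p hp => by rw [h.2 p (hT q hq hp)]; norm_num]
  have hlow : α * (∑ q ∈ P, w q) * δ ≤ X + ∑ q ∈ P, e q := by
    rw [hX, ← Finset.sum_add_distrib, Finset.mul_sum, Finset.sum_mul]
    refine Finset.sum_le_sum fun q hq => ?_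
    refine le_trans ?_ (h1 q hq)
    exact mul_le_mul_of_nonneg_left (hδle q hq) (mul_nonneg hα (hw q))
  have e : ∑ q ∈ P, (2 * E q + e q) = 2 * ∑ p ∈ P, E p + ∑ q ∈ P, e q := by
    rw [Finset.sum_add_distrib, Finset.mul_sum]
  rw [e]
  linarith

end

end Pool.Agent.V11115.Gap
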