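import Mathlib
import Pool.Agent.V11115.Gap.Abs

set_option autoImplicit false

/-!
# A truncated second moment inequality
-/

namespace Pool.Agent.V11115.Gap

open Finset Filter Topology MeasureTheory

/-- the indicator of at most `M` events in `T` -/
noncomputable def hh (T : Finset ℕ) (M : ℝ) (f : ℕ → ℝ) : ℝ := if ∑ p ∈ T, f p ≤ M then 1 else 0

/-- the truncated count in `T q` -/
noncomputable def g2 (T : ℕ → Finset ℕ) (M : ℝ) (q : ℕ) (f : ℕ → ℝ) : ℝ :=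
  (∑ p ∈ T q, hh (T p) M f * f p) * hh (T q) M f

lemma hh_01 (T : Finset ℕ) (M : ℝ) (f : ℕ → ℝ) : hh T M f = 0 ∨ hh T M f = 1 := by
  unfold hh; split_ifs <;> simp

lemma hh_nonneg (T : Finset ℕ) (M : ℝ) (f : ℕ → ℝ) : 0 ≤ hh T M f := by
  rcases hh_01 T M f with h | h <;> rw [h]; norm_num

lemma hh_le_one (T : Finset ℕ) (M : ℝ) (f : ℕ → ℝ) : hh T M f ≤ 1 := by
  rcases hh_01 T M f with h | h <;> rw [h]; norm_num

lemma f_nonneg {f : ℕ → ℝ} (hf : ∀ p, f p = 0 ∨ f p = 1) (p : ℕ) : 0 ≤ f p := by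
  rcases hf p with h | h <;> rw [h]; norm_num

lemma f_le_one {f : ℕ → ℝ} (hf : ∀ p, f p = 0 ∨ f p = 1) (p : ℕ) : f p ≤ 1 := by
  rcases hf p with h | h <;> rw [h]; norm_num

lemma g2_nonneg {f : ℕ → ℝ} (hf : ∀ p, f p = 0 ∨ f p = 1) (T : ℕ → Finset ℕ) (M : ℝ) (q : ℕ) :
    0 ≤ g2 T M q f :=
  mul_nonneg (Finset.sum_nonneg fun p _ => mul_nonneg (hh_nonneg _ _ _) (f_nonneg hf p))
    (hh_nonneg _ _ _)

lemma g2_le_sum {f : ℕ → ℝ} (hf : ∀ p, f p = 0 ∨ f p = 1) (T : ℕ → Finset ℕ) (M : ℝ) (q : ℕ) :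
    g2 T M q f ≤ ∑ p ∈ T q, f p := by
  have h1 : ∑ p ∈ T q, hh (T p) M f * f p ≤ ∑ p ∈ T q, f p :=
    Finset.sum_le_sum fun p _ => mul_le_of_le_one_left (f_nonneg hf p) (hh_le_one _ _ _)
  have h0 : 0 ≤ ∑ p ∈ T q, hh (T p) M f * f p :=
    Finset.sum_nonneg fun p _ => mul_nonneg (hh_nonneg _ _ _) (f_nonneg hf p)
  unfold g2
  exact (mul_le_of_le_one_right h0 (hh_le_one _ _ _)).trans h1

lemma g2_le {f : ℕ → ℝ} (hf : ∀ p, f p = 0 ∨ f p = 1) (T : ℕ → Finset ℕ) {M : ℝ} (hM : 0 ≤ M)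
    (q : ℕ) : g2 T M q f ≤ M := by
  by_cases h : ∑ p ∈ T q, f p ≤ M
  · exact (g2_le_sum hf T M q).trans h
  · unfold g2
    have : hh (T q) M f = 0 := if_neg h
    rw [this, mul_zero]
    exact hM

lemma hh_ge {f : ℕ → ℝ} (hf : ∀ p, f p = 0 ∨ f p = 1) (T : Finset ℕ) {M : ℝ} (hM : 0 < M) :
    1 - 1 / M * ∑ p ∈ T, f p ≤ hh T M f := by
  have h0 : 0 ≤ ∑ p ∈ T, f p := Finset.sum_nonneg fun p _ => f_nonneg hf p
  have h1 : 0 ≤ 1 / M * ∑ p ∈ T, f p := by positivity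
  unfold hh
  split_ifs with h
  · linarith
  · push Not at h
    have : 1 ≤ 1 / M * ∑ p ∈ T, f p := by
      rw [one_div, inv_mul_eq_div, le_div_iff₀ hM]
      linarith
    linarith

/-- the square of a sum of zeros and ones -/
lemma sq_sum_eq (P : Finset ℕ) (a : ℕ → ℝ) (ha01 : ∀ q, a q = 0 ∨ a q = 1) :
    (∑ q ∈ P, a q) ^ 2 = ∑ q ∈ P, a q + 2 * ∑ p ∈ P, ∑ q ∈ P, (if p < q then a p * a q else 0) := by
  have e1 : (∑ q ∈ P, a q) ^ 2 = ∑ p ∈ P, ∑ q ∈ P, a p * a q := by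
    rw [sq, Finset.sum_mul_sum]
  have e2 : ∀ p q, a p * a q = (if p = q then a p * a q else 0) +
      ((if p < q then a p * a q else 0) + (if q < p then a p * a q else 0)) := by
    intro p q
    rcases lt_trichotomy p q with h | h | h
    · rw [if_neg h.ne, if_pos h, if_neg (by omega)]; ring
    · rw [if_pos h, if_neg (by omega), if_neg (by omega)]; ring
    · rw [if_neg (by omega), if_neg (by omega), if_pos h]; ring
  have e3 : ∑ p ∈ P, ∑ q ∈ P, (if q < p then a p * a q else 0) =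
      ∑ p ∈ P, ∑ q ∈ P, (if p < q then a p * a q else 0) := by
    rw [Finset.sum_comm]
    refine Finset.sum_congr rfl fun p _ => Finset.sum_congr rfl fun q _ => ?_
    split_ifs
    · ring
    · rfl
  have e4 : ∑ p ∈ P, ∑ q ∈ P, (if p = q then a p * a q else 0) = ∑ q ∈ P, a q := by
    refine Finset.sum_congr rfl fun p hp => ?_
    rw [Finset.sum_ite_eq, if_pos hp]
    rcases ha01 p with h | h <;> rw [h] <;> norm_num
  rw [e1]
  rw [Finset.sum_congr rfl fun p _ => Finset.sum_congr rfl fun q _ => e2 p q]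
  simp only [Finset.sum_add_distrib]
  rw [e3, e4]
  ring

/-- the square of a sum of nonnegative weights -/
lemma sq_sum_ge (P : Finset ℕ) (w : ℕ → ℝ) (hw : ∀ q, 0 ≤ w q) :
    2 * ∑ q ∈ P, ∑ p ∈ P.filter (fun p => p < q), w p * w q ≤ (∑ q ∈ P, w q) ^ 2 := by
  have e0 : ∀ q, ∑ p ∈ P.filter (fun p => p < q), w p * w q =
      ∑ p ∈ P, (if p < q then w p * w q else 0) := fun q => by rw [Finset.sum_filter]
  simp only [e0]
  have e3 : ∑ q ∈ P, ∑ p ∈ P, (if p < q then w p * w q else 0) =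
      ∑ q ∈ P, ∑ p ∈ P, (if q < p then w p * w q else 0) := by
    rw [Finset.sum_comm]
    refine Finset.sum_congr rfl fun p _ => Finset.sum_congr rfl fun q _ => ?_
    split_ifs
    · ring
    · rfl
  have e1 : (∑ q ∈ P, w q) ^ 2 = ∑ q ∈ P, ∑ p ∈ P, w p * w q := by
    rw [sq, Finset.sum_mul_sum]
    exact Finset.sum_congr rfl fun p _ => Finset.sum_congr rfl fun q _ => by ring
  rw [e1, two_mul]
  nth_rewrite 2 [e3]
  rw [← Finset.sum_add_distrib]
  refine Finset.sum_le_sum fun q _ => ?_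
  rw [← Finset.sum_add_distrib]
  refine Finset.sum_le_sum fun p _ => ?_
  have h := mul_nonneg (hw p) (hw q)
  rcases lt_trichotomy p q with h1 | h1 | h1
  · rw [if_pos h1, if_neg (by omega)]; linarith
  · rw [if_neg (by omega), if_neg (by omega)]; linarith
  · rw [if_neg (by omega), if_pos h1]; linarith

/-- the pointwise inequality -/
lemma pt_ineq (P : Finset ℕ) (T : ℕ → Finset ℕ) (hT : ∀ q ∈ P, T q ⊆ P)
    (hTlt : ∀ q ∈ P, ∀ p ∈ T q, p < q) (f : ℕ → ℝ) (hf : ∀ p, f p = 0 ∨ f p = 1)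
    (M V ε : ℝ) (hV : 0 ≤ V) (hε0 : 0 ≤ ε) :
    ε ^ 2 * V ^ 2 * (if ∑ q ∈ P, f q < (1 - ε) * V then (1 : ℝ) else 0) +
      2 * V * ∑ q ∈ P, hh (T q) M f * f q ≤
    V ^ 2 + ∑ q ∈ P, f q + 2 * ∑ q ∈ P, g2 T M q f * f q +
      2 * ∑ p ∈ P, ∑ q ∈ P.filter (fun q => p < q ∧ p ∉ T q), f p * f q := by
  classical
  set a : ℕ → ℝ := fun q => hh (T q) M f * f q with ha
  have ha01 : ∀ q, a q = 0 ∨ a q = 1 := by
    intro q
    simp only [ha]
    rcases hh_01 (T q) M f with h | h <;> rcases hf q with h2 | h2 <;> rw [h, h2] <;> norm_num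
  have ha0 : ∀ q, 0 ≤ a q := fun q => by rcases ha01 q with h | h <;> rw [h]; norm_num
  have haf : ∀ q, a q ≤ f q := fun q => mul_le_of_le_one_left (f_nonneg hf q) (hh_le_one _ _ _)
  set U := ∑ q ∈ P, a q with hU
  have hU0 : 0 ≤ U := Finset.sum_nonneg fun q _ => ha0 q
  have hUS : U ≤ ∑ q ∈ P, f q := Finset.sum_le_sum fun q _ => haf q
  have h1 : ε ^ 2 * V ^ 2 * (if ∑ q ∈ P, f q < (1 - ε) * V then (1 : ℝ) else 0) ≤ (U - V) ^ 2 := by
    split_ifs with h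
    · have h2 : ε * V ≤ V - U := by linarith
      have h3 : 0 ≤ ε * V := by positivity
      nlinarith
    · rw [mul_zero]; positivity
  have h2 : U ^ 2 ≤ ∑ q ∈ P, f q + 2 * ∑ q ∈ P, g2 T M q f * f q +
      2 * ∑ p ∈ P, ∑ q ∈ P.filter (fun q => p < q ∧ p ∉ T q), f p * f q := by
    rw [hU, sq_sum_eq P a ha01]
    have h3 : ∑ p ∈ P, ∑ q ∈ P, (if p < q then a p * a q else 0) ≤
        ∑ q ∈ P, g2 T M q f * f q +
        ∑ p ∈ P, ∑ q ∈ P.filter (fun q => p < q ∧ p ∉ T q), f p * f q := by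
      have e1 : ∑ q ∈ P, g2 T M q f * f q = ∑ p ∈ P, ∑ q ∈ P, (if p ∈ T q then a p * a q else 0) := by
        rw [Finset.sum_comm]
        refine Finset.sum_congr rfl fun q hq => ?_
        rw [← Finset.sum_filter, Finset.filter_mem_eq_inter, Finset.inter_eq_right.2 (hT q hq)]
        unfold g2
        rw [mul_assoc, Finset.sum_mul]
      have e2 : ∑ p ∈ P, ∑ q ∈ P.filter (fun q => p < q ∧ p ∉ T q), f p * f q =
          ∑ p ∈ P, ∑ q ∈ P, (if p < q ∧ p ∉ T q then f p * f q else 0) :=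
        Finset.sum_congr rfl fun p _ => by rw [Finset.sum_filter]
      rw [e1, e2, ← Finset.sum_add_distrib]
      refine Finset.sum_le_sum fun p hp => ?_
      rw [← Finset.sum_add_distrib]
      refine Finset.sum_le_sum fun q hq => ?_
      have h4 : a p * a q ≤ f p * f q := mul_le_mul (haf p) (haf q) (ha0 q) (f_nonneg hf p)
      have h5 : 0 ≤ a p * a q := mul_nonneg (ha0 p) (ha0 q)
      have h6 : 0 ≤ f p * f q := mul_nonneg (f_nonneg hf p) (f_nonneg hf q)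
      by_cases hlt : p < q
      · by_cases hm : p ∈ T q
        · rw [if_pos hlt, if_pos hm, if_neg (fun h => h.2 hm), add_zero]
        · rw [if_pos hlt, if_neg hm, if_pos ⟨hlt, hm⟩, zero_add]; exact h4
      · rw [if_neg hlt, if_neg (fun h => hlt (hTlt q hq p h)), if_neg (fun h => hlt h.1), add_zero]
    have h7 : ∑ q ∈ P, a q ≤ ∑ q ∈ P, f q := hUS
    linarith
  have h3 : (U - V) ^ 2 = U ^ 2 - 2 * V * U + V ^ 2 := by ring
  have h4 : 2 * V * ∑ q ∈ P, hh (T q) M f * f q = 2 * V * U := rfl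
  rw [h4]
  linarith

section

variable {Ω : Type*} [MeasurableSpace Ω]

/-- bounded measurable -/
def Bd (g : Ω → ℝ) : Prop := Measurable g ∧ ∃ M, ∀ x, |g x| ≤ M

lemma Bd.const (c : ℝ) : Bd (fun _ : Ω => c) := ⟨measurable_const, |c|, fun _ => le_rfl⟩

lemma Bd.add {g h : Ω → ℝ} (hg : Bd g) (hh : Bd h) : Bd (fun x => g x + h x) := by
  obtain ⟨m1, A, hA⟩ := hg
  obtain ⟨m2, B, hB⟩ := hh
  exact ⟨m1.add m2, A + B, fun x => (abs_add_le _ _).trans (add_le_add (hA x) (hB x))⟩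

lemma Bd.mul {g h : Ω → ℝ} (hg : Bd g) (hh : Bd h) : Bd (fun x => g x * h x) := by
  obtain ⟨m1, A, hA⟩ := hg
  obtain ⟨m2, B, hB⟩ := hh
  refine ⟨m1.mul m2, A * B, fun x => ?_⟩
  rw [abs_mul]
  exact mul_le_mul (hA x) (hB x) (abs_nonneg _) ((abs_nonneg _).trans (hA x))

lemma Bd.sum {ι : Type*} (s : Finset ι) {g : ι → Ω → ℝ} (h : ∀ i, Bd (g i)) :
    Bd (fun x => ∑ i ∈ s, g i x) := by
  classical
  induction s using Finset.induction_on with
  | empty => simpa using Bd.const 0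
  | insert i s hi ih =>
    simp only [Finset.sum_insert hi]
    exact (h i).add ih

variable {μ : Measure Ω} [IsFiniteMeasure μ]

/-- the weighted integral -/
noncomputable def EE (μ : Measure Ω) (F g : Ω → ℝ) : ℝ := ∫ x, F x * g x ∂μ

lemma EE_int {F g : Ω → ℝ} (hF : Bd F) (hg : Bd g) : Integrable (fun x => F x * g x) μ := by
  obtain ⟨m, M, hM⟩ := hF.mul hg
  exact integ m hM

lemma EE_add {F g h : Ω → ℝ} (hF : Bd F) (hg : Bd g) (hh : Bd h) :
    EE μ F (fun x => g x + h x) = EE μ F g + EE μ F h := by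
  unfold EE
  rw [← integral_add (EE_int hF hg) (EE_int hF hh)]
  exact integral_congr_ae (Eventually.of_forall fun x => by simp only; ring)

lemma EE_mul (F g : Ω → ℝ) (c : ℝ) : EE μ F (fun x => c * g x) = c * EE μ F g := by
  unfold EE
  rw [← integral_const_mul]
  exact integral_congr_ae (Eventually.of_forall fun x => by simp only; ring)

lemma EE_sum {ι : Type*} (s : Finset ι) {F : Ω → ℝ} (hF : Bd F) {g : ι → Ω → ℝ}
    (h : ∀ i, Bd (g i)) : EE μ F (fun x => ∑ i ∈ s, g i x) = ∑ i ∈ s, EE μ F (g i) := by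
  unfold EE
  rw [← integral_finsetSum s fun i _ => EE_int hF (h i)]
  exact integral_congr_ae (Eventually.of_forall fun x => by simp only [Finset.mul_sum])

lemma EE_mono {F g h : Ω → ℝ} (hF : Bd F) (hF0 : ∀ x, 0 ≤ F x) (hg : Bd g) (hh : Bd h)
    (hle : ∀ x, g x ≤ h x) : EE μ F g ≤ EE μ F h :=
  integral_mono (EE_int hF hg) (EE_int hF hh) fun x => mul_le_mul_of_nonneg_left (hle x) (hF0 x)

lemma EE_nonneg {F g : Ω → ℝ} (hF0 : ∀ x, 0 ≤ F x) (hg : ∀ x, 0 ≤ g x) : 0 ≤ EE μ F g :=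
  integral_nonneg fun x => mul_nonneg (hF0 x) (hg x)

/-- **The truncated second moment inequality.** -/
theorem cheb (P : Finset ℕ) (T : ℕ → Finset ℕ) (hT : ∀ q ∈ P, T q ⊆ P)
    (hTlt : ∀ q ∈ P, ∀ p ∈ T q, p < q)
    (f : ℕ → Ω → ℝ) (hfm : ∀ p, Measurable (f p)) (hf : ∀ p x, f p x = 0 ∨ f p x = 1)
    (F : Ω → ℝ) (hF : Bd F) (hF0 : ∀ x, 0 ≤ F x)
    (w e E : ℕ → ℝ) (ρ R V ε : ℝ) (hρ0 : 0 < ρ) (hρ1 : ρ ≤ 1) (hε0 : 0 ≤ ε) (hw : ∀ q, 0 ≤ w q)
    (he : ∀ q, 0 ≤ e q) (hVd : V = ∑ q ∈ P, w q) (hV1 : 1 ≤ V)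
    (h1 : ∀ q ∈ P, EE μ F (f q) ≤ (1 + ρ) * w q * EE μ F (fun _ => 1) + e q)
    (h2 : ∀ q ∈ P, EE μ F (fun x => g2 T (V / ρ) q (fun p => f p x) * f q x) ≤
      (1 + ρ) * w q * EE μ F (fun x => g2 T (V / ρ) q (fun p => f p x)) + V / ρ * e q)
    (h3 : ∀ q ∈ P, (1 - ρ) * w q * EE μ F (fun x => hh (T q) (V / ρ) (fun p => f p x)) - e q ≤
      EE μ F (fun x => hh (T q) (V / ρ) (fun p => f p x) * f q x))
    (h4 : ∀ p ∈ P, ∑ q ∈ P.filter (fun q => p < q ∧ p ∉ T q), EE μ F (fun x => f p x * f q x) ≤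
      R * w p * EE μ F (fun _ => 1) + E p) :
    ε ^ 2 * V ^ 2 * EE μ F (fun x => if ∑ q ∈ P, f q x < (1 - ε) * V then (1 : ℝ) else 0) ≤
      (7 * ρ * V ^ 2 + (2 + 2 * R) * V) * EE μ F (fun _ => 1) + 11 / ρ * V ^ 2 * (∑ q ∈ P, e q) +
        2 * ∑ p ∈ P, E p := by
  classical
  set M := V / ρ with hM
  have hV0 : 0 < V := by linarith
  have hM0 : 0 < M := by positivity
  set I := EE μ F (fun _ => 1) with hI
  have hI0 : 0 ≤ I := EE_nonneg hF0 fun _ => zero_le_one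
  have bf : ∀ p, Bd (f p) := fun p => ⟨hfm p, 1, fun x => by
    rcases hf p x with h | h <;> rw [h] <;> norm_num⟩
  have bh : ∀ q, Bd (fun x => hh (T q) M (fun p => f p x)) := by
    intro q
    refine ⟨?_, 1, fun x => ?_⟩
    · unfold hh
      exact Measurable.ite (measurableSet_le (Finset.measurable_sum _ fun p _ => hfm p)
        measurable_const) measurable_const measurable_const
    · rw [abs_of_nonneg (hh_nonneg _ _ _)]; exact hh_le_one _ _ _
  have bg : ∀ q, Bd (fun x => g2 T M q (fun p => f p x)) := fun q =>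
    (Bd.sum (T q) fun p => (bh p).mul (bf p)).mul (bh q)
  have bb : Bd (fun x => if ∑ q ∈ P, f q x < (1 - ε) * V then (1 : ℝ) else 0) := by
    refine ⟨Measurable.ite (measurableSet_lt (Finset.measurable_sum _ fun p _ => hfm p)
        measurable_const) measurable_const measurable_const, 1, fun x => ?_⟩
    beta_reduce
    split_ifs <;> norm_num
  set X : ℕ → ℝ := fun q => EE μ F (f q) with hX
  set G2 : ℕ → ℝ := fun q => EE μ F (fun x => g2 T M q (fun p => f p x)) with hG2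
  set G2f : ℕ → ℝ := fun q => EE μ F (fun x => g2 T M q (fun p => f p x) * f q x) with hG2f
  set H : ℕ → ℝ := fun q => EE μ F (fun x => hh (T q) M (fun p => f p x)) with hH
  set Hf : ℕ → ℝ := fun q => EE μ F (fun x => hh (T q) M (fun p => f p x) * f q x) with hHf
  set XX : ℕ → ℕ → ℝ := fun p q => EE μ F (fun x => f p x * f q x) with hXX
  set bad := EE μ F (fun x => if ∑ q ∈ P, f q x < (1 - ε) * V then (1 : ℝ) else 0) with hbad
  have hmain : ε ^ 2 * V ^ 2 * bad + 2 * V * ∑ q ∈ P, Hf q ≤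
      V ^ 2 * I + ∑ q ∈ P, X q + 2 * ∑ q ∈ P, G2f q +
      2 * ∑ p ∈ P, ∑ q ∈ P.filter (fun q => p < q ∧ p ∉ T q), XX p q := by
    have b1 : Bd (fun x => ∑ q ∈ P, hh (T q) M (fun p => f p x) * f q x) :=
      Bd.sum P fun q => (bh q).mul (bf q)
    have b2 : Bd (fun x => ∑ q ∈ P, f q x) := Bd.sum P bf
    have b3 : Bd (fun x => ∑ q ∈ P, g2 T M q (fun p => f p x) * f q x) :=
      Bd.sum P fun q => (bg q).mul (bf q)
    have b4' : ∀ p, Bd (fun x => ∑ q ∈ P.filter (fun q => p < q ∧ p ∉ T q), f p x * f q x) :=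
      fun p => Bd.sum _ fun q => (bf p).mul (bf q)
    have b4 : Bd (fun x => ∑ p ∈ P, ∑ q ∈ P.filter (fun q => p < q ∧ p ∉ T q), f p x * f q x) :=
      Bd.sum P b4'
    have e1 : ε ^ 2 * V ^ 2 * bad + 2 * V * ∑ q ∈ P, Hf q = EE μ F (fun x =>
        ε ^ 2 * V ^ 2 * (if ∑ q ∈ P, f q x < (1 - ε) * V then (1 : ℝ) else 0) +
        2 * V * ∑ q ∈ P, hh (T q) M (fun p => f p x) * f q x) := by
      rw [EE_add hF ((Bd.const _).mul bb) ((Bd.const _).mul b1), EE_mul, EE_mul,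
        EE_sum P hF fun q => (bh q).mul (bf q)]
    have e2 : V ^ 2 * I + ∑ q ∈ P, X q + 2 * ∑ q ∈ P, G2f q +
      2 * ∑ p ∈ P, ∑ q ∈ P.filter (fun q => p < q ∧ p ∉ T q), XX p q = EE μ F (fun x =>
        V ^ 2 * 1 + ∑ q ∈ P, f q x + 2 * ∑ q ∈ P, g2 T M q (fun p => f p x) * f q x +
        2 * ∑ p ∈ P, ∑ q ∈ P.filter (fun q => p < q ∧ p ∉ T q), f p x * f q x) := by
      rw [EE_add hF (((((Bd.const _).mul (Bd.const 1))).add b2).add ((Bd.const _).mul b3))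
        ((Bd.const _).mul b4), EE_add hF (((Bd.const _).mul (Bd.const 1)).add b2)
        ((Bd.const _).mul b3), EE_add hF ((Bd.const _).mul (Bd.const 1)) b2, EE_mul, EE_mul, EE_mul,
        EE_sum P hF bf, EE_sum P hF fun q => (bg q).mul (bf q), EE_sum P hF b4']
      congr 2
      refine Finset.sum_congr rfl fun p _ => ?_
      rw [EE_sum _ hF fun q => (bf p).mul (bf q)]
    rw [e1, e2]
    refine EE_mono hF hF0 (((Bd.const _).mul bb).add ((Bd.const _).mul b1))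
      (((((Bd.const _).mul (Bd.const 1)).add b2).add ((Bd.const _).mul b3)).add
        ((Bd.const _).mul b4)) fun x => ?_
    have := pt_ineq P T hT hTlt (fun p => f p x) (fun p => hf p x) M V ε hV0.le hε0
    rw [mul_one]
    exact this
  -- numerics
  set Se := ∑ q ∈ P, e q with hSe
  have hSe0 : 0 ≤ Se := Finset.sum_nonneg fun q _ => he q
  have hX0 : ∀ q, 0 ≤ X q := fun q => EE_nonneg hF0 fun x => f_nonneg (fun p => hf p x) q
  have a1 : ∑ q ∈ P, X q ≤ (1 + ρ) * V * I + Se := by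
    calc ∑ q ∈ P, X q ≤ ∑ q ∈ P, ((1 + ρ) * w q * I + e q) := Finset.sum_le_sum h1
      _ = (1 + ρ) * V * I + Se := by
        rw [Finset.sum_add_distrib, ← Finset.sum_mul, ← Finset.mul_sum, ← hVd]
  have a2 : ∀ q ∈ P, G2 q ≤ ∑ p ∈ P.filter (fun p => p < q), ((1 + ρ) * w p * I + e p) := by
    intro q hq
    have s1 : G2 q ≤ ∑ p ∈ T q, X p := by
      rw [hX, ← EE_sum (T q) hF bf]
      exact EE_mono hF hF0 (bg q) (Bd.sum _ bf) fun x => g2_le_sum (fun p => hf p x) T M q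
    have s2 : T q ⊆ P.filter (fun p => p < q) := fun p hp =>
      Finset.mem_filter.2 ⟨hT q hq hp, hTlt q hq p hp⟩
    refine s1.trans ((Finset.sum_le_sum_of_subset_of_nonneg s2 fun p _ _ => hX0 p).trans
      (Finset.sum_le_sum fun p hp => h1 p (Finset.mem_filter.1 hp).1))
  have a3 : 2 * ∑ q ∈ P, G2f q ≤ (1 + ρ) ^ 2 * V ^ 2 * I + 2 * (1 + ρ) * V * Se + 2 * M * Se := by
    have s1 : ∑ q ∈ P, G2f q ≤ ∑ q ∈ P, ((1 + ρ) * w q *
        (∑ p ∈ P.filter (fun p => p < q), ((1 + ρ) * w p * I + e p)) + M * e q) :=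
      Finset.sum_le_sum fun q hq => (h2 q hq).trans (add_le_add
        (mul_le_mul_of_nonneg_left (a2 q hq) (mul_nonneg (by linarith) (hw q))) le_rfl)
    have s2 : ∀ q ∈ P, (1 + ρ) * w q * (∑ p ∈ P.filter (fun p => p < q), ((1 + ρ) * w p * I + e p)) ≤
        (1 + ρ) ^ 2 * I * (∑ p ∈ P.filter (fun p => p < q), w p * w q) + (1 + ρ) * w q * Se := by
      intro q hq
      have s3 : ∑ p ∈ P.filter (fun p => p < q), e p ≤ Se :=
        Finset.sum_le_sum_of_subset_of_nonneg (Finset.filter_subset _ _) fun p _ _ => he p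
      have s4 : ∑ p ∈ P.filter (fun p => p < q), ((1 + ρ) * w p * I + e p) =
          (1 + ρ) * (∑ p ∈ P.filter (fun p => p < q), w p) * I +
            ∑ p ∈ P.filter (fun p => p < q), e p := by
        rw [Finset.sum_add_distrib, ← Finset.sum_mul, ← Finset.mul_sum]
      rw [s4, mul_add]
      have s5 : (1 + ρ) * w q * ((1 + ρ) * (∑ p ∈ P.filter (fun p => p < q), w p) * I) =
          (1 + ρ) ^ 2 * I * (∑ p ∈ P.filter (fun p => p < q), w p * w q) := by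
        rw [← Finset.sum_mul]; ring
      rw [s5]
      exact add_le_add le_rfl (mul_le_mul_of_nonneg_left s3 (mul_nonneg (by linarith) (hw q)))
    have s6 : ∑ q ∈ P, ((1 + ρ) * w q *
        (∑ p ∈ P.filter (fun p => p < q), ((1 + ρ) * w p * I + e p)) + M * e q) ≤
        (1 + ρ) ^ 2 * I * (∑ q ∈ P, ∑ p ∈ P.filter (fun p => p < q), w p * w q) +
          (1 + ρ) * V * Se + M * Se := by
      rw [Finset.sum_add_distrib, ← Finset.mul_sum (f := e), ← hSe]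
      refine add_le_add ((Finset.sum_le_sum s2).trans (le_of_eq ?_)) le_rfl
      rw [Finset.sum_add_distrib, ← Finset.mul_sum, ← Finset.sum_mul, ← Finset.mul_sum, ← hVd]
    have s7 := sq_sum_ge P w hw
    rw [← hVd] at s7
    have s8 := mul_le_mul_of_nonneg_left s7 (show 0 ≤ (1 + ρ) ^ 2 * I by positivity)
    have s9 := s1.trans s6
    linarith
  have a4 : ∑ p ∈ P, ∑ q ∈ P.filter (fun q => p < q ∧ p ∉ T q), XX p q ≤
      R * V * I + ∑ p ∈ P, E p := by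
    refine (Finset.sum_le_sum h4).trans (le_of_eq ?_)
    rw [Finset.sum_add_distrib, ← Finset.sum_mul, ← Finset.mul_sum, ← hVd]
  have a5 : ∀ q ∈ P, (1 - ρ * (1 + ρ)) * I - ρ * Se ≤ H q := by
    intro q hq
    have s1 : I - 1 / M * ∑ p ∈ T q, X p ≤ H q := by
      have s2 : EE μ F (fun x => 1 + (-(1 / M)) * ∑ p ∈ T q, f p x) ≤ H q :=
        EE_mono hF hF0 ((Bd.const _).add ((Bd.const _).mul (Bd.sum _ bf))) (bh q) fun x => by
          have := hh_ge (fun p => hf p x) (T q) hM0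
          linarith
      rw [EE_add hF (Bd.const _) ((Bd.const _).mul (Bd.sum _ bf)), EE_mul, EE_sum _ hF bf] at s2
      linarith
    have s2 : ∑ p ∈ T q, X p ≤ (1 + ρ) * V * I + Se :=
      (Finset.sum_le_sum_of_subset_of_nonneg (hT q hq) fun p _ _ => hX0 p).trans a1
    have s3 : 1 / M * ∑ p ∈ T q, X p ≤ 1 / M * ((1 + ρ) * V * I + Se) :=
      mul_le_mul_of_nonneg_left s2 (by positivity)
    have s4 : 1 / M * ((1 + ρ) * V * I + Se) = ρ * (1 + ρ) * I + ρ * Se / V := by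
      rw [hM]; field_simp
    have s5 : ρ * Se / V ≤ ρ * Se := div_le_self (by positivity) hV1
    linarith
  have a6 : (1 - ρ) * V * ((1 - ρ * (1 + ρ)) * I - ρ * Se) - Se ≤ ∑ q ∈ P, Hf q := by
    have s1 : ∑ q ∈ P, ((1 - ρ) * w q * ((1 - ρ * (1 + ρ)) * I - ρ * Se) - e q) ≤ ∑ q ∈ P, Hf q :=
      Finset.sum_le_sum fun q hq => le_trans (sub_le_sub_right
        (mul_le_mul_of_nonneg_left (a5 q hq) (mul_nonneg (by linarith) (hw q))) _) (h3 q hq)
    rw [Finset.sum_sub_distrib, ← Finset.sum_mul, ← Finset.mul_sum, ← hVd] at s1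
    exact s1
  have a7 : 2 * V * ((1 - ρ) * V * ((1 - ρ * (1 + ρ)) * I - ρ * Se) - Se) ≤
      2 * V * ∑ q ∈ P, Hf q := mul_le_mul_of_nonneg_left a6 (by linarith)
  set r := 1 / ρ with hr
  have hr1 : 1 ≤ r := by rw [hr, le_div_iff₀ hρ0]; linarith
  have hMr : M = V * r := by rw [hM, hr]; ring
  have hVV : V ≤ V ^ 2 := by nlinarith
  have k1 : V ^ 2 * I * (6 * ρ + ρ ^ 2 - 2 * ρ ^ 3) ≤ 7 * ρ * V ^ 2 * I := by
    have : 0 ≤ V ^ 2 * I * (ρ * (1 - ρ) + 2 * ρ ^ 3) := by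
      have h5 : 0 ≤ ρ * (1 - ρ) := mul_nonneg hρ0.le (by linarith)
      positivity
    nlinarith
  have k2 : ((1 + ρ) + 2 * R) * V * I ≤ (2 + 2 * R) * V * I := by
    have : 0 ≤ V * I * (1 - ρ) := mul_nonneg (by positivity) (by linarith)
    nlinarith
  have k3 : Se * (1 + 2 * (1 + ρ) * V + 2 * M + 2 * ((1 - ρ) * ρ) * V ^ 2 + 2 * V) ≤
      11 / ρ * V ^ 2 * Se := by
    have e : 11 / ρ * V ^ 2 * Se = Se * (11 * (r * V ^ 2)) := by rw [hr]; ring
    rw [e]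
    refine mul_le_mul_of_nonneg_left ?_ hSe0
    have t0 : V ^ 2 ≤ r * V ^ 2 := by nlinarith [sq_nonneg V]
    have t1 : 2 * (1 + ρ) * V ≤ 4 * V := by nlinarith
    have t2 : M ≤ r * V ^ 2 := by rw [hMr]; nlinarith
    have t3 : (1 - ρ) * ρ ≤ 1 := by nlinarith
    have t4 : (1 - ρ) * ρ * V ^ 2 ≤ 1 * V ^ 2 := mul_le_mul_of_nonneg_right t3 (sq_nonneg V)
    linarith
  have k4 : 2 * V * ((1 - ρ) * V * ((1 - ρ * (1 + ρ)) * I - ρ * Se) - Se) =
      2 * (V ^ 2 * I * (1 - 2 * ρ + ρ ^ 3)) - Se * (2 * ((1 - ρ) * ρ) * V ^ 2 + 2 * V) := by ring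
  have k5 : (1 + ρ) ^ 2 * V ^ 2 * I + V ^ 2 * I - 2 * (V ^ 2 * I * (1 - 2 * ρ + ρ ^ 3)) =
      V ^ 2 * I * (6 * ρ + ρ ^ 2 - 2 * ρ ^ 3) := by ring
  rw [k4] at a7
  have k6 : (7 * ρ * V ^ 2 + (2 + 2 * R) * V) * I = 7 * ρ * V ^ 2 * I + (2 + 2 * R) * V * I := by ring
  rw [k6]
  nlinarith

end

end Pool.Agent.V11115.Gap
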