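import Mathlib
import Pool.Agent.H305R2.Window

set_option autoImplicit false

/-!
# Binary truncations and cells

`Nb β q` is the largest integer below `β 2 ^ q`; `J m j` is a dyadic interval of amplitudes.
-/

namespace Pool.Agent.V11115.Gap

open Finset Filter Topology MeasureTheory
open Pool.Agent.H305R2 (roughPart)

/-- the largest integer below `β 2 ^ q` -/
noncomputable def Nb (β : ℝ) (q : ℕ) : ℕ := ⌈β * 2 ^ q⌉₊ - 1

/-- the indicator of a prime rough part -/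
noncomputable def G (q N : ℕ) : ℝ := if (roughPart q N).Prime then 1 else 0

/-- a dyadic interval -/
def J (m j : ℕ) : Set ℝ := Set.Ioc ((m : ℝ) / 2 ^ j) (((m + 1 : ℕ) : ℝ) / 2 ^ j)

lemma G_nonneg (q N : ℕ) : 0 ≤ G q N := by unfold G; split_ifs <;> norm_num

lemma G_le_one (q N : ℕ) : G q N ≤ 1 := by unfold G; split_ifs <;> norm_num

lemma G_01 (q N : ℕ) : G q N = 0 ∨ G q N = 1 := by unfold G; split_ifs <;> simp

lemma G_sq (q N : ℕ) : G q N * G q N = G q N := by rcases G_01 q N with h | h <;> rw [h] <;> norm_num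

lemma Nb_of_bounds {β : ℝ} {q N : ℕ} (h1 : (N : ℝ) < β * 2 ^ q) (h2 : β * 2 ^ q ≤ N + 1) :
    Nb β q = N := by
  unfold Nb
  have h3 : ⌈β * 2 ^ q⌉₊ ≤ N + 1 := Nat.ceil_le.2 (by push_cast; exact h2)
  have h4 : N < ⌈β * 2 ^ q⌉₊ := Nat.lt_ceil.2 h1
  omega

lemma Nb_bounds {β : ℝ} (hβ : 0 < β) (q : ℕ) :
    (Nb β q : ℝ) < β * 2 ^ q ∧ β * 2 ^ q ≤ Nb β q + 1 := by
  have h0 : 0 < ⌈β * 2 ^ q⌉₊ := Nat.ceil_pos.2 (by positivity)
  have e : Nb β q + 1 = ⌈β * 2 ^ q⌉₊ := by unfold Nb; omega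
  constructor
  · have h1 : Nb β q < ⌈β * 2 ^ q⌉₊ := by omega
    exact Nat.lt_ceil.1 h1
  · have h1 : β * 2 ^ q ≤ ((Nb β q + 1 : ℕ) : ℝ) := by rw [e]; exact Nat.le_ceil _
    push_cast at h1
    exact h1

/-- truncating twice -/
lemma Nb_anc {β : ℝ} (hβ : 0 < β) (p h : ℕ) : Nb β (p + h) / 2 ^ h = Nb β p := by
  symm
  obtain ⟨h1, h2⟩ := Nb_bounds hβ (p + h)
  set N := Nb β (p + h) with hN
  set M := N / 2 ^ h with hM
  have hp : (0 : ℝ) < 2 ^ h := by positivity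
  have h3 : M * 2 ^ h ≤ N := Nat.div_mul_le_self N (2 ^ h)
  have h4 : N < (M + 1) * 2 ^ h := by
    have := Nat.lt_div_mul_add (a := N) (b := 2 ^ h) (by positivity)
    rw [← hM] at this
    linarith
  have h3' : (M : ℝ) * 2 ^ h ≤ N := by exact_mod_cast h3
  have h4' : (N : ℝ) + 1 ≤ (M + 1) * 2 ^ h := by exact_mod_cast h4
  rw [pow_add, ← mul_assoc] at h1 h2
  refine Nb_of_bounds ?_ ?_
  · by_contra hc
    push Not at hc
    have := mul_le_mul_of_nonneg_right hc hp.le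
    linarith
  · by_contra hc
    push Not at hc
    have := mul_lt_mul_of_pos_right hc hp
    linarith

lemma Nb_anc' {β : ℝ} (hβ : 0 < β) {p q : ℕ} (h : p ≤ q) : Nb β q / 2 ^ (q - p) = Nb β p := by
  have := Nb_anc hβ p (q - p)
  rwa [Nat.add_sub_cancel' h] at this

lemma measurable_Nb (q : ℕ) : Measurable (fun β : ℝ => Nb β q) := by
  unfold Nb
  have h1 : Measurable (fun β : ℝ => ⌈β * 2 ^ q⌉₊) :=
    Nat.measurable_ceil.comp (measurable_id.mul_const _)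
  exact (measurable_from_nat (f := fun n : ℕ => n - 1)).comp h1

lemma measurable_FNb (F : ℕ → ℝ) (q : ℕ) : Measurable (fun β : ℝ => F (Nb β q)) :=
  (measurable_from_nat (f := F)).comp (measurable_Nb q)

lemma J_pos {m j : ℕ} {β : ℝ} (h : β ∈ J m j) : 0 < β := by
  have h1 : (m : ℝ) / 2 ^ j < β := h.1
  have h2 : (0 : ℝ) ≤ (m : ℝ) / 2 ^ j := by positivity
  linarith

lemma J_eq {m j q : ℕ} (h : j ≤ q) : J m j =
    Set.Ioc (((m * 2 ^ (q - j) : ℕ) : ℝ) / 2 ^ q) ((((m + 1) * 2 ^ (q - j) : ℕ) : ℝ) / 2 ^ q) := by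
  unfold J
  have e : (2 : ℝ) ^ q = 2 ^ (q - j) * 2 ^ j := by rw [← pow_add]; congr 1; omega
  have h1 : (0 : ℝ) < 2 ^ (q - j) := by positivity
  have h2 : (0 : ℝ) < 2 ^ j := by positivity
  congr 1
  · push_cast
    rw [e]
    field_simp
  · push_cast
    rw [e]
    field_simp

lemma mem_J_iff {m j q : ℕ} (h : j ≤ q) {β : ℝ} (hβ : 0 < β) :
    β ∈ J m j ↔ m * 2 ^ (q - j) ≤ Nb β q ∧ Nb β q < (m + 1) * 2 ^ (q - j) := by
  rw [J_eq h, Set.mem_Ioc]
  obtain ⟨h1, h2⟩ := Nb_bounds hβ q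
  have hq : (0 : ℝ) < 2 ^ q := by positivity
  rw [div_lt_iff₀ hq, le_div_iff₀ hq]
  constructor
  · rintro ⟨h3, h4⟩
    constructor
    · have h5 : ((m * 2 ^ (q - j) : ℕ) : ℝ) < ((Nb β q + 1 : ℕ) : ℝ) := by
        push_cast at h3 ⊢
        linarith
      have h6 : m * 2 ^ (q - j) < Nb β q + 1 := by exact_mod_cast h5
      omega
    · have h5 : ((Nb β q : ℕ) : ℝ) < (((m + 1) * 2 ^ (q - j) : ℕ) : ℝ) := by linarith
      exact_mod_cast h5
  · rintro ⟨h3, h4⟩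
    constructor
    · have h5 : ((m * 2 ^ (q - j) : ℕ) : ℝ) ≤ Nb β q := by exact_mod_cast h3
      linarith
    · have h5 : ((Nb β q + 1 : ℕ) : ℝ) ≤ (((m + 1) * 2 ^ (q - j) : ℕ) : ℝ) := by exact_mod_cast h4
      push_cast at h5 ⊢
      linarith

lemma int_bdd {F : ℝ → ℝ} (hF : Measurable F) {M : ℝ} (hF1 : ∀ x, |F x| ≤ M) (s t : ℝ) :
    IntegrableOn F (Set.Ioc s t) :=
  Measure.integrableOn_of_bounded (M := M) (by simp) hF.aestronglyMeasurable
    (Eventually.of_forall fun x => by rw [Real.norm_eq_abs]; exact hF1 x)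

/-- the integral over finitely many cells -/
lemma cell_int (F : ℕ → ℝ) (q A B : ℕ) (hAB : A ≤ B) :
    IntegrableOn (fun β => F (Nb β q)) (Set.Ioc ((A : ℝ) / 2 ^ q) ((B : ℝ) / 2 ^ q)) ∧
    ∫ β in Set.Ioc ((A : ℝ) / 2 ^ q) ((B : ℝ) / 2 ^ q), F (Nb β q) =
      (2 ^ q)⁻¹ * ∑ N ∈ Ico A B, F N := by
  have hq : (0 : ℝ) < 2 ^ q := by positivity
  induction B, hAB using Nat.le_induction with
  | base => simp
  | succ B hB ih =>
    obtain ⟨ih1, ih2⟩ := ih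
    have h1 : ((A : ℝ) / 2 ^ q) ≤ (B : ℝ) / 2 ^ q :=
      div_le_div_of_nonneg_right (by exact_mod_cast hB) hq.le
    have h2 : ((B : ℝ) / 2 ^ q) ≤ ((B + 1 : ℕ) : ℝ) / 2 ^ q :=
      div_le_div_of_nonneg_right (by push_cast; linarith) hq.le
    have hconst : ∀ β ∈ Set.Ioc ((B : ℝ) / 2 ^ q) (((B + 1 : ℕ) : ℝ) / 2 ^ q), F (Nb β q) = F B := by
      intro β hβ
      rw [Set.mem_Ioc, div_lt_iff₀ hq, le_div_iff₀ hq] at hβ
      push_cast at hβ
      rw [Nb_of_bounds hβ.1 hβ.2]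
    have hi2 : IntegrableOn (fun β => F (Nb β q))
        (Set.Ioc ((B : ℝ) / 2 ^ q) (((B + 1 : ℕ) : ℝ) / 2 ^ q)) := by
      refine (integrableOn_const (C := F B) (by simp)).congr_fun (fun β hβ => (hconst β hβ).symm)
        measurableSet_Ioc
    have hun : Set.Ioc ((A : ℝ) / 2 ^ q) (((B + 1 : ℕ) : ℝ) / 2 ^ q) =
        Set.Ioc ((A : ℝ) / 2 ^ q) ((B : ℝ) / 2 ^ q) ∪
          Set.Ioc ((B : ℝ) / 2 ^ q) (((B + 1 : ℕ) : ℝ) / 2 ^ q) := (Set.Ioc_union_Ioc_eq_Ioc h1 h2).symm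
    rw [hun]
    refine ⟨ih1.union hi2, ?_⟩
    rw [setIntegral_union (Set.Ioc_disjoint_Ioc_of_le le_rfl) measurableSet_Ioc ih1 hi2, ih2,
      setIntegral_congr_fun measurableSet_Ioc hconst, setIntegral_const, Finset.sum_Ico_succ_top hB,
      mul_add]
    congr 1
    rw [Measure.real, Real.volume_Ioc, ENNReal.toReal_ofReal (by linarith), smul_eq_mul]
    push_cast
    field_simp
    ring

lemma int_J {m j q : ℕ} (h : j ≤ q) (F : ℕ → ℝ) : ∫ β in J m j, F (Nb β q) =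
    (2 ^ q)⁻¹ * ∑ N ∈ Ico (m * 2 ^ (q - j)) ((m + 1) * 2 ^ (q - j)), F N := by
  rw [J_eq h]
  exact (cell_int F q _ _ (Nat.mul_le_mul_right _ (by omega))).2

lemma measurableSet_J (m j : ℕ) : MeasurableSet (J m j) := measurableSet_Ioc

lemma integrable_J {m j : ℕ} {f : ℝ → ℝ} (hf : Measurable f) {M : ℝ} (hM : ∀ x, |f x| ≤ M) :
    IntegrableOn f (J m j) := int_bdd hf hM _ _

lemma vol_J (m j : ℕ) : (volume (J m j)).toReal = (2 ^ j)⁻¹ := by
  unfold J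
  rw [Real.volume_Ioc, ENNReal.toReal_ofReal]
  · push_cast
    field_simp
    ring
  · have : (0 : ℝ) < 2 ^ j := by positivity
    rw [sub_nonneg]
    exact div_le_div_of_nonneg_right (by push_cast; linarith) this.le

end Pool.Agent.V11115.Gap
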