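import Mathlib
import Pool.Agent.V11115.Gap.Base
import Pool.Agent.W66.XA
import Pool.Agent.TH888.R.Mean

set_option autoImplicit false

/-!
# Decorrelation of a prime rough part at level `q` and all functions of the binary digits at levels
much smaller than `q`
-/

namespace Pool.Agent.V11115.Gap

open Finset Filter Topology MeasureTheory
open Pool.Agent.H305R2 (roughPart ff NN LL gg measurable_ff measurable_NN ff_nonneg ff_le_one LL_cont
  LL_nonneg LL_le_one measurable_gg abs_gg_le_one log_nat_tendsto)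
open Pool.Agent.W66 (mono_var NN_mono NN_le far_abs)

/-- the constant of the law -/
noncomputable def cc : ℝ := Real.exp Real.eulerMascheroniConstant / Real.log 2

lemma cc_pos : 0 < cc := div_pos (Real.exp_pos _) (Real.log_pos (by norm_num))

lemma exp_level {β : ℝ} (hβ : 0 < β) (q : ℕ) :
    Real.exp (Real.log β + q * Real.log 2) = β * 2 ^ q := by
  rw [Real.exp_add, Real.exp_log hβ, Real.exp_nat_mul, Real.exp_log (by norm_num)]

lemma NN_level {β : ℝ} (hβ : 0 < β) (q : ℕ) : NN (Real.log β + q * Real.log 2) = Nb β q := by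
  unfold NN Nb
  rw [exp_level hβ]

lemma ff_level {β : ℝ} (hβ : 0 < β) (q : ℕ) : ff q (Real.log β + q * Real.log 2) = G q (Nb β q) := by
  unfold ff G
  rw [NN_level hβ]

/-- restriction of a function of the level `z` to the interval -/
noncomputable def Ft (m j z : ℕ) (F : ℕ → ℝ) (N : ℕ) : ℝ :=
  if m * 2 ^ (z - j) ≤ N ∧ N < (m + 1) * 2 ^ (z - j) then F N else 0

lemma Ft_abs {m j z : ℕ} {F : ℕ → ℝ} (hF : ∀ N, |F N| ≤ 1) (N : ℕ) : |Ft m j z F N| ≤ 1 := by
  unfold Ft
  split_ifs
  · exact hF N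
  · norm_num

lemma Ft_diff {m j z : ℕ} {F : ℕ → ℝ} (hF : ∀ N, |F N| ≤ 1) (a b : ℕ) :
    |Ft m j z F a - Ft m j z F b| ≤ 2 * |(a : ℝ) - b| := by
  by_cases h : a = b
  · rw [h]; simp
  · have h1 : (1 : ℝ) ≤ |(a : ℝ) - b| := by
      have h2 : (1 : ℤ) ≤ |(a : ℤ) - b| := by
        have h3 : (a : ℤ) - b ≠ 0 := by omega
        exact Int.one_le_abs h3
      have h4 : ((1 : ℤ) : ℝ) ≤ ((|(a : ℤ) - b| : ℤ) : ℝ) := by exact_mod_cast h2
      push_cast at h4
      exact h4
    have h2 := Ft_abs (m := m) (j := j) (z := z) hF a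
    have h3 := Ft_abs (m := m) (j := j) (z := z) hF b
    calc |Ft m j z F a - Ft m j z F b| ≤ |Ft m j z F a| + |Ft m j z F b| := abs_sub _ _
      _ ≤ 2 * |(a : ℝ) - b| := by linarith

/-- a bounded Lipschitz weight -/
noncomputable def wgt (x : ℝ) : ℝ := min 1 (Real.exp x)

lemma wgt_nonneg (x : ℝ) : 0 ≤ wgt x := le_min zero_le_one (Real.exp_pos x).le

lemma wgt_le (x : ℝ) : wgt x ≤ 1 := min_le_left _ _

lemma wgt_cont : Continuous wgt := continuous_const.min Real.continuous_exp

lemma wgt_lip_le {x y : ℝ} (h : x ≤ y) : wgt y - wgt x ≤ y - x := by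
  unfold wgt
  rcases le_total 1 (Real.exp x) with h1 | h1
  · have h2 : 1 ≤ Real.exp y := h1.trans (Real.exp_le_exp.2 h)
    rw [min_eq_left h1, min_eq_left h2]
    linarith
  · rw [min_eq_right h1]
    have h3 : x ≤ 0 := by
      rw [← Real.exp_zero, Real.exp_le_exp] at h1
      exact h1
    rcases le_total 1 (Real.exp y) with h2 | h2
    · rw [min_eq_left h2]
      have h4 : 0 ≤ y := by
        rw [← Real.exp_zero, Real.exp_le_exp] at h2
        exact h2
      have := Real.add_one_le_exp x
      linarith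
    · rw [min_eq_right h2]
      have h4 : Real.exp y - Real.exp x = Real.exp y * (1 - Real.exp (x - y)) := by
        rw [mul_sub, mul_one, ← Real.exp_add]; ring_nf
      have h5 := Real.add_one_le_exp (x - y)
      rw [h4]
      have h6 : 1 - Real.exp (x - y) ≤ y - x := by linarith
      have h7 : 0 ≤ 1 - Real.exp (x - y) := by
        have : Real.exp (x - y) ≤ 1 := by rw [← Real.exp_zero]; exact Real.exp_le_exp.2 (by linarith)
        linarith
      calc Real.exp y * (1 - Real.exp (x - y)) ≤ 1 * (1 - Real.exp (x - y)) :=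
            mul_le_mul_of_nonneg_right h2 h7
        _ ≤ y - x := by linarith

lemma wgt_mono {x y : ℝ} (h : x ≤ y) : wgt x ≤ wgt y :=
  min_le_min le_rfl (Real.exp_le_exp.2 h)

lemma wgt_lip (x y : ℝ) : |wgt x - wgt y| ≤ |x - y| := by
  rcases le_total x y with h | h
  · rw [abs_sub_comm, abs_of_nonneg (by linarith [wgt_mono h]), abs_sub_comm,
      abs_of_nonneg (by linarith)]
    exact wgt_lip_le h
  · rw [abs_of_nonneg (by linarith [wgt_mono h]), abs_of_nonneg (by linarith)]
    exact wgt_lip_le h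

/-- the test function in the logarithmic coordinate -/
noncomputable def phi (m j z q : ℕ) (F : ℕ → ℝ) (lB u : ℝ) : ℝ :=
  wgt (u - q * Real.log 2 - lB) * Ft m j z F (NN (u - ((q : ℝ) - z) * Real.log 2))

lemma measurable_phi (m j z q : ℕ) (F : ℕ → ℝ) (lB : ℝ) : Measurable (phi m j z q F lB) := by
  unfold phi
  refine (wgt_cont.measurable.comp (by fun_prop)).mul ?_
  exact (measurable_from_nat (f := Ft m j z F)).comp (measurable_NN.comp (by fun_prop))

lemma abs_phi {m j z q : ℕ} {F : ℕ → ℝ} (hF : ∀ N, |F N| ≤ 1) (lB u : ℝ) :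
    |phi m j z q F lB u| ≤ 1 := by
  unfold phi
  rw [abs_mul, abs_of_nonneg (wgt_nonneg _)]
  have h1 := wgt_le (u - q * Real.log 2 - lB)
  have h2 := wgt_nonneg (u - q * Real.log 2 - lB)
  have h3 := Ft_abs (m := m) (j := j) (z := z) hF (NN (u - ((q : ℝ) - z) * Real.log 2))
  calc _ ≤ 1 * 1 := mul_le_mul h1 h3 (abs_nonneg _) zero_le_one
    _ = 1 := one_mul 1

lemma phi_modulus {m j z q : ℕ} {F : ℕ → ℝ} (hF : ∀ N, |F N| ≤ 1) (lB Y : ℝ)
    {h : ℝ} (hh : 0 ≤ h) (hh1 : h ≤ 1) {v : ℝ} (hv : |v| ≤ h) :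
    ∫ u in Y..(Y + 1), |phi m j z q F lB (u + v) - phi m j z q F lB u| ≤
      h * Real.exp (Y - q * Real.log 2 + z * Real.log 2 + 3) + 4 * h := by
  set s : ℝ := ((q : ℝ) - z) * Real.log 2 with hs
  set Ψ : ℝ → ℝ := fun u => (NN (u - s) : ℝ) with hΨ
  have hΨm : Monotone Ψ := by
    intro a b hab
    simp only [hΨ]
    exact_mod_cast NN_mono (show a - s ≤ b - s by linarith)
  have h1 := mono_var hΨm (fun x => by simp only [hΨ]; positivity) Y v h hh hv
  have hpt : ∀ u, |phi m j z q F lB (u + v) - phi m j z q F lB u| ≤ h + 2 * |Ψ (u + v) - Ψ u| := by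
    intro u
    unfold phi
    set a := wgt (u + v - q * Real.log 2 - lB) with ha
    set b := wgt (u - q * Real.log 2 - lB) with hb
    set c := Ft m j z F (NN (u + v - ((q : ℝ) - z) * Real.log 2)) with hc
    set d := Ft m j z F (NN (u - ((q : ℝ) - z) * Real.log 2)) with hd
    have e : a * c - b * d = (a - b) * c + b * (c - d) := by ring
    rw [e]
    have h2 : |a - b| ≤ h := by
      refine (wgt_lip _ _).trans ?_
      have : u + v - q * Real.log 2 - lB - (u - q * Real.log 2 - lB) = v := by ring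
      rw [this]
      exact hv
    have h3 : |c| ≤ 1 := Ft_abs hF _
    have h4 : |b| ≤ 1 := by rw [abs_of_nonneg (wgt_nonneg _)]; exact wgt_le _
    have h5 : |c - d| ≤ 2 * |Ψ (u + v) - Ψ u| := Ft_diff hF _ _
    calc |(a - b) * c + b * (c - d)| ≤ |(a - b) * c| + |b * (c - d)| := abs_add_le _ _
      _ = |a - b| * |c| + |b| * |c - d| := by rw [abs_mul, abs_mul]
      _ ≤ h * 1 + 1 * (2 * |Ψ (u + v) - Ψ u|) :=
          add_le_add (mul_le_mul h2 h3 (abs_nonneg _) hh)
            (mul_le_mul h4 h5 (abs_nonneg _) zero_le_one)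
      _ = _ := by ring
  have hmφ := measurable_phi m j z q F lB
  have hii : IntervalIntegrable (fun u => Ψ (u + v) - Ψ u) volume Y (Y + 1) := by
    apply IntervalIntegrable.sub
    · exact (show Monotone (fun u => Ψ (u + v)) from
        fun x y hxy => hΨm (by linarith)).intervalIntegrable
    · exact hΨm.intervalIntegrable
  have h2 : ∫ u in Y..(Y + 1), |phi m j z q F lB (u + v) - phi m j z q F lB u| ≤
      ∫ u in Y..(Y + 1), (h + 2 * |Ψ (u + v) - Ψ u|) := by
    apply intervalIntegral.integral_mono_on (by linarith)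
    · refine (Pool.Agent.W66.ii_of_bdd ((hmφ.comp (by fun_prop)).sub hmφ) (M := 2) (fun x => ?_) Y (Y + 1)).abs
      refine (abs_sub _ _).trans ?_
      have h3 := abs_phi (m := m) (j := j) (z := z) (q := q) hF lB (x + v)
      have h4 := abs_phi (m := m) (j := j) (z := z) (q := q) hF lB x
      exact (add_le_add h3 h4).trans (by norm_num)
    · exact intervalIntegrable_const.add (hii.abs.const_mul 2)
    · intro u _
      exact hpt u
  refine h2.trans ?_
  rw [intervalIntegral.integral_add intervalIntegrable_const (hii.abs.const_mul 2),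
    intervalIntegral.integral_const, smul_eq_mul, intervalIntegral.integral_const_mul]
  have h3 : h * Ψ (Y + 1 + h) ≤ h * Real.exp (Y + 2 - s) := by
    refine mul_le_mul_of_nonneg_left ?_ hh
    refine (NN_le _).trans (Real.exp_le_exp.2 (by linarith))
  have h4 : 2 * Real.exp (Y + 2 - s) ≤ Real.exp (Y - q * Real.log 2 + z * Real.log 2 + 3) := by
    have e : Y - q * Real.log 2 + z * Real.log 2 + 3 = 1 + (Y + 2 - s) := by rw [hs]; ring
    rw [e, Real.exp_add]
    refine mul_le_mul_of_nonneg_right ?_ (Real.exp_pos _).le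
    have := Real.exp_one_gt_d9
    linarith
  have h5 : 2 * (h * Real.exp (Y + 2 - s)) ≤ h * Real.exp (Y - q * Real.log 2 + z * Real.log 2 + 3) := by
    calc 2 * (h * Real.exp (Y + 2 - s)) = h * (2 * Real.exp (Y + 2 - s)) := by ring
      _ ≤ _ := mul_le_mul_of_nonneg_left h4 hh
  linarith

/-- the change of variables -/
lemma change {m j z q : ℕ} (hm : 1 ≤ m) (hz : j ≤ z) (F : ℕ → ℝ) :
    ∫ β in J m j, F (Nb β z) * (G q (Nb β q) - LL q (Real.log β + q * Real.log 2)) =
      (((m + 1 : ℕ) : ℝ) / 2 ^ j) * ∫ u in (Real.log ((m : ℝ) / 2 ^ j) + q * Real.log 2)..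
        (Real.log ((m : ℝ) / 2 ^ j) + q * Real.log 2 + 1),
        phi m j z q F (Real.log (((m + 1 : ℕ) : ℝ) / 2 ^ j)) u * gg q u := by
  set B : ℝ := ((m + 1 : ℕ) : ℝ) / 2 ^ j with hB
  set A : ℝ := (m : ℝ) / 2 ^ j with hA
  have hm0 : (0 : ℝ) < m := by exact_mod_cast hm
  have h2j : (0 : ℝ) < 2 ^ j := by positivity
  have hA0 : 0 < A := by positivity
  have hB0 : 0 < B := by positivity
  have hAB : A ≤ B := by
    rw [hA, hB]
    exact div_le_div_of_nonneg_right (by push_cast; linarith) h2j.le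
  have hBA : B ≤ 2 * A := by
    rw [hA, hB, mul_div_assoc']
    refine div_le_div_of_nonneg_right ?_ h2j.le
    push_cast
    have : (1 : ℝ) ≤ m := by exact_mod_cast hm
    linarith
  set L := Real.log 2 with hL
  set S := Set.Ioc (Real.log A + q * L) (Real.log B + q * L) with hS
  have hlog2 : Real.log B ≤ Real.log A + 1 := by
    have h1 : Real.log B ≤ Real.log (2 * A) := Real.log_le_log hB0 hBA
    rw [Real.log_mul (by norm_num) hA0.ne'] at h1
    have := Real.log_two_lt_d9
    linarith
  -- the image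
  have himg : (fun u => Real.exp (u - q * L)) '' S = J m j := by
    ext β
    simp only [Set.mem_image, hS, Set.mem_Ioc, J]
    constructor
    · rintro ⟨u, ⟨h1, h2⟩, rfl⟩
      constructor
      · rw [← hA, ← Real.exp_log hA0]; exact Real.exp_lt_exp.2 (by linarith)
      · rw [← hB, ← Real.exp_log hB0]; exact Real.exp_le_exp.2 (by linarith)
    · rintro ⟨h1, h2⟩
      rw [← hA] at h1
      rw [← hB] at h2
      have hβ : 0 < β := by linarith
      refine ⟨Real.log β + q * L, ⟨?_, ?_⟩, ?_⟩
      · have := Real.log_lt_log hA0 h1; linarith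
      · have := Real.log_le_log hβ h2; linarith
      · rw [add_sub_cancel_right, Real.exp_log hβ]
  have hder : ∀ u ∈ S, HasDerivWithinAt (fun u => Real.exp (u - q * L)) (Real.exp (u - q * L)) S u := by
    intro u _
    have h1 : HasDerivAt (fun u => Real.exp (u - q * L)) (Real.exp (u - q * L) * 1) u :=
      ((hasDerivAt_id u).sub_const _).exp
    rw [mul_one] at h1
    exact h1.hasDerivWithinAt
  have hinj : Set.InjOn (fun u => Real.exp (u - q * L)) S := by
    intro a _ b _ hab
    have := Real.exp_injective hab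
    linarith
  have hcov := MeasureTheory.integral_image_eq_integral_abs_deriv_smul (measurableSet_Ioc) hder hinj
    (fun β => F (Nb β z) * (G q (Nb β q) - LL q (Real.log β + q * L)))
  rw [himg] at hcov
  rw [hcov]
  have hsub : S ⊆ Set.Ioc (Real.log A + q * L) (Real.log A + q * L + 1) := by
    intro u hu
    exact ⟨hu.1, by have := hu.2; linarith⟩
  have hzlev : ∀ u : ℝ, NN (u - ((q : ℝ) - z) * L) = Nb (Real.exp (u - q * L)) z := by
    intro u
    rw [← NN_level (Real.exp_pos _) z, Real.log_exp]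
    congr 1
    rw [← hL]
    ring
  rw [intervalIntegral.integral_of_le (by linarith), ← integral_const_mul]
  have hext : ∫ u in Set.Ioc (Real.log A + q * L) (Real.log A + q * L + 1),
      B * (phi m j z q F (Real.log B) u * gg q u) =
      ∫ u in S, B * (phi m j z q F (Real.log B) u * gg q u) := by
    refine setIntegral_eq_of_subset_of_forall_sdiff_eq_zero measurableSet_Ioc hsub fun u hu => ?_
    have hβ0 := Real.exp_pos (u - q * L)
    have hnot : Real.exp (u - q * L) ∉ J m j := by
      intro hc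
      rw [← himg] at hc
      obtain ⟨u', hu', he⟩ := hc
      have : u' = u := by have := Real.exp_injective he; linarith
      rw [this] at hu'
      exact hu.2 hu'
    have h1 : ¬ (m * 2 ^ (z - j) ≤ Nb (Real.exp (u - q * L)) z ∧
        Nb (Real.exp (u - q * L)) z < (m + 1) * 2 ^ (z - j)) := fun h => hnot ((mem_J_iff hz hβ0).2 h)
    unfold phi
    rw [hzlev u]
    unfold Ft
    rw [if_neg h1]
    ring
  rw [hext]
  refine setIntegral_congr_fun measurableSet_Ioc fun u hu => ?_
  have hβ0 := Real.exp_pos (u - q * L)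
  have hu1 : Real.log (Real.exp (u - q * L)) + q * L = u := by rw [Real.log_exp]; ring
  have hmem : Real.exp (u - q * L) ∈ J m j := by rw [← himg]; exact ⟨u, hu, rfl⟩
  have h1 := (mem_J_iff hz hβ0).1 hmem
  have hff : ff q u = G q (Nb (Real.exp (u - q * L)) q) := by
    have := ff_level hβ0 q
    rw [← hL, hu1] at this
    exact this
  simp only [smul_eq_mul]
  rw [abs_of_pos hβ0, hu1, ← hff]
  unfold phi gg
  rw [hzlev u]
  have h2 : Ft m j z F (Nb (Real.exp (u - q * L)) z) = F (Nb (Real.exp (u - q * L)) z) := by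
    unfold Ft
    rw [if_pos h1]
  have h3 : wgt (u - q * L - Real.log B) = Real.exp (u - q * L) / B := by
    unfold wgt
    rw [Real.exp_sub (u - q * L), Real.exp_log hB0, min_eq_right]
    rw [div_le_one hB0]
    exact hmem.2
  rw [h2, h3]
  field_simp

/-- **Far levels.** -/
theorem far_J : ∃ κ0 : ℝ, 0 < κ0 ∧ ∀ m j : ℕ, 1 ≤ m → ∃ K : ℝ, 0 < K ∧ ∀ᶠ q : ℕ in atTop,
    ∀ z : ℕ, j ≤ z → (z : ℝ) ≤ κ0 * q / Real.log q → ∀ F : ℕ → ℝ, (∀ N, |F N| ≤ 1) →
    |∫ β in J m j, F (Nb β z) * (G q (Nb β q) - cc * (Real.log q / q))| ≤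
      K / q * (∫ β in J m j, |F (Nb β z)|) + K * (Real.log q / q ^ 2) := by
  have hL0 : 0 < Real.log 2 := Real.log_pos (by norm_num)
  have hL1 : Real.log 2 < 1 := by have := Real.log_two_lt_d9; linarith
  obtain ⟨κ, K1, hκ, hK1, P, hP⟩ := far_abs (c1 := Real.log 2 / 2) (by positivity)
  refine ⟨κ / 4, by positivity, fun m j hm => ?_⟩
  set L := Real.log 2 with hL
  set A : ℝ := (m : ℝ) / 2 ^ j with hA
  set B : ℝ := ((m + 1 : ℕ) : ℝ) / 2 ^ j with hB
  have hm0 : (0 : ℝ) < m := by exact_mod_cast hm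
  have hA0 : 0 < A := by positivity
  have hB0 : 0 < B := by positivity
  set D := |Real.log A| + |Real.log B| with hD
  have hD0 : 0 ≤ D := by positivity
  obtain ⟨K2, hK2, hLL⟩ := Pool.Agent.TH888.R.LL_rate (a := L) hL0 D
  refine ⟨B * K1 + K2, by positivity, ?_⟩
  have e1 : ∀ᶠ q : ℕ in atTop, D * 2 / L ≤ q := tendsto_natCast_atTop_atTop.eventually_ge_atTop _
  have e1' : ∀ᶠ q : ℕ in atTop, D / (1 - L) ≤ q := tendsto_natCast_atTop_atTop.eventually_ge_atTop _
  have e2 : ∀ᶠ q : ℕ in atTop, Real.log q / q ≤ κ * L / (4 * (D + 3)) := by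
    have h4 : Tendsto (fun q : ℕ => Real.log q / q) atTop (𝓝 0) := by
      have h5 : Tendsto (fun x : ℝ => Real.log x / x) atTop (𝓝 0) := by
        have := Real.tendsto_pow_log_div_mul_add_atTop 1 0 1 one_ne_zero
        simpa using this
      exact h5.comp tendsto_natCast_atTop_atTop
    exact (h4.eventually_lt_const (by positivity)).mono fun q hq => hq.le
  have e3 : ∀ᶠ q : ℕ in atTop, 2 / (L / 2) < q := tendsto_natCast_atTop_atTop.eventually_gt_atTop _
  filter_upwards [eventually_ge_atTop P, hLL, e1, e1', e2, e3,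
    log_nat_tendsto.eventually_ge_atTop 1, eventually_ge_atTop 1] with q hq1 hq2 hq3 hq3' hq4 hq5 hq6 hq7
    z hz hzq F hF
  have hq0 : (0 : ℝ) < q := by exact_mod_cast hq7
  rw [div_le_iff₀ hL0] at hq3
  rw [div_le_iff₀ (by linarith)] at hq3'
  rw [div_lt_iff₀ (by positivity)] at hq5
  set Y := Real.log A + q * L with hY
  have hAabs := neg_abs_le (Real.log A)
  have hAabs' := le_abs_self (Real.log A)
  have hBn := abs_nonneg (Real.log B)
  have hYlo : L / 2 * q ≤ Y := by linarith
  have hYhi : Y ≤ q := by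
    rw [hY]
    nlinarith
  have hY1 : 1 < Y := by linarith
  have hlY : 0 < Real.log Y := Real.log_pos hY1
  have hlYq : Real.log Y ≤ Real.log q := Real.log_le_log (by linarith) hYhi
  have hM : Y - q * L + z * L + 3 ≤ κ * Y / Real.log Y := by
    have h1 : κ * (L / 2) * (q / Real.log q) ≤ κ * Y / Real.log Y := by
      calc κ * (L / 2) * (q / Real.log q) = κ * (L / 2 * q) / Real.log q := by ring
        _ ≤ κ * Y / Real.log Y := by gcongr
    have h2 : z * L ≤ κ / 4 * L * (q / Real.log q) := by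
      calc z * L ≤ (κ / 4 * q / Real.log q) * L := mul_le_mul_of_nonneg_right hzq hL0.le
        _ = _ := by ring
    have h3 : D + 3 ≤ κ / 4 * L * (q / Real.log q) := by
      rw [div_le_div_iff₀ hq0 (by positivity)] at hq4
      rw [mul_div_assoc', le_div_iff₀ (by linarith)]
      linarith
    have h4 : Y - q * L ≤ D := by rw [hY]; linarith
    linarith
  have hmain := hP q hq1 (phi m j z q F (Real.log B)) Y _ (measurable_phi m j z q F _)
    (abs_phi hF _) hYlo hM (fun h hh hh1 v hv => phi_modulus hF (Real.log B) Y hh hh1 hv)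
  have hch := change (q := q) hm hz F
  rw [← hL, ← hA, ← hB, ← hY] at hch
  have hFm : Measurable (fun β => F (Nb β z)) := measurable_FNb F z
  have hGm : Measurable (fun β => G q (Nb β q)) := measurable_FNb (G q) q
  have hLLm : Measurable (fun β => LL q (Real.log β + q * L)) :=
    (LL_cont q).measurable.comp (Real.measurable_log.add_const _)
  have hG01 : ∀ β, |G q (Nb β q)| ≤ 1 := fun β => by
    rw [abs_of_nonneg (G_nonneg _ _)]; exact G_le_one _ _
  have hL01 : ∀ y, |LL q y| ≤ 1 := fun y => by rw [abs_of_nonneg (LL_nonneg _ _)]; exact LL_le_one _ _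
  have hI1 : IntegrableOn (fun β => F (Nb β z) * (G q (Nb β q) - LL q (Real.log β + q * L))) (J m j) := by
    refine integrable_J (M := 2) (hFm.mul (hGm.sub hLLm)) fun β => ?_
    rw [abs_mul]
    have h1 := hF (Nb β z)
    have h2 : |G q (Nb β q) - LL q (Real.log β + q * L)| ≤ 2 :=
      (abs_sub _ _).trans (by linarith [hG01 β, hL01 (Real.log β + q * L)])
    calc _ ≤ 1 * 2 := mul_le_mul h1 h2 (abs_nonneg _) zero_le_one
      _ = 2 := one_mul 2
  have hI2 : IntegrableOn (fun β => F (Nb β z) * (LL q (Real.log β + q * L) -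
      cc * (Real.log q / q))) (J m j) := by
    refine integrable_J (M := 1 + |cc * (Real.log q / q)|) (hFm.mul (hLLm.sub_const _)) fun β => ?_
    rw [abs_mul]
    have h1 := hF (Nb β z)
    have h2 : |LL q (Real.log β + q * L) - cc * (Real.log q / q)| ≤ 1 + |cc * (Real.log q / q)| :=
      (abs_sub _ _).trans (by linarith [hL01 (Real.log β + q * L)])
    calc _ ≤ 1 * (1 + |cc * (Real.log q / q)|) := mul_le_mul h1 h2 (abs_nonneg _) zero_le_one
      _ = _ := one_mul _
  have hsplit : ∫ β in J m j, F (Nb β z) * (G q (Nb β q) - cc * (Real.log q / q)) =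
      (∫ β in J m j, F (Nb β z) * (G q (Nb β q) - LL q (Real.log β + q * L))) +
      ∫ β in J m j, F (Nb β z) * (LL q (Real.log β + q * L) - cc * (Real.log q / q)) := by
    rw [← integral_add hI1 hI2]
    refine integral_congr_ae (Eventually.of_forall fun β => ?_)
    simp only
    ring
  have hsecond : |∫ β in J m j, F (Nb β z) * (LL q (Real.log β + q * L) - cc * (Real.log q / q))| ≤
      K2 / q * ∫ β in J m j, |F (Nb β z)| := by
    rw [← Real.norm_eq_abs]
    refine (norm_integral_le_integral_norm _).trans ?_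
    rw [← integral_const_mul]
    refine setIntegral_mono_on hI2.norm ?_ (measurableSet_J m j) fun β hβ => ?_
    · refine integrable_J (M := K2 / q) ((hFm.abs).const_mul _) fun β => ?_
      rw [abs_mul, abs_abs, abs_of_pos (by positivity)]
      exact mul_le_of_le_one_right (by positivity) (hF _)
    · rw [Real.norm_eq_abs, abs_mul, mul_comm (K2 / (q : ℝ))]
      refine mul_le_mul_of_nonneg_left ?_ (abs_nonneg _)
      have hβ0 := J_pos hβ
      have h1 : A < β := hβ.1
      have h2 : β ≤ B := hβ.2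
      have h3 : Real.log A ≤ Real.log β := Real.log_le_log hA0 h1.le
      have h4 : Real.log β ≤ Real.log B := Real.log_le_log hβ0 h2
      have h5 : |Real.log β + q * L - L * q| ≤ D := by
        rw [mul_comm L, add_sub_cancel_right, abs_le]
        have := le_abs_self (Real.log B)
        constructor <;> linarith
      exact hq2 _ h5
  rw [hsplit]
  have hfirst : |∫ β in J m j, F (Nb β z) * (G q (Nb β q) - LL q (Real.log β + q * L))| ≤
      B * (K1 * (Real.log q / q ^ 2)) := by
    rw [hch, abs_mul, abs_of_pos hB0]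
    exact mul_le_mul_of_nonneg_left hmain hB0.le
  have hI0 : 0 ≤ ∫ β in J m j, |F (Nb β z)| := integral_nonneg fun β => abs_nonneg _
  have h6 : 0 ≤ Real.log q / (q : ℝ) ^ 2 := by positivity
  have h7 : K2 / q * (∫ β in J m j, |F (Nb β z)|) ≤ (B * K1 + K2) / q * ∫ β in J m j, |F (Nb β z)| := by
    refine mul_le_mul_of_nonneg_right ?_ hI0
    exact div_le_div_of_nonneg_right (by linarith [mul_pos hB0 hK1]) hq0.le
  have h8 : B * (K1 * (Real.log q / q ^ 2)) ≤ (B * K1 + K2) * (Real.log q / q ^ 2) := by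
    have := mul_nonneg hK2.le h6
    nlinarith
  calc _ ≤ _ := abs_add_le _ _
    _ ≤ B * (K1 * (Real.log q / q ^ 2)) + K2 / q * ∫ β in J m j, |F (Nb β z)| := add_le_add hfirst hsecond
    _ ≤ _ := by linarith

end Pool.Agent.V11115.Gap
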