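import Mathlib
import Pool.Agent.V11115.Gap.Base
import Pool.Agent.W66.XE

set_option autoImplicit false

/-!
# Near levels, on every cell of a much smaller level
-/

namespace Pool.Agent.V11115.Gap

open Finset Filter Topology MeasureTheory
open Pool.Agent.H305R2 (roughPart roughPart_prime ZZ ZZ_nonneg ZZ_le_exp log_nat_tendsto)
open Pool.Agent.W66 (MM MM_ne two_dvd_MM lt_of_not_dvd_MM sift_two no_mid_prime large_smooth_count)
open Pool.Agent.W66X (ratio_bound_D)
open Pool.Agent.Helper112.E456.SieveAux (DD)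

/-- summation over blocks of length `H` -/
lemma sum_blocks (f : ℕ → ℝ) (H A B : ℕ) (hAB : A ≤ B) :
    ∑ N ∈ Ico (A * H) (B * H), f N = ∑ k ∈ Ico A B, ∑ r ∈ range H, f (k * H + r) := by
  induction B, hAB using Nat.le_induction with
  | base => simp
  | succ B hB ih =>
    rw [Finset.sum_Ico_succ_top hB, ← ih, ← Finset.sum_Ico_consecutive f
      (Nat.mul_le_mul_right H hB) (Nat.mul_le_mul_right H (Nat.le_succ B))]
    congr 1
    rw [Finset.sum_Ico_eq_sum_range]
    have : (B + 1) * H - B * H = H := by rw [Nat.add_mul, one_mul]; omega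
    rw [show B.succ * H - B * H = H from this]

/-- the condition of the sieve -/
def Good (p h r M : ℕ) : Prop :=
  ((roughPart p M).Prime ∧ ((M / roughPart p M : ℕ) : ℝ) < Real.exp (p * Real.log 2 / 2)) ∧
  ((roughPart (p + h) (M * 2 ^ h + r)).Prime ∧
    (((M * 2 ^ h + r) / roughPart (p + h) (M * 2 ^ h + r) : ℕ) : ℝ) < Real.exp (p * Real.log 2 / 2))

open Classical in
/-- the sieve bound on a short interval -/
lemma near_count : ∃ C : ℝ, 0 < C ∧ ∀ᶠ p : ℕ in atTop, ∀ z h r X : ℕ, 8 * z ≤ p → h ≤ p → 1 ≤ r →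
    r < 2 ^ h → Real.exp (3 / 4 * (p * Real.log 2)) ≤ X →
    (((range (2 ^ (p - z))).filter (fun n => Good p h r (X + n))).card : ℝ) ≤
      C * (Real.log p / p) ^ 2 * 2 ^ (p - z) := by
  obtain ⟨C0, hC0, hsv⟩ := sift_two
  obtain ⟨C1, hC1, hrat⟩ := ratio_bound_D (b := 2) le_rfl 1
  refine ⟨C0 * (2 * C1) ^ 2 * 4, by positivity, ?_⟩
  obtain ⟨P, hP⟩ := eventually_atTop.1 hrat
  filter_upwards [eventually_ge_atTop P, eventually_ge_atTop 3] with p hpP hp3 z h r X hz hh hr1 hr2 hX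
  have hL0 : 0 < Real.log 2 := Real.log_pos (by norm_num)
  have hL1 : 0.69 < Real.log 2 := by have := Real.log_two_gt_d9; linarith
  have hp3' : (3 : ℝ) ≤ p := by exact_mod_cast hp3
  have hp0 : (0 : ℝ) < p := by linarith
  set H := 2 ^ (p - z) with hH
  have hHr : ((H : ℕ) : ℝ) = Real.exp (((p - z : ℕ) : ℝ) * Real.log 2) := by
    rw [Real.exp_nat_mul, Real.exp_log (by norm_num), hH]; push_cast; rfl
  have hlogH : Real.log (H : ℕ) = ((p - z : ℕ) : ℝ) * Real.log 2 := by rw [hHr, Real.log_exp]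
  have hpz : (7 / 8 : ℝ) * p ≤ ((p - z : ℕ) : ℝ) := by
    have h1 : 7 * p ≤ 8 * (p - z) := by omega
    have h2 : (7 : ℝ) * p ≤ 8 * ((p - z : ℕ) : ℝ) := by exact_mod_cast h1
    linarith
  have hpz2 : ((p - z : ℕ) : ℝ) ≤ p := by exact_mod_cast Nat.sub_le p z
  have hlogH2 : (p : ℝ) / 2 ≤ Real.log (H : ℕ) := by
    rw [hlogH]
    nlinarith
  have hH2 : 2 ≤ H := by
    rw [hH]
    calc 2 = 2 ^ 1 := rfl
      _ ≤ 2 ^ (p - z) := Nat.pow_le_pow_right (by norm_num) (by omega)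
  have hX1 : 1 ≤ X := by
    have h1 : (1 : ℝ) ≤ Real.exp (3 / 4 * (p * Real.log 2)) := Real.one_le_exp (by positivity)
    exact_mod_cast h1.trans hX
  -- the sifting limit
  have hz8 : (H : ℝ) ^ ((1 : ℝ) / 8) ≤ Real.exp (p * Real.log 2 / 8) := by
    rw [hHr, ← Real.exp_mul, Real.exp_le_exp]
    have := mul_le_mul_of_nonneg_right hpz2 hL0.le
    linarith
  have hzS : Real.exp (p * Real.log 2 / 8) * Real.exp (p * Real.log 2 / 2) ≤ X := by
    rw [← Real.exp_add]
    refine le_trans (Real.exp_le_exp.2 ?_) hX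
    have := mul_pos hp0 hL0
    linarith
  set T := ((range H).filter (fun n => Good p h r (X + n))).image (fun n => n + 1) with hT
  have hcard : ((range H).filter (fun n => Good p h r (X + n))).card = T.card := by
    rw [hT, Finset.card_image_of_injective _ (add_left_injective 1)]
  have hTm : ∀ n ∈ T, 1 ≤ n ∧ n ≤ H ∧ Good p h r (n + (X - 1)) := by
    intro n hn
    rw [hT, mem_image] at hn
    obtain ⟨n', hn', rfl⟩ := hn
    rw [mem_filter, mem_range] at hn'
    have e : n' + 1 + (X - 1) = X + n' := by omega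
    rw [e]
    exact ⟨by omega, by omega, hn'.2⟩
  set q := p + h with hq
  have hq2 : 2 ≤ q := by omega
  have hM0 : MM q 2 h r ≠ 0 := MM_ne le_rfl (by omega)
  have hDD : DD 1 (X - 1) (2 ^ h) (2 ^ h * (X - 1) + r) ∣ MM q 2 h r := by
    have e : DD 1 (X - 1) (2 ^ h) (2 ^ h * (X - 1) + r) = 2 ^ h * r := by
      unfold DD
      have e2 : ((((1 * (2 ^ h * (X - 1) + r) : ℕ) : ℤ)) - ((2 ^ h * (X - 1) : ℕ) : ℤ)).natAbs = r := by
        have : ((((1 * (2 ^ h * (X - 1) + r) : ℕ) : ℤ)) - ((2 ^ h * (X - 1) : ℕ) : ℤ)) = r := by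
          push_cast; ring
        rw [this]
        exact Int.natAbs_natCast r
      rw [e2, one_mul]
    rw [e]; unfold MM; exact dvd_mul_left _ _
  have hmain := hsv 1 (X - 1) (2 ^ h) (2 ^ h * (X - 1) + r) H (MM q 2 h r) one_pos (by positivity)
    (two_dvd_MM hq2) hM0 hDD hH2 T (fun n hn => mem_Icc.2 ⟨(hTm n hn).1, (hTm n hn).2.1⟩) (by
      intro n hn l hl hlz hlM
      have hql := lt_of_not_dvd_MM hl hlM
      obtain ⟨hn1, _, hQ1, hQ2⟩ := hTm n hn
      have hlz' : (l : ℝ) ≤ Real.exp (p * Real.log 2 / 8) := hlz.trans hz8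
      have e1 : 1 * n + (X - 1) = n + (X - 1) := by ring
      have e2 : 2 ^ h * n + (2 ^ h * (X - 1) + r) = (n + (X - 1)) * 2 ^ h + r := by ring
      rw [e1, e2]
      have hXn : X ≤ n + (X - 1) := by omega
      have hXn' : (X : ℝ) ≤ ((n + (X - 1) : ℕ) : ℝ) := by exact_mod_cast hXn
      have hXn2 : (X : ℝ) ≤ (((n + (X - 1)) * 2 ^ h + r : ℕ) : ℝ) := by
        have : X ≤ (n + (X - 1)) * 2 ^ h + r := by
          have h3 : 1 ≤ 2 ^ h := Nat.one_le_two_pow
          calc X ≤ n + (X - 1) := hXn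
            _ ≤ (n + (X - 1)) * 2 ^ h := Nat.le_mul_of_pos_right _ (by omega)
            _ ≤ _ := Nat.le_add_right _ _
        exact_mod_cast this
      constructor
      · exact no_mid_prime hQ1.1 hQ1.2 (hzS.trans hXn') hl (by omega) hlz'
      · exact no_mid_prime hQ2.1 hQ2.2 (hzS.trans hXn2) hl hql hlz')
  have hr2' : r ≤ 2 ^ (1 * q) := by
    rw [one_mul, hq]
    exact hr2.le.trans (Nat.pow_le_pow_right (by norm_num) (by omega))
  have hr1' := hP q (by omega) h r (by omega) hr2'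
  have hlq : Real.log q ≤ 2 * Real.log p := by
    have hq2p : (q : ℝ) ≤ p * p := by
      have : q ≤ p * p := by nlinarith
      exact_mod_cast this
    calc Real.log q ≤ Real.log (p * p) := Real.log_le_log (by positivity) hq2p
      _ = 2 * Real.log p := by rw [Real.log_mul hp0.ne' hp0.ne']; ring
  have hlp0 : 0 ≤ Real.log p := Real.log_natCast_nonneg p
  have hr2'' : ((MM q 2 h r : ℕ) : ℝ) / (Nat.totient (MM q 2 h r) : ℝ) ≤ 2 * C1 * Real.log p := by
    calc _ ≤ C1 * Real.log q := hr1'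
      _ ≤ C1 * (2 * Real.log p) := by gcongr
      _ = _ := by ring
  have hr00 : 0 ≤ ((MM q 2 h r : ℕ) : ℝ) / (Nat.totient (MM q 2 h r) : ℝ) := by positivity
  have hcast : ((2 : ℝ) ^ (p - z)) = ((H : ℕ) : ℝ) := by rw [hH]; push_cast; rfl
  rw [hcard, hcast]
  have hp2 : (0 : ℝ) < p / 2 := by positivity
  calc (T.card : ℝ) ≤ C0 * (((MM q 2 h r : ℕ) : ℝ) / (Nat.totient (MM q 2 h r) : ℝ)) ^ 2 * H /
        (Real.log (H : ℕ)) ^ 2 := hmain
    _ ≤ C0 * (2 * C1 * Real.log p) ^ 2 * H / (p / 2) ^ 2 := by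
        gcongr
    _ = _ := by field_simp; ring

open Classical in
/-- for a fixed last block of digits -/
lemma near_fixed {C : ℝ} {p z h r m j : ℕ} (hm : 1 ≤ m) (hjz : j ≤ z) (hzp : z ≤ p)
    (hX : Real.exp (3 / 4 * (p * Real.log 2)) ≤ (2 : ℝ) ^ (p - j))
    (hcnt : ∀ X : ℕ, Real.exp (3 / 4 * (p * Real.log 2)) ≤ X →
      (((range (2 ^ (p - z))).filter (fun n => Good p h r (X + n))).card : ℝ) ≤
        C * (Real.log p / p) ^ 2 * 2 ^ (p - z))
    (F : ℕ → ℝ) (hF0 : ∀ N, 0 ≤ F N) (hF1 : ∀ N, F N ≤ 1) :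
    ∑ M ∈ Ico (m * 2 ^ (p - j)) ((m + 1) * 2 ^ (p - j)),
      F (M / 2 ^ (p - z)) * (G p M * G (p + h) (M * 2 ^ h + r)) ≤
    C * (Real.log p / p) ^ 2 * 2 ^ (p - z) * (∑ k ∈ Ico (m * 2 ^ (z - j)) ((m + 1) * 2 ^ (z - j)), F k) +
    (((Ico (m * 2 ^ (p - j)) ((m + 1) * 2 ^ (p - j))).filter (fun M => (roughPart p M).Prime ∧
      Real.exp (p * Real.log 2 / 2) ≤ ((M / roughPart p M : ℕ) : ℝ))).card : ℝ) +
    (((Ico (m * 2 ^ (p - j)) ((m + 1) * 2 ^ (p - j))).filter (fun M =>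
      (roughPart (p + h) (M * 2 ^ h + r)).Prime ∧
      Real.exp (p * Real.log 2 / 2) ≤
        (((M * 2 ^ h + r) / roughPart (p + h) (M * 2 ^ h + r) : ℕ) : ℝ))).card : ℝ) := by
  set I := Ico (m * 2 ^ (p - j)) ((m + 1) * 2 ^ (p - j)) with hI
  set b1 : ℕ → Prop := fun M => (roughPart p M).Prime ∧
      Real.exp (p * Real.log 2 / 2) ≤ ((M / roughPart p M : ℕ) : ℝ) with hb1
  set b2 : ℕ → Prop := fun M => (roughPart (p + h) (M * 2 ^ h + r)).Prime ∧
      Real.exp (p * Real.log 2 / 2) ≤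
        (((M * 2 ^ h + r) / roughPart (p + h) (M * 2 ^ h + r) : ℕ) : ℝ) with hb2
  have hpt : ∀ M, F (M / 2 ^ (p - z)) * (G p M * G (p + h) (M * 2 ^ h + r)) ≤
      F (M / 2 ^ (p - z)) * (if Good p h r M then 1 else 0) + (if b1 M then 1 else 0) +
        (if b2 M then 1 else 0) := by
    intro M
    have hf0 := hF0 (M / 2 ^ (p - z))
    have hf1 := hF1 (M / 2 ^ (p - z))
    unfold G
    by_cases h1 : (roughPart p M).Prime
    · by_cases h2 : (roughPart (p + h) (M * 2 ^ h + r)).Prime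
      · rw [if_pos h1, if_pos h2]
        by_cases h3 : Real.exp (p * Real.log 2 / 2) ≤ ((M / roughPart p M : ℕ) : ℝ)
        · have : b1 M := ⟨h1, h3⟩
          rw [if_pos this]
          have e1 : 0 ≤ F (M / 2 ^ (p - z)) * (if Good p h r M then (1 : ℝ) else 0) :=
            mul_nonneg hf0 (by split_ifs <;> norm_num)
          have e2 : (0 : ℝ) ≤ (if b2 M then 1 else 0) := by split_ifs <;> norm_num
          linarith
        · by_cases h4 : Real.exp (p * Real.log 2 / 2) ≤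
            (((M * 2 ^ h + r) / roughPart (p + h) (M * 2 ^ h + r) : ℕ) : ℝ)
          · have : b2 M := ⟨h2, h4⟩
            rw [if_pos this]
            have e1 : 0 ≤ F (M / 2 ^ (p - z)) * (if Good p h r M then (1 : ℝ) else 0) :=
              mul_nonneg hf0 (by split_ifs <;> norm_num)
            have e2 : (0 : ℝ) ≤ (if b1 M then 1 else 0) := by split_ifs <;> norm_num
            linarith
          · have : Good p h r M := ⟨⟨h1, not_le.1 h3⟩, h2, not_le.1 h4⟩
            rw [if_pos this]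
            have e1 : (0 : ℝ) ≤ (if b1 M then 1 else 0) := by split_ifs <;> norm_num
            have e2 : (0 : ℝ) ≤ (if b2 M then 1 else 0) := by split_ifs <;> norm_num
            linarith
      · rw [if_neg h2, mul_zero, mul_zero]
        have e1 : 0 ≤ F (M / 2 ^ (p - z)) * (if Good p h r M then (1 : ℝ) else 0) :=
          mul_nonneg hf0 (by split_ifs <;> norm_num)
        have e2 : (0 : ℝ) ≤ (if b1 M then 1 else 0) := by split_ifs <;> norm_num
        have e3 : (0 : ℝ) ≤ (if b2 M then 1 else 0) := by split_ifs <;> norm_num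
        linarith
    · rw [if_neg h1, zero_mul, mul_zero]
      have e1 : 0 ≤ F (M / 2 ^ (p - z)) * (if Good p h r M then (1 : ℝ) else 0) :=
        mul_nonneg hf0 (by split_ifs <;> norm_num)
      have e2 : (0 : ℝ) ≤ (if b1 M then 1 else 0) := by split_ifs <;> norm_num
      have e3 : (0 : ℝ) ≤ (if b2 M then 1 else 0) := by split_ifs <;> norm_num
      linarith
  refine (Finset.sum_le_sum fun M _ => hpt M).trans ?_
  rw [Finset.sum_add_distrib, Finset.sum_add_distrib, Finset.sum_boole, Finset.sum_boole]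
  refine add_le_add (add_le_add ?_ le_rfl) le_rfl
  -- the good part
  have e1 : m * 2 ^ (p - j) = (m * 2 ^ (z - j)) * 2 ^ (p - z) := by
    rw [mul_assoc, ← pow_add]; congr 2; omega
  have e2 : (m + 1) * 2 ^ (p - j) = ((m + 1) * 2 ^ (z - j)) * 2 ^ (p - z) := by
    rw [mul_assoc, ← pow_add]; congr 2; omega
  have hgood : ∑ M ∈ I, F (M / 2 ^ (p - z)) * (if Good p h r M then (1 : ℝ) else 0) =
      ∑ k ∈ Ico (m * 2 ^ (z - j)) ((m + 1) * 2 ^ (z - j)),
        F k * (((range (2 ^ (p - z))).filter (fun n => Good p h r (k * 2 ^ (p - z) + n))).card : ℝ) := by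
    rw [hI, e1, e2, sum_blocks _ _ _ _ (Nat.mul_le_mul_right _ (by omega))]
    refine Finset.sum_congr rfl fun k _ => ?_
    rw [← Finset.sum_boole, Finset.mul_sum]
    refine Finset.sum_congr rfl fun n hn => ?_
    rw [mem_range] at hn
    have : (k * 2 ^ (p - z) + n) / 2 ^ (p - z) = k := by
      rw [mul_comm, Nat.mul_add_div (by positivity), Nat.div_eq_of_lt hn, add_zero]
    rw [this]
  rw [hgood, Finset.mul_sum]
  refine Finset.sum_le_sum fun k hk => ?_
  rw [mul_comm (F k)]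
  refine mul_le_mul_of_nonneg_right ?_ (hF0 k)
  refine hcnt (k * 2 ^ (p - z)) (hX.trans ?_)
  rw [mem_Ico] at hk
  have h3 : 2 ^ (p - j) ≤ k * 2 ^ (p - z) := by
    calc 2 ^ (p - j) = 1 * 2 ^ (p - j) := (one_mul _).symm
      _ ≤ m * 2 ^ (p - j) := Nat.mul_le_mul_right _ hm
      _ = (m * 2 ^ (z - j)) * 2 ^ (p - z) := e1
      _ ≤ k * 2 ^ (p - z) := Nat.mul_le_mul_right _ hk.1
  exact_mod_cast h3

/-- **Near levels.** -/
theorem near_J : ∃ C : ℝ, 0 < C ∧ ∀ m j : ℕ, 1 ≤ m → ∀ᶠ p : ℕ in atTop, ∀ z h : ℕ, j ≤ z →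
    8 * z ≤ p → 1 ≤ h → h ≤ p → ∀ F : ℕ → ℝ, (∀ N, 0 ≤ F N) → (∀ N, F N ≤ 1) →
    ∫ β in J m j, F (Nb β z) * (G p (Nb β p) * G (p + h) (Nb β (p + h))) ≤
      C * (Real.log p / p) ^ 2 * (∫ β in J m j, F (Nb β z)) +
      (2 ^ h)⁻¹ * (∫ β in J m j, F (Nb β z) * G p (Nb β p)) +
      2 * (m + 1) * Real.exp (-(3 / 16 * (p * Real.log 2))) := by
  classical
  obtain ⟨C, hC, hcnt⟩ := near_count
  refine ⟨C, hC, fun m j hm => ?_⟩
  have hL0 : 0 < Real.log 2 := Real.log_pos (by norm_num)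
  obtain ⟨P3, hP3⟩ := eventually_atTop.1 (ZZ_le_exp (c := Real.log 2 / 32) (by positivity))
  filter_upwards [hcnt, eventually_ge_atTop P3, eventually_ge_atTop (4 * j)] with p hp hpP3 hpj
    z h hjz hz hh1 hhp F hF0 hF1
  set q := p + h with hq
  have hjp : j ≤ p := by omega
  have hzp : z ≤ p := by omega
  have hjq : j ≤ q := by omega
  have hX : Real.exp (3 / 4 * (p * Real.log 2)) ≤ (2 : ℝ) ^ (p - j) := by
    have e : (2 : ℝ) ^ (p - j) = Real.exp (((p - j : ℕ) : ℝ) * Real.log 2) := by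
      rw [Real.exp_nat_mul, Real.exp_log (by norm_num)]
    rw [e, Real.exp_le_exp, ← mul_assoc]
    refine mul_le_mul_of_nonneg_right ?_ hL0.le
    have h1 : 3 * p ≤ 4 * (p - j) := by omega
    have h2 : (3 : ℝ) * p ≤ 4 * ((p - j : ℕ) : ℝ) := by exact_mod_cast h1
    linarith
  -- as a sum
  have hf : ∀ β : ℝ, β ∈ J m j → F (Nb β z) * (G p (Nb β p) * G q (Nb β q)) =
      (fun N => F (N / 2 ^ (q - z)) * (G p (N / 2 ^ h) * G q N)) (Nb β q) := by
    intro β hβ
    have h1 := Nb_anc' (J_pos hβ) (show z ≤ q by omega)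
    have h2 := Nb_anc (J_pos hβ) p h
    simp only [← hq] at h2
    simp only
    rw [h1, h2]
  rw [setIntegral_congr_fun (measurableSet_J m j) hf,
    int_J hjq (fun N => F (N / 2 ^ (q - z)) * (G p (N / 2 ^ h) * G q N))]
  set Im := Ico (m * 2 ^ (p - j)) ((m + 1) * 2 ^ (p - j)) with hIm
  have e1 : m * 2 ^ (q - j) = (m * 2 ^ (p - j)) * 2 ^ h := by
    rw [mul_assoc, ← pow_add]; congr 2; omega
  have e2 : (m + 1) * 2 ^ (q - j) = ((m + 1) * 2 ^ (p - j)) * 2 ^ h := by
    rw [mul_assoc, ← pow_add]; congr 2; omega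
  rw [e1, e2, sum_blocks _ _ _ _ (Nat.mul_le_mul_right _ (by omega)), Finset.sum_comm]
  have hterm : ∀ r ∈ range (2 ^ h), ∀ M : ℕ, (fun N => F (N / 2 ^ (q - z)) * (G p (N / 2 ^ h) * G q N))
      (M * 2 ^ h + r) = F (M / 2 ^ (p - z)) * (G p M * G (p + h) (M * 2 ^ h + r)) := by
    intro r hr M
    rw [mem_range] at hr
    have h1 : (M * 2 ^ h + r) / 2 ^ h = M := by
      rw [mul_comm, Nat.mul_add_div (by positivity), Nat.div_eq_of_lt hr, add_zero]
    have h2 : (M * 2 ^ h + r) / 2 ^ (q - z) = M / 2 ^ (p - z) := by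
      have : q - z = h + (p - z) := by omega
      rw [this, pow_add, ← Nat.div_div_eq_div_mul, h1]
    simp only
    rw [h1, h2]
  have hsum : ∑ r ∈ range (2 ^ h), ∑ M ∈ Im, (fun N => F (N / 2 ^ (q - z)) * (G p (N / 2 ^ h) * G q N))
      (M * 2 ^ h + r) = ∑ r ∈ range (2 ^ h), ∑ M ∈ Im,
        F (M / 2 ^ (p - z)) * (G p M * G (p + h) (M * 2 ^ h + r)) :=
    Finset.sum_congr rfl fun r hr => Finset.sum_congr rfl fun M _ => hterm r hr M
  rw [hsum]
  -- the last block zero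
  have h2h : 0 < 2 ^ h := by positivity
  have hzero : ∑ M ∈ Im, F (M / 2 ^ (p - z)) * (G p M * G (p + h) (M * 2 ^ h + 0)) ≤
      ∑ M ∈ Im, F (M / 2 ^ (p - z)) * G p M := by
    refine Finset.sum_le_sum fun M _ => ?_
    refine mul_le_mul_of_nonneg_left ?_ (hF0 _)
    exact mul_le_of_le_one_right (G_nonneg _ _) (G_le_one _ _)
  have hzero' : ∑ M ∈ Im, F (M / 2 ^ (p - z)) * G p M =
      2 ^ p * ∫ β in J m j, F (Nb β z) * G p (Nb β p) := by
    have hf2 : ∀ β : ℝ, β ∈ J m j → F (Nb β z) * G p (Nb β p) =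
        (fun N => F (N / 2 ^ (p - z)) * G p N) (Nb β p) := by
      intro β hβ
      simp only
      rw [Nb_anc' (J_pos hβ) hzp]
    rw [setIntegral_congr_fun (measurableSet_J m j) hf2,
      int_J hjp (fun N => F (N / 2 ^ (p - z)) * G p N)]
    rw [← mul_assoc, mul_inv_cancel₀ (by positivity), one_mul]
  -- the other blocks
  set SF := ∑ k ∈ Ico (m * 2 ^ (z - j)) ((m + 1) * 2 ^ (z - j)), F k with hSF
  have hSF' : SF = 2 ^ z * ∫ β in J m j, F (Nb β z) := by
    rw [int_J hjz F, ← mul_assoc, mul_inv_cancel₀ (by positivity), one_mul]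
  set S := Real.exp (p * Real.log 2 / 2) with hS
  set b1 := Im.filter (fun M => (roughPart p M).Prime ∧ S ≤ ((M / roughPart p M : ℕ) : ℝ)) with hb1
  set b2 : ℕ → Finset ℕ := fun r => Im.filter (fun M => (roughPart (p + h) (M * 2 ^ h + r)).Prime ∧
      S ≤ (((M * 2 ^ h + r) / roughPart (p + h) (M * 2 ^ h + r) : ℕ) : ℝ)) with hb2
  have hother : ∀ r ∈ range (2 ^ h), r ≠ 0 → ∑ M ∈ Im,
      F (M / 2 ^ (p - z)) * (G p M * G (p + h) (M * 2 ^ h + r)) ≤
      C * (Real.log p / p) ^ 2 * 2 ^ (p - z) * SF + (b1.card : ℝ) + ((b2 r).card : ℝ) := by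
    intro r hr hr0
    rw [mem_range] at hr
    exact near_fixed hm hjz hzp hX (fun X hX' => hp z h r X hz hhp (by omega) hr hX') F hF0 hF1
  have hsplit : ∑ r ∈ range (2 ^ h), ∑ M ∈ Im,
        F (M / 2 ^ (p - z)) * (G p M * G (p + h) (M * 2 ^ h + r)) ≤
      (∑ M ∈ Im, F (M / 2 ^ (p - z)) * G p M) +
      ∑ r ∈ range (2 ^ h), (C * (Real.log p / p) ^ 2 * 2 ^ (p - z) * SF + (b1.card : ℝ) +
        ((b2 r).card : ℝ)) := by
    have hmem : 0 ∈ range (2 ^ h) := mem_range.2 h2h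
    rw [← Finset.add_sum_erase _ _ hmem]
    refine add_le_add hzero ?_
    refine (Finset.sum_le_sum fun r hr => hother r (Finset.mem_of_mem_erase hr)
      (Finset.ne_of_mem_erase hr)).trans ?_
    have hSF0 : 0 ≤ SF := Finset.sum_nonneg fun k _ => hF0 k
    refine Finset.sum_le_sum_of_subset_of_nonneg (Finset.erase_subset _ _) fun r _ _ => ?_
    positivity
  have hm1 : (0 : ℝ) < m + 1 := by positivity
  -- counts of large smooth parts
  have hSm : S ^ (-(1 / 2) : ℝ) = Real.exp (-(p * Real.log 2 / 4)) := by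
    rw [hS, ← Real.exp_mul]; ring_nf
  have hb1c : (b1.card : ℝ) ≤ (m + 1) * 2 ^ p * Real.exp (-(3 / 16 * (p * Real.log 2))) := by
    have hsub : b1 ⊆ (Icc 1 ((m + 1) * 2 ^ (p - j))).filter (fun M => (roughPart p M).Prime ∧
        S ≤ ((M / roughPart p M : ℕ) : ℝ)) := by
      intro M hM
      rw [hb1, mem_filter, hIm, mem_Ico] at hM
      rw [mem_filter, mem_Icc]
      refine ⟨⟨?_, hM.1.2.le⟩, hM.2⟩
      have : 1 ≤ m * 2 ^ (p - j) := Nat.mul_pos hm (by positivity)
      omega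
    refine (Nat.cast_le (α := ℝ).2 (Finset.card_le_card hsub)).trans
      ((large_smooth_count p _ (Real.exp_pos _)).trans ?_)
    rw [← hS, hSm]
    have h2 : Real.exp (-(p * Real.log 2 / 4)) * ZZ p ≤ Real.exp (-(3 / 16 * (p * Real.log 2))) := by
      calc _ ≤ Real.exp (-(p * Real.log 2 / 4)) * Real.exp (Real.log 2 / 32 * p) :=
            mul_le_mul_of_nonneg_left (hP3 p hpP3) (Real.exp_pos _).le
        _ = Real.exp (-(p * Real.log 2 / 4) + Real.log 2 / 32 * p) := (Real.exp_add _ _).symm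
        _ ≤ _ := by
          rw [Real.exp_le_exp]
          have := mul_nonneg (Nat.cast_nonneg (α := ℝ) p) hL0.le
          linarith
    have h3 : (((m + 1) * 2 ^ (p - j) : ℕ) : ℝ) ≤ (m + 1) * 2 ^ p := by
      push_cast
      exact mul_le_mul_of_nonneg_left (pow_le_pow_right₀ (by norm_num) (Nat.sub_le _ _)) hm1.le
    exact mul_le_mul h3 h2 (mul_nonneg (Real.exp_pos _).le (ZZ_nonneg p)) (by positivity)
  have hb2c : ∑ r ∈ range (2 ^ h), ((b2 r).card : ℝ) ≤
      (m + 1) * 2 ^ q * Real.exp (-(3 / 16 * (p * Real.log 2))) := by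
    set T := (Icc 1 ((m + 1) * 2 ^ (q - j))).filter (fun N => (roughPart q N).Prime ∧
        S ≤ ((N / roughPart q N : ℕ) : ℝ)) with hT
    have h0 : ∑ r ∈ range (2 ^ h), (b2 r).card ≤ T.card := by
      have hinj : ∀ r ∈ range (2 ^ h), Set.InjOn (fun M : ℕ => M * 2 ^ h + r) (b2 r : Set ℕ) := by
        intro r _ x _ y _ hxy
        simp only at hxy
        exact Nat.eq_of_mul_eq_mul_right h2h (by omega)
      have hcard : ∑ r ∈ range (2 ^ h), (b2 r).card =
          ((range (2 ^ h)).biUnion fun r => (b2 r).image (fun M : ℕ => M * 2 ^ h + r)).card := by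
        rw [Finset.card_biUnion]
        · exact Finset.sum_congr rfl fun r hr => (Finset.card_image_of_injOn (hinj r hr)).symm
        · intro r hr r' hr' hne
          rw [Finset.mem_coe, mem_range] at hr hr'
          rw [Function.onFun, Finset.disjoint_left]
          intro N hN hN'
          rw [mem_image] at hN hN'
          obtain ⟨x, _, hx⟩ := hN
          obtain ⟨y, _, hy⟩ := hN'
          have h3 : N % 2 ^ h = r := by
            rw [← hx, mul_comm, Nat.mul_add_mod, Nat.mod_eq_of_lt hr]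
          have h4 : N % 2 ^ h = r' := by
            rw [← hy, mul_comm, Nat.mul_add_mod, Nat.mod_eq_of_lt hr']
          exact hne (h3.symm.trans h4)
      rw [hcard]
      refine Finset.card_le_card ?_
      intro N hN
      rw [mem_biUnion] at hN
      obtain ⟨r, hr, hN⟩ := hN
      rw [mem_image] at hN
      obtain ⟨M, hM, rfl⟩ := hN
      rw [hb2, mem_filter, hIm, mem_Ico] at hM
      rw [mem_range] at hr
      rw [hT, mem_filter, mem_Icc]
      refine ⟨⟨?_, ?_⟩, hM.2⟩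
      · have h5 : 1 ≤ m * 2 ^ (p - j) := Nat.mul_pos hm (by positivity)
        have h6 : 1 ≤ M * 2 ^ h := Nat.mul_pos (by omega) h2h
        omega
      · rw [e2]
        have h5 : M + 1 ≤ (m + 1) * 2 ^ (p - j) := hM.1.2
        calc M * 2 ^ h + r ≤ (M + 1) * 2 ^ h := by rw [Nat.add_mul, one_mul]; omega
          _ ≤ _ := Nat.mul_le_mul_right _ h5
    have h1 : ∑ r ∈ range (2 ^ h), ((b2 r).card : ℝ) ≤ (T.card : ℝ) := by exact_mod_cast h0
    refine h1.trans ((large_smooth_count q _ (Real.exp_pos _)).trans ?_)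
    rw [← hS, hSm]
    have hq2 : (q : ℝ) ≤ 2 * p := by
      have : q ≤ 2 * p := by omega
      exact_mod_cast this
    have h2 : Real.exp (-(p * Real.log 2 / 4)) * ZZ q ≤ Real.exp (-(3 / 16 * (p * Real.log 2))) := by
      calc _ ≤ Real.exp (-(p * Real.log 2 / 4)) * Real.exp (Real.log 2 / 32 * q) :=
            mul_le_mul_of_nonneg_left (hP3 q (by omega)) (Real.exp_pos _).le
        _ = Real.exp (-(p * Real.log 2 / 4) + Real.log 2 / 32 * q) := (Real.exp_add _ _).symm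
        _ ≤ _ := by
          rw [Real.exp_le_exp]
          have := mul_le_mul_of_nonneg_left hq2 hL0.le
          linarith
    have h3 : (((m + 1) * 2 ^ (q - j) : ℕ) : ℝ) ≤ (m + 1) * 2 ^ q := by
      push_cast
      exact mul_le_mul_of_nonneg_left (pow_le_pow_right₀ (by norm_num) (Nat.sub_le _ _)) hm1.le
    exact mul_le_mul h3 h2 (mul_nonneg (Real.exp_pos _).le (ZZ_nonneg q)) (by positivity)
  -- conclusion
  set E := Real.exp (-(3 / 16 * (p * Real.log 2))) with hE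
  have h2q : (2 : ℝ) ^ q = 2 ^ p * 2 ^ h := by rw [hq, pow_add]
  have h2p : (2 : ℝ) ^ p = 2 ^ (p - z) * 2 ^ z := by rw [← pow_add]; congr 1; omega
  have hp0 : (0 : ℝ) < 2 ^ p := by positivity
  have hh0 : (0 : ℝ) < 2 ^ h := by positivity
  have hz0 : (0 : ℝ) < 2 ^ z := by positivity
  have hpz0 : (0 : ℝ) < 2 ^ (p - z) := by positivity
  rw [hzero', Finset.sum_add_distrib, Finset.sum_const, card_range, nsmul_eq_mul, hSF'] at hsplit
  push_cast at hsplit
  set IF := ∫ β in J m j, F (Nb β z) with hIF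
  set IG := ∫ β in J m j, F (Nb β z) * G p (Nb β p) with hIG
  have hstep : ∑ r ∈ range (2 ^ h), ∑ M ∈ Im,
        F (M / 2 ^ (p - z)) * (G p M * G (p + h) (M * 2 ^ h + r)) ≤
      2 ^ q * (C * (Real.log p / p) ^ 2 * IF + (2 ^ h)⁻¹ * IG + 2 * (m + 1) * E) := by
    refine hsplit.trans ?_
    have h5 := mul_le_mul_of_nonneg_left hb1c hh0.le
    have e3 : (2 : ℝ) ^ q * (C * (Real.log p / p) ^ 2 * IF + (2 ^ h)⁻¹ * IG + 2 * (m + 1) * E) =
        2 ^ h * (C * (Real.log p / p) ^ 2 * 2 ^ (p - z) * (2 ^ z * IF)) + 2 ^ p * IG +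
          (2 ^ h * ((m + 1) * 2 ^ p * E) + (m + 1) * 2 ^ q * E) := by
      rw [h2q, h2p]
      field_simp
      ring
    rw [e3]
    linarith
  have hq0 : (0 : ℝ) < 2 ^ q := by positivity
  rw [inv_mul_le_iff₀ hq0]
  exact hstep

end Pool.Agent.V11115.Gap
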