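import Mathlib
import Pool.Agent.V11115.Gap.Near
import Pool.Agent.V11115.Gap.Far
import Pool.Agent.H447R2.ML.P2

set_option autoImplicit false

/-!
# Levels `q ≥ 2 p`, on every cell of the level `p`
-/

namespace Pool.Agent.V11115.Gap

open Finset Filter Topology MeasureTheory
open Pool.Agent.H305R2 (roughPart ff NN measurable_ff ff_nonneg ff_le_one log_nat_tendsto)

/-- logarithmic coordinate -/
lemma cov_log {A B : ℝ} (hA : 0 < A) (hAB : A ≤ B) (c : ℝ) (g : ℝ → ℝ) :
    ∫ β in Set.Ioc A B, g β = ∫ u in Set.Ioc (Real.log A + c) (Real.log B + c),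
      Real.exp (u - c) * g (Real.exp (u - c)) := by
  have hB : 0 < B := by linarith
  set S := Set.Ioc (Real.log A + c) (Real.log B + c) with hS
  have himg : (fun u => Real.exp (u - c)) '' S = Set.Ioc A B := by
    ext β
    simp only [Set.mem_image, hS, Set.mem_Ioc]
    constructor
    · rintro ⟨u, ⟨h1, h2⟩, rfl⟩
      constructor
      · rw [← Real.exp_log hA]; exact Real.exp_lt_exp.2 (by linarith)
      · rw [← Real.exp_log hB]; exact Real.exp_le_exp.2 (by linarith)
    · rintro ⟨h1, h2⟩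
      have hβ : 0 < β := by linarith
      refine ⟨Real.log β + c, ⟨?_, ?_⟩, ?_⟩
      · have := Real.log_lt_log hA h1; linarith
      · have := Real.log_le_log hβ h2; linarith
      · rw [add_sub_cancel_right, Real.exp_log hβ]
  have hder : ∀ u ∈ S, HasDerivWithinAt (fun u => Real.exp (u - c)) (Real.exp (u - c)) S u := by
    intro u _
    have h1 : HasDerivAt (fun u => Real.exp (u - c)) (Real.exp (u - c) * 1) u :=
      ((hasDerivAt_id u).sub_const _).exp
    rw [mul_one] at h1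
    exact h1.hasDerivWithinAt
  have hinj : Set.InjOn (fun u => Real.exp (u - c)) S := by
    intro a _ b _ hab
    have := Real.exp_injective hab
    linarith
  have hcov := MeasureTheory.integral_image_eq_integral_abs_deriv_smul (measurableSet_Ioc) hder hinj g
  rw [himg] at hcov
  rw [hcov]
  refine setIntegral_congr_fun measurableSet_Ioc fun u _ => ?_
  simp only [smul_eq_mul]
  rw [abs_of_pos (Real.exp_pos _)]

/-- one cell -/
lemma cell_mid : ∃ C : ℝ, 0 < C ∧ ∃ Q : ℕ, ∀ q ≥ Q, ∀ p : ℕ, 2 * p ≤ q → ∀ N : ℕ, 1 ≤ N →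
    ∫ β in Set.Ioc ((N : ℝ) / 2 ^ p) (((N + 1 : ℕ) : ℝ) / 2 ^ p), G q (Nb β q) ≤
      C * (Real.log q / q) * (2 ^ p)⁻¹ := by
  obtain ⟨K, hK, hev⟩ := Pool.Agent.H447R2.ML.short_interval
  have hL0 : 0 < Real.log 2 := Real.log_pos (by norm_num)
  set L := Real.log 2 with hL
  have e1 : ∀ᶠ q : ℕ in atTop, 32 * (Real.log q * Real.log (Real.log q)) ≤ L / 4 * q := by
    have h5 : Tendsto (fun x : ℝ => Real.log x ^ 2 / x) atTop (𝓝 0) := by
      have := Real.tendsto_pow_log_div_mul_add_atTop 1 0 2 one_ne_zero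
      simpa using this
    have h6 : Tendsto (fun q : ℕ => Real.log q ^ 2 / q) atTop (𝓝 0) := h5.comp tendsto_natCast_atTop_atTop
    filter_upwards [h6.eventually_lt_const (show (0 : ℝ) < L / 4 / 32 by positivity),
      log_nat_tendsto.eventually_ge_atTop 1, eventually_ge_atTop 1] with q h1 h2 h3
    have hq0 : (0 : ℝ) < q := by exact_mod_cast h3
    rw [div_lt_iff₀ hq0] at h1
    have h4 : Real.log (Real.log q) ≤ Real.log q := by
      have := Real.log_le_sub_one_of_pos (show 0 < Real.log q by linarith)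
      linarith
    have h7 : Real.log q * Real.log (Real.log q) ≤ Real.log q ^ 2 := by
      rw [sq]; exact mul_le_mul_of_nonneg_left h4 (by linarith)
    linarith
  obtain ⟨Q, hQ⟩ := eventually_atTop.1 (hev.and (e1.and (eventually_ge_atTop 4)))
  refine ⟨8 * K / L, by positivity, Q, fun q hq p hpq N hN => ?_⟩
  obtain ⟨h1, h2, h3⟩ := hQ q hq
  have hq4 : (4 : ℝ) ≤ q := by exact_mod_cast h3
  have hq0 : (0 : ℝ) < q := by linarith
  have hN1 : (1 : ℝ) ≤ N := by exact_mod_cast hN
  have hN0 : (0 : ℝ) < N := by linarith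
  have hp0 : (0 : ℝ) < 2 ^ p := by positivity
  set A : ℝ := (N : ℝ) / 2 ^ p with hA
  set B : ℝ := ((N + 1 : ℕ) : ℝ) / 2 ^ p with hB
  have hA0 : 0 < A := by positivity
  have hB0 : 0 < B := by positivity
  have hAB : A ≤ B := div_le_div_of_nonneg_right (by push_cast; linarith) hp0.le
  rw [cov_log hA0 hAB (q * L)]
  set u0 := Real.log A + q * L with hu0
  set hh := Real.log B - Real.log A with hhd
  have hu1 : Real.log B + q * L = u0 + hh := by rw [hu0, hhd]; ring
  have hratio : B / A = 1 + 1 / N := by rw [hA, hB]; push_cast; field_simp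
  have hhe : hh = Real.log (1 + 1 / N) := by rw [hhd, ← Real.log_div hB0.ne' hA0.ne', hratio]
  have hinvN : 0 < 1 / (N : ℝ) := by positivity
  have hinvN1 : 1 / (N : ℝ) ≤ 1 := by rw [div_le_one hN0]; exact hN1
  have hh_le : hh ≤ 1 / N := by
    rw [hhe]
    have := Real.log_le_sub_one_of_pos (show 0 < 1 + 1 / (N : ℝ) by linarith)
    linarith
  have hh_ge : 1 / (2 * (N : ℝ)) ≤ hh := by
    rw [hhe]
    have h4 := Real.one_sub_inv_le_log_of_pos (show 0 < 1 + 1 / (N : ℝ) by linarith)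
    have h5 : 1 - (1 + 1 / (N : ℝ))⁻¹ = 1 / (N + 1) := by field_simp; ring
    rw [h5] at h4
    refine le_trans ?_ h4
    exact one_div_le_one_div_of_le (by linarith) (by linarith)
  have hh0 : 0 < hh := lt_of_lt_of_le (by positivity) hh_ge
  have hh1 : hh ≤ 1 := hh_le.trans hinvN1
  have hpq' : 2 * (p : ℝ) ≤ q := by exact_mod_cast hpq
  have hH : L / 4 * q ≤ u0 + Real.log hh := by
    have h4 : Real.log (1 / (2 * (N : ℝ))) ≤ Real.log hh := Real.log_le_log (by positivity) hh_ge
    rw [one_div, Real.log_inv, Real.log_mul (by norm_num) hN0.ne'] at h4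
    have h5 : Real.log A = Real.log N - p * L := by
      rw [hA, Real.log_div hN0.ne' hp0.ne', Real.log_pow]
    have h6 : u0 = Real.log N + (q - p) * L := by rw [hu0, h5]; ring
    have h7 : (q : ℝ) / 4 ≤ q - p - 1 := by linarith
    have h8 := mul_le_mul_of_nonneg_right h7 hL0.le
    rw [h6]
    nlinarith
  have hHpos : 0 < u0 + Real.log hh := lt_of_lt_of_le (by positivity) hH
  have hmain := h1 u0 hh hh0 hh1 (h2.trans hH)
  rw [hu1]
  have hlq : 0 ≤ Real.log q := Real.log_natCast_nonneg q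
  have hpt : ∀ u ∈ Set.Ioc u0 (u0 + hh), Real.exp (u - q * L) * G q (Nb (Real.exp (u - q * L)) q) ≤
      B * ff q u := by
    intro u hu
    have hβ0 := Real.exp_pos (u - q * L)
    have hu2 : Real.log (Real.exp (u - q * L)) + q * L = u := by rw [Real.log_exp]; ring
    have hff : ff q u = G q (Nb (Real.exp (u - q * L)) q) := by
      have := ff_level hβ0 q
      rw [← hL, hu2] at this
      exact this
    rw [← hff]
    refine mul_le_mul_of_nonneg_right ?_ (ff_nonneg q u)
    rw [← Real.exp_log hB0]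
    exact Real.exp_le_exp.2 (by linarith [hu.2])
  have hGm : Measurable (fun u => Real.exp (u - q * L) * G q (Nb (Real.exp (u - q * L)) q)) := by
    refine (by fun_prop : Measurable fun u : ℝ => Real.exp (u - q * L)).mul ?_
    exact (measurable_FNb (G q) q).comp (by fun_prop)
  have hint1 : IntegrableOn (fun u => Real.exp (u - q * L) * G q (Nb (Real.exp (u - q * L)) q))
      (Set.Ioc u0 (u0 + hh)) := by
    refine Measure.integrableOn_of_bounded (M := B) (by simp) hGm.aestronglyMeasurable ?_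
    refine (ae_restrict_mem measurableSet_Ioc).mono fun u hu => ?_
    have h4 := hpt u hu
    have h5 := ff_le_one q u
    rw [Real.norm_eq_abs, abs_of_nonneg (mul_nonneg (Real.exp_pos _).le (G_nonneg _ _))]
    exact h4.trans (mul_le_of_le_one_right hB0.le h5)
  have hint2 : IntegrableOn (fun u => B * ff q u) (Set.Ioc u0 (u0 + hh)) :=
    (int_bdd (measurable_ff q) (M := 1) (fun x => by
      rw [abs_of_nonneg (ff_nonneg q x)]; exact ff_le_one q x) _ _).const_mul B
  refine (setIntegral_mono_on hint1 hint2 measurableSet_Ioc hpt).trans ?_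
  rw [integral_const_mul]
  have h9 : Real.log q / (u0 + Real.log hh) ≤ 4 / L * (Real.log q / q) := by
    calc Real.log q / (u0 + Real.log hh) ≤ Real.log q / (L / 4 * q) :=
          div_le_div_of_nonneg_left hlq (by positivity) hH
      _ = _ := by field_simp
  have hBN : B * (1 / N) ≤ 2 * (2 ^ p)⁻¹ := by
    have e : B * (1 / N) = (1 + 1 / N) * (2 ^ p)⁻¹ := by rw [hB]; push_cast; field_simp
    rw [e]
    exact mul_le_mul_of_nonneg_right (by linarith) (by positivity)
  have hlqq : 0 ≤ Real.log q / (q : ℝ) := by positivity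
  calc B * ∫ u in Set.Ioc u0 (u0 + hh), ff q u ≤
        B * (K * hh * (Real.log q / (u0 + Real.log hh))) := mul_le_mul_of_nonneg_left hmain hB0.le
    _ ≤ B * (K * (1 / N) * (4 / L * (Real.log q / q))) := by gcongr
    _ = (B * (1 / N)) * (K * (4 / L * (Real.log q / q))) := by ring
    _ ≤ (2 * (2 ^ p)⁻¹) * (K * (4 / L * (Real.log q / q))) :=
        mul_le_mul_of_nonneg_right hBN (by positivity)
    _ = _ := by field_simp; ring

/-- **Levels at a distance.** -/
theorem mid_J : ∃ C : ℝ, 0 < C ∧ ∀ m j : ℕ, 1 ≤ m → ∃ Q : ℕ, ∀ q ≥ Q, ∀ p : ℕ, j ≤ p → 2 * p ≤ q →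
    ∀ F : ℕ → ℝ, (∀ N, 0 ≤ F N) →
    ∫ β in J m j, F (Nb β p) * G q (Nb β q) ≤ C * (Real.log q / q) * ∫ β in J m j, F (Nb β p) := by
  obtain ⟨C, hC, Q, hQ⟩ := cell_mid
  refine ⟨C, hC, fun m j hm => ⟨Q, fun q hq p hjp hpq F hF0 => ?_⟩⟩
  have hpq' : p ≤ q := by omega
  have hf : ∀ β : ℝ, β ∈ J m j → F (Nb β p) * G q (Nb β q) =
      (fun N => F (N / 2 ^ (q - p)) * G q N) (Nb β q) := by
    intro β hβ
    simp only
    rw [Nb_anc' (J_pos hβ) hpq']
  rw [setIntegral_congr_fun (measurableSet_J m j) hf,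
    int_J (show j ≤ q by omega) (fun N => F (N / 2 ^ (q - p)) * G q N), int_J hjp F]
  have e1 : m * 2 ^ (q - j) = (m * 2 ^ (p - j)) * 2 ^ (q - p) := by
    rw [mul_assoc, ← pow_add]; congr 2; omega
  have e2 : (m + 1) * 2 ^ (q - j) = ((m + 1) * 2 ^ (p - j)) * 2 ^ (q - p) := by
    rw [mul_assoc, ← pow_add]; congr 2; omega
  rw [e1, e2, sum_blocks _ _ _ _ (Nat.mul_le_mul_right _ (by omega)), Finset.mul_sum, Finset.mul_sum,
    Finset.mul_sum]
  refine Finset.sum_le_sum fun M hM => ?_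
  rw [mem_Ico] at hM
  have hM1 : 1 ≤ M := le_trans (Nat.mul_pos hm (by positivity)) hM.1
  have h1 := hQ q hq p hpq M hM1
  have e3 : (M : ℝ) / 2 ^ p = ((M * 2 ^ (q - p) : ℕ) : ℝ) / 2 ^ q := by
    have : (2 : ℝ) ^ q = 2 ^ (q - p) * 2 ^ p := by rw [← pow_add]; congr 1; omega
    rw [this]; push_cast; field_simp
  have e4 : ((M + 1 : ℕ) : ℝ) / 2 ^ p = (((M + 1) * 2 ^ (q - p) : ℕ) : ℝ) / 2 ^ q := by
    have : (2 : ℝ) ^ q = 2 ^ (q - p) * 2 ^ p := by rw [← pow_add]; congr 1; omega
    rw [this]; push_cast; field_simp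
  rw [e3, e4, (cell_int (G q) q _ _ (Nat.mul_le_mul_right _ (by omega))).2,
    sum_blocks _ _ _ _ (Nat.le_succ M)] at h1
  have e5 : Ico M (M.succ) = {M} := by ext x; simp only [mem_Ico, mem_singleton]; omega
  rw [e5, Finset.sum_singleton] at h1
  have hsum : ∑ r ∈ range (2 ^ (q - p)), (fun N => F (N / 2 ^ (q - p)) * G q N) (M * 2 ^ (q - p) + r) =
      F M * ∑ r ∈ range (2 ^ (q - p)), G q (M * 2 ^ (q - p) + r) := by
    rw [Finset.mul_sum]
    refine Finset.sum_congr rfl fun r hr => ?_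
    rw [mem_range] at hr
    have : (M * 2 ^ (q - p) + r) / 2 ^ (q - p) = M := by
      rw [mul_comm, Nat.mul_add_div (by positivity), Nat.div_eq_of_lt hr, add_zero]
    simp only
    rw [this]
  rw [hsum]
  calc (2 ^ q)⁻¹ * (F M * ∑ r ∈ range (2 ^ (q - p)), G q (M * 2 ^ (q - p) + r)) =
        F M * ((2 ^ q)⁻¹ * ∑ r ∈ range (2 ^ (q - p)), G q (M * 2 ^ (q - p) + r)) := by ring
    _ ≤ F M * (C * (Real.log q / q) * (2 ^ p)⁻¹) := mul_le_mul_of_nonneg_left h1 (hF0 M)
    _ = _ := by ring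

end Pool.Agent.V11115.Gap
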