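import Mathlib
import Pool.Agent.V11115.Gap.Cheb
import Pool.Agent.V11115.Gap.Mid
import Pool.Agent.W66.SC

set_option autoImplicit false

/-!
# One block: conditionally on all digits of much lower levels, the number of exponents in the block
is at least `1 - ε` times the expected one
-/

namespace Pool.Agent.V11115.Gap

open Finset Filter Topology MeasureTheory
open Pool.Agent.H305R2 (roughPart log_nat_tendsto)
open Pool.Agent.W66S (mid_weights count_primes)

/-- the primes of the block -/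
def PB (a b : ℕ) : Finset ℕ := (Ioc a b).filter Nat.Prime

/-- the part of the block at much lower levels -/
noncomputable def TT (κ : ℝ) (a b q : ℕ) : Finset ℕ :=
  (PB a b).filter (fun p : ℕ => (p : ℝ) ≤ κ * q / Real.log q)

/-- the level -/
noncomputable def lev (κ : ℝ) (q : ℕ) : ℕ := ⌊κ * q / Real.log q⌋₊

lemma sum_half (p : ℕ) (S : Finset ℕ) (hS : ∀ q ∈ S, p < q) :
    ∑ q ∈ S, ((2 : ℝ) ^ (q - p))⁻¹ ≤ 1 := by
  have h1 : ∑ q ∈ S, ((2 : ℝ) ^ (q - p))⁻¹ = ∑ h ∈ S.image (fun q => q - p - 1), (1 / 2 : ℝ) ^ (h + 1) := by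
    rw [Finset.sum_image]
    · refine Finset.sum_congr rfl fun q hq => ?_
      have := hS q hq
      rw [show q - p - 1 + 1 = q - p by omega, one_div, inv_pow]
    · intro x hx y hy hxy
      have h3 := hS x hx
      have h4 := hS y hy
      simp only at hxy
      omega
  rw [h1]
  have h2 : Summable fun h : ℕ => (1 / 2 : ℝ) ^ (h + 1) := by
    simp only [pow_succ]
    exact summable_geometric_two.mul_right _
  refine (h2.sum_le_tsum _ fun i _ => by positivity).trans (le_of_eq ?_)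
  simp only [pow_succ]
  rw [tsum_mul_right, tsum_geometric_two]
  norm_num

lemma sum_log_sq (a b : ℕ) (ha : 1 ≤ a) :
    ∑ q ∈ Ioc a b, Real.log q / (q : ℝ) ^ 2 ≤ 4 / Real.sqrt a := by
  rcases le_total b a with hba | hab
  · rw [Finset.Ioc_eq_empty (by omega), Finset.sum_empty]; positivity
  have key : ∀ b, a ≤ b → ∑ q ∈ Ioc a b, Real.log q / (q : ℝ) ^ 2 ≤ 4 / Real.sqrt a - 4 / Real.sqrt b := by
    intro b hb
    induction b, hb using Nat.le_induction with
    | base => simp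
    | succ b hb ih =>
      rw [Finset.sum_Ioc_succ_top hb]
      have hb1 : (1 : ℝ) ≤ b := by exact_mod_cast ha.trans hb
      have hb0 : (0 : ℝ) < b := by linarith
      set x := Real.sqrt b with hx
      set y := Real.sqrt ((b + 1 : ℕ) : ℝ) with hy
      have hx0 : 0 < x := Real.sqrt_pos.2 hb0
      have hy0 : 0 < y := Real.sqrt_pos.2 (by positivity)
      have hx2 : x ^ 2 = b := Real.sq_sqrt hb0.le
      have hy2 : y ^ 2 = ((b + 1 : ℕ) : ℝ) := Real.sq_sqrt (by positivity)
      have hyx : y ^ 2 = x ^ 2 + 1 := by rw [hy2, hx2]; push_cast; ring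
      have hxy : x ≤ y := Real.sqrt_le_sqrt (by push_cast; linarith)
      have hlog : Real.log ((b + 1 : ℕ) : ℝ) ≤ 2 * y := by
        have h1 : Real.log ((b + 1 : ℕ) : ℝ) = 2 * Real.log y := by
          rw [hy, Real.log_sqrt (by positivity)]; ring
        have h2 := Real.log_le_sub_one_of_pos hy0
        rw [h1]; linarith
      have hden : (((b + 1 : ℕ) : ℝ)) ^ 2 = y ^ 4 := by rw [← hy2]; ring
      have h1 : Real.log ((b + 1 : ℕ) : ℝ) / (((b + 1 : ℕ) : ℝ)) ^ 2 ≤ 2 / y ^ 3 := by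
        rw [hden, div_le_div_iff₀ (by positivity) (by positivity)]
        have : 0 ≤ y ^ 3 := by positivity
        nlinarith [mul_le_mul_of_nonneg_right hlog this]
      have h2 : 2 / y ^ 3 ≤ 4 / x - 4 / y := by
        have e : 4 / x - 4 / y = 4 * (y - x) / (x * y) := by field_simp
        have e2 : y - x = 1 / (y + x) := by
          rw [eq_div_iff (by positivity)]
          nlinarith
        rw [e, e2]
        rw [div_le_div_iff₀ (by positivity) (by positivity)]
        have h3 : 4 * (1 / (y + x)) = 4 / (y + x) := by ring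
        rw [h3, div_mul_eq_mul_div, le_div_iff₀ (by positivity)]
        have h4 : x * (y + x) ≤ 2 * y ^ 2 := by nlinarith
        have h5 : 0 ≤ y := hy0.le
        nlinarith [mul_le_mul_of_nonneg_right h4 h5]
      linarith
  have := key b hab
  have h2 : 0 ≤ 4 / Real.sqrt b := by positivity
  linarith

lemma hh_congr {T : Finset ℕ} {M : ℝ} {f g : ℕ → ℝ} (h : ∀ p ∈ T, f p = g p) :
    hh T M f = hh T M g := by
  unfold hh
  rw [Finset.sum_congr rfl h]

lemma g2_congr {T : ℕ → Finset ℕ} {M : ℝ} {q : ℕ} {f g : ℕ → ℝ} (h : ∀ p ∈ T q, f p = g p)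
    (h2 : ∀ p ∈ T q, ∀ l ∈ T p, f l = g l) : g2 T M q f = g2 T M q g := by
  unfold g2
  rw [hh_congr h]
  congr 1
  exact Finset.sum_congr rfl fun p hp => by rw [hh_congr (h2 p hp), h p hp]

/-- the number of exponents in the block -/
noncomputable def SB (a b : ℕ) (β : ℝ) : ℝ := ∑ p ∈ PB a b, G p (Nb β p)

/-- the weight of the block -/
noncomputable def VB (a b : ℕ) : ℝ := ∑ q ∈ PB a b, Real.log q / q

/-- **One block.** -/
theorem block_J : ∃ κ0 C6 : ℝ, 0 < κ0 ∧ 0 < C6 ∧ ∀ ε δ : ℝ, 0 < ε → ε ≤ 1 → 0 < δ → δ ≤ 1 →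
    ∀ m j : ℕ, 1 ≤ m → ∃ C8 : ℝ, 0 < C8 ∧ ∃ A0 : ℕ,
    ∀ a ≥ A0, ∀ b z : ℕ, j ≤ z → (∀ q : ℕ, a < q → (z : ℝ) ≤ κ0 * q / Real.log q) →
    a < b → C6 / (ε ^ 2 * δ) * (1 + Real.log (Real.log b)) ≤ VB a b →
    ∀ F : ℕ → ℝ, (∀ N, 0 ≤ F N) → (∀ N, F N ≤ 1) →
    ∫ β in J m j, F (Nb β z) * (if SB a b β < (1 - ε) * (cc * VB a b) then (1 : ℝ) else 0) ≤
      δ * (∫ β in J m j, F (Nb β z)) + C8 / Real.sqrt a := by
  classical
  obtain ⟨κ0, hκ0, hfar⟩ := far_J
  obtain ⟨Cn, hCn, hnear⟩ := near_J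
  obtain ⟨Cm, hCm, hmid⟩ := mid_J
  obtain ⟨C3, hC3, hmw⟩ := mid_weights hκ0
  obtain ⟨C4, hC4, hcp⟩ := count_primes
  have hcc := cc_pos
  set C6' := 3 * Cn * C4 / cc + 2 + 2 * Cm * C3 with hC6
  have hC60 : 0 < C6' := by positivity
  refine ⟨κ0, (4 + 4 * C6') / cc, hκ0, by positivity, fun ε δ hε0 hε1 hδ0 hδ1 m j hm => ?_⟩
  obtain ⟨K, hK, hfar⟩ := hfar m j hm
  have hnear := hnear m j hm
  obtain ⟨Q1, hmid⟩ := hmid m j hm
  set ρ := δ * ε ^ 2 / 14 with hρ
  have hρ0 : 0 < ρ := by positivity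
  have hε2 : ε ^ 2 ≤ 1 := by nlinarith
  have hδε : δ * ε ^ 2 ≤ 1 := by nlinarith [sq_nonneg ε]
  have hρ1 : ρ ≤ 1 := by rw [hρ]; linarith
  have hL0 : 0 < Real.log 2 := Real.log_pos (by norm_num)
  -- thresholds
  have hexp : ∀ᶠ p : ℕ in atTop, (p : ℝ) * Real.exp (-(3 / 16 * (p * Real.log 2))) ≤
      Real.log p / (p : ℝ) ^ 2 := by
    have h1 : Tendsto (fun x : ℝ => x ^ 3 * Real.exp (-x)) atTop (𝓝 0) :=
      Real.tendsto_pow_mul_exp_neg_atTop_nhds_zero 3
    set c := 3 / 16 * Real.log 2 with hc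
    have hc0 : 0 < c := by positivity
    have h2 : Tendsto (fun p : ℕ => c * (p : ℝ)) atTop atTop :=
      tendsto_natCast_atTop_atTop.const_mul_atTop hc0
    have h3 := h1.comp h2
    filter_upwards [h3.eventually_lt_const (show (0 : ℝ) < c ^ 3 by positivity),
      log_nat_tendsto.eventually_ge_atTop 1, eventually_ge_atTop 1] with p h4 h5 h6
    have hp0 : (0 : ℝ) < p := by exact_mod_cast h6
    simp only [Function.comp] at h4
    have e : -(c * (p : ℝ)) = -(3 / 16 * (p * Real.log 2)) := by rw [hc]; ring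
    rw [e] at h4
    rw [le_div_iff₀ (by positivity)]
    have h7 : (p : ℝ) ^ 3 * Real.exp (-(3 / 16 * (p * Real.log 2))) ≤ 1 := by
      have h8 : c ^ 3 * ((p : ℝ) ^ 3 * Real.exp (-(3 / 16 * (p * Real.log 2)))) < c ^ 3 * 1 := by
        calc _ = (c * (p : ℝ)) ^ 3 * Real.exp (-(3 / 16 * (p * Real.log 2))) := by ring
          _ < c ^ 3 := h4
          _ = _ := (mul_one _).symm
      exact (lt_of_mul_lt_mul_left h8 (by positivity)).le
    calc (p : ℝ) * Real.exp (-(3 / 16 * (p * Real.log 2))) * (p : ℝ) ^ 2 =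
          (p : ℝ) ^ 3 * Real.exp (-(3 / 16 * (p * Real.log 2))) := by ring
      _ ≤ 1 := h7
      _ ≤ Real.log p := h5
  obtain ⟨A0, hA0⟩ := eventually_atTop.1 (hfar.and (hnear.and (hmw.and (hexp.and
    ((log_nat_tendsto.eventually_ge_atTop (K / (ρ * cc))).and
    ((log_nat_tendsto.eventually_ge_atTop (8 * κ0)).and
    ((log_nat_tendsto.eventually_ge_atTop 1).and (eventually_ge_atTop 3))))))))
  set CE := (1 + Cm * C3) * K + 2 * (m + 1) with hCE
  have hCE0 : 0 < CE := by positivity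
  refine ⟨(11 / (ρ * ε ^ 2) * K + 2 / ε ^ 2 * CE) * 4, by positivity, A0 + Q1 + 3,
    fun a ha b z hjz hz hab hV F hF0 hF1 => ?_⟩
  set P := PB a b with hP
  have hPm : ∀ q ∈ P, a < q ∧ q ≤ b ∧ q.Prime := by
    intro q hq
    rw [hP, PB, mem_filter, mem_Ioc] at hq
    exact ⟨hq.1.1, hq.1.2, hq.2⟩
  -- facts for each member
  have hfact : ∀ q ∈ P, z ≤ lev κ0 q ∧ 8 * lev κ0 q ≤ q ∧ (3 : ℝ) ≤ q ∧ 1 ≤ Real.log q ∧
      ((lev κ0 q : ℕ) : ℝ) ≤ κ0 * q / Real.log q := by
    intro q hq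
    obtain ⟨h1, h2, h3⟩ := hPm q hq
    obtain ⟨_, _, _, _, _, g1, g2, g3⟩ := hA0 q (by omega)
    have hq3 : (3 : ℝ) ≤ q := by exact_mod_cast g3
    have hnn : 0 ≤ κ0 * q / Real.log q := by positivity
    have hfl : ((lev κ0 q : ℕ) : ℝ) ≤ κ0 * q / Real.log q := Nat.floor_le hnn
    refine ⟨Nat.le_floor (hz q h1), ?_, hq3, g2, hfl⟩
    have h4 : κ0 * q / Real.log q ≤ q / 8 := by
      rw [div_le_iff₀ (by linarith)]
      nlinarith
    have h5 : (8 : ℝ) * ((lev κ0 q : ℕ) : ℝ) ≤ q := by linarith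
    exact_mod_cast h5
  have hTlev : ∀ q ∈ P, ∀ p ∈ TT κ0 a b q, p ≤ lev κ0 q := by
    intro q hq p hp
    rw [TT, mem_filter] at hp
    exact Nat.le_floor hp.2
  have hTlt : ∀ q ∈ P, ∀ p ∈ TT κ0 a b q, p < q := by
    intro q hq p hp
    have h1 := hTlev q hq p hp
    obtain ⟨_, h2, h3, _, _⟩ := hfact q hq
    have h4 : 3 ≤ q := by exact_mod_cast h3
    omega
  have hTsub : ∀ q, TT κ0 a b q ⊆ P := fun q => Finset.filter_subset _ _
  set μ := volume.restrict (J m j) with hμ
  haveI : IsFiniteMeasure μ := ⟨by rw [hμ, Measure.restrict_apply_univ]; unfold J; simp⟩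
  set FF : ℝ → ℝ := fun β => F (Nb β z) with hFF
  have hFF0 : ∀ β, 0 ≤ FF β := fun β => hF0 _
  have hFFb : Bd FF := ⟨measurable_FNb F z, 1, fun β => by rw [abs_of_nonneg (hF0 _)]; exact hF1 _⟩
  set f : ℕ → ℝ → ℝ := fun p β => G p (Nb β p) with hf
  have hfm : ∀ p, Measurable (f p) := fun p => measurable_FNb (G p) p
  have hf01 : ∀ p β, f p β = 0 ∨ f p β = 1 := fun p β => G_01 _ _
  have bf : ∀ p, Bd (f p) := fun p => ⟨hfm p, 1, fun x => by
    rcases hf01 p x with h | h <;> rw [h] <;> norm_num⟩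
  set w : ℕ → ℝ := fun q => cc * (Real.log q / q) with hw
  set e : ℕ → ℝ := fun q => K * (Real.log q / (q : ℝ) ^ 2) with he
  have hw0 : ∀ q, 0 ≤ w q := fun q =>
    mul_nonneg hcc.le (div_nonneg (Real.log_natCast_nonneg q) (Nat.cast_nonneg q))
  have he0 : ∀ q, 0 ≤ e q := fun q =>
    mul_nonneg hK.le (div_nonneg (Real.log_natCast_nonneg q) (by positivity))
  -- decorrelation from functions of the level `lev q`
  have hadapt : ∀ q ∈ P, ∀ g : ℝ → ℝ, ∀ Φ : ℕ → ℝ, ∀ B : ℝ, 0 < B → (∀ N, 0 ≤ Φ N) →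
      (∀ N, Φ N ≤ B) → (∀ β ∈ J m j, g β = Φ (Nb β (lev κ0 q))) →
      |EE μ FF (fun β => g β * f q β) - w q * EE μ FF g| ≤ ρ * w q * EE μ FF g + B * e q := by
    intro q hq g Φ B hB hΦ0 hΦB hg
    obtain ⟨g1, g2, g3, g4, g5⟩ := hfact q hq
    obtain ⟨k1, _, _, _, k5, _⟩ := hA0 q (by have := (hPm q hq).1; omega)
    set L := lev κ0 q with hL
    set Ps : ℕ → ℝ := fun N => F (N / 2 ^ (L - z)) * (Φ N / B) with hPs
    have hPs0 : ∀ N, 0 ≤ Ps N := fun N => mul_nonneg (hF0 _) (div_nonneg (hΦ0 _) hB.le)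
    have hPs1 : ∀ N, Ps N ≤ 1 := fun N => mul_le_one₀ (hF1 _) (div_nonneg (hΦ0 _) hB.le)
      ((div_le_one hB).2 (hΦB N))
    have hPsa : ∀ N, |Ps N| ≤ 1 := fun N => by rw [abs_of_nonneg (hPs0 N)]; exact hPs1 N
    have h3 := k1 L (by omega) g5 Ps hPsa
    have hq0 : (0 : ℝ) < q := by linarith
    have hmPs : Measurable fun β => Ps (Nb β L) := measurable_FNb Ps _
    have hmG : Measurable fun β => G q (Nb β q) := measurable_FNb (G q) q
    have i1 : IntegrableOn (fun β => Ps (Nb β L) * G q (Nb β q)) (J m j) :=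
      integrable_J (M := 1) (hmPs.mul hmG) fun β => by
        rw [abs_mul, abs_of_nonneg (G_nonneg _ _)]
        exact mul_le_one₀ (hPsa _) (G_nonneg _ _) (G_le_one _ _)
    have i2 : IntegrableOn (fun β => Ps (Nb β L)) (J m j) :=
      integrable_J (M := 1) hmPs fun β => hPsa _
    have e1 : ∫ β in J m j, Ps (Nb β L) * (G q (Nb β q) - cc * (Real.log q / q)) =
        (∫ β in J m j, Ps (Nb β L) * G q (Nb β q)) -
          cc * (Real.log q / q) * ∫ β in J m j, Ps (Nb β L) := by
      rw [← integral_const_mul, ← integral_sub i1 (i2.const_mul _)]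
      refine integral_congr_ae (Eventually.of_forall fun β => ?_)
      simp only
      ring
    have e2 : ∫ β in J m j, |Ps (Nb β L)| = ∫ β in J m j, Ps (Nb β L) :=
      integral_congr_ae (Eventually.of_forall fun β => abs_of_nonneg (hPs0 _))
    have e3 : EE μ FF g = B * ∫ β in J m j, Ps (Nb β L) := by
      unfold EE
      rw [← integral_const_mul]
      refine setIntegral_congr_fun (measurableSet_J m j) fun β hβ => ?_
      simp only [hFF, hPs]
      rw [hg β hβ, Nb_anc' (J_pos hβ) g1]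
      field_simp
    have e4 : EE μ FF (fun β => g β * f q β) = B * ∫ β in J m j, Ps (Nb β L) * G q (Nb β q) := by
      unfold EE
      rw [← integral_const_mul]
      refine setIntegral_congr_fun (measurableSet_J m j) fun β hβ => ?_
      simp only [hFF, hPs, hf]
      rw [hg β hβ, Nb_anc' (J_pos hβ) g1]
      field_simp
    rw [e1, e2] at h3
    set y := ∫ β in J m j, Ps (Nb β L) with hy
    have hy0 : 0 ≤ y := integral_nonneg fun β => hPs0 _
    have h5 : K / q ≤ ρ * w q := by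
      have h6 : ρ * w q = ρ * cc * Real.log q / q := by rw [hw]; ring
      rw [h6]
      refine div_le_div_of_nonneg_right ?_ hq0.le
      rw [div_le_iff₀ (by positivity)] at k5
      linarith
    have h6 := mul_le_mul_of_nonneg_right h5 hy0
    rw [e3, e4]
    have e5 : B * (∫ β in J m j, Ps (Nb β L) * G q (Nb β q)) - w q * (B * y) =
        B * ((∫ β in J m j, Ps (Nb β L) * G q (Nb β q)) - cc * (Real.log q / q) * y) := by
      rw [hw]; ring
    rw [e5, abs_mul, abs_of_pos hB]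
    calc B * |(∫ β in J m j, Ps (Nb β L) * G q (Nb β q)) - cc * (Real.log q / q) * y| ≤
          B * (ρ * w q * y + K * (Real.log q / (q : ℝ) ^ 2)) :=
          mul_le_mul_of_nonneg_left (h3.trans (add_le_add h6 le_rfl)) hB.le
      _ = ρ * w q * (B * y) + B * e q := by rw [he]; ring
  have h1 : ∀ q ∈ P, EE μ FF (f q) ≤ (1 + ρ) * w q * EE μ FF (fun _ => 1) + e q := by
    intro q hq
    have h := hadapt q hq (fun _ => 1) (fun _ => 1) 1 one_pos (fun _ => zero_le_one)
      (fun _ => le_rfl) (fun _ _ => rfl)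
    simp only [one_mul] at h
    have h2 := (abs_le.1 h).2
    have h3 : (fun β => f q β) = f q := rfl
    rw [h3] at h2
    linarith
  set V := cc * VB a b with hVdef
  have hll1 : 1 ≤ 1 + Real.log (Real.log b) := by
    obtain ⟨_, _, _, _, _, _, l7, l8⟩ := hA0 b (by omega)
    have := Real.log_nonneg l7
    linarith
  set R := C6' * (1 + Real.log (Real.log b)) with hR
  have hR0 : 0 ≤ R := by rw [hR]; positivity
  have hVR : (4 + 4 * R) / (ε ^ 2 * δ) ≤ V := by
    have h3 := mul_le_mul_of_nonneg_left hV hcc.le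
    refine le_trans ?_ h3
    have e9 : cc * ((4 + 4 * C6') / cc / (ε ^ 2 * δ) * (1 + Real.log (Real.log b))) =
      ((4 + 4 * C6') * (1 + Real.log (Real.log b))) / (ε ^ 2 * δ) := by field_simp
    rw [e9]
    refine div_le_div_of_nonneg_right ?_ (by positivity)
    rw [hR]
    nlinarith
  have hV1 : 1 ≤ V := by
    refine le_trans ?_ hVR
    rw [le_div_iff₀ (by positivity)]
    nlinarith
  have hV0 : 0 < V := by linarith
  have hM0 : 0 < V / ρ := by positivity
  have hVs : V = ∑ q ∈ P, w q := by rw [hVdef, VB, Finset.mul_sum]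
  have h3 : ∀ q ∈ P, (1 - ρ) * w q * EE μ FF (fun x => hh (TT κ0 a b q) (V / ρ) (fun p => f p x)) - e q ≤
      EE μ FF (fun x => hh (TT κ0 a b q) (V / ρ) (fun p => f p x) * f q x) := by
    intro q hq
    have h := hadapt q hq (fun x => hh (TT κ0 a b q) (V / ρ) (fun p => f p x))
      (fun N => hh (TT κ0 a b q) (V / ρ) (fun p => G p (N / 2 ^ (lev κ0 q - p)))) 1 one_pos
      (fun _ => hh_nonneg _ _ _) (fun _ => hh_le_one _ _ _) (fun β hβ => hh_congr fun p hp => by
        simp only [hf]; rw [Nb_anc' (J_pos hβ) (hTlev q hq p hp)])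
    have h2 := (abs_le.1 h).1
    linarith
  have h2 : ∀ q ∈ P, EE μ FF (fun x => g2 (TT κ0 a b) (V / ρ) q (fun p => f p x) * f q x) ≤
      (1 + ρ) * w q * EE μ FF (fun x => g2 (TT κ0 a b) (V / ρ) q (fun p => f p x)) + V / ρ * e q := by
    intro q hq
    have h := hadapt q hq (fun x => g2 (TT κ0 a b) (V / ρ) q (fun p => f p x))
      (fun N => g2 (TT κ0 a b) (V / ρ) q (fun p => G p (N / 2 ^ (lev κ0 q - p)))) (V / ρ) hM0
      (fun N => g2_nonneg (fun p => G_01 _ _) _ _ _) (fun N => g2_le (fun p => G_01 _ _) _ hM0.le _)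
      (fun β hβ => g2_congr (fun p hp => by
        simp only [hf]; rw [Nb_anc' (J_pos hβ) (hTlev q hq p hp)]) (fun p hp l hl => by
        simp only [hf]
        rw [Nb_anc' (J_pos hβ) ((hTlt p (hTsub q hp) l hl).le.trans (hTlev q hq p hp))]))
    have h2 := (abs_le.1 h).2
    linarith
  -- near and middle pairs
  have h4 : ∀ p ∈ P, ∑ q ∈ P.filter (fun q => p < q ∧ p ∉ TT κ0 a b q),
      EE μ FF (fun x => f p x * f q x) ≤ R * w p * EE μ FF (fun _ => 1) +
        CE * (1 + Real.log (Real.log b)) * (Real.log p / (p : ℝ) ^ 2) := by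
    intro p hp
    obtain ⟨g1, g2, g3, g4, g5⟩ := hfact p hp
    obtain ⟨_, k2, _, k4, _, _⟩ := hA0 p (by have := (hPm p hp).1; omega)
    have hp0 : (0 : ℝ) < p := by linarith
    have hlp : 0 < Real.log p := by linarith
    set x := ∫ β in J m j, F (Nb β z) * G p (Nb β p) with hx
    set y := ∫ β in J m j, F (Nb β z) with hy
    have hxE : EE μ FF (f p) = x := rfl
    have hyE : EE μ FF (fun _ => 1) = y := by
      unfold EE
      simp only [mul_one]
      rfl
    have hx0 : 0 ≤ x := integral_nonneg fun β => mul_nonneg (hF0 _) (G_nonneg _ _)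
    have hy0 : 0 ≤ y := integral_nonneg fun β => hF0 _
    have hxy : x ≤ (1 + ρ) * w p * y + e p := by
      have := h1 p hp
      rwa [hxE, hyE] at this
    rw [hyE]
    set Q := P.filter (fun q => p < q ∧ p ∉ TT κ0 a b q) with hQ
    have hQm : ∀ q ∈ Q, q ∈ P ∧ p < q ∧ κ0 * q / Real.log q < p := by
      intro q hq
      rw [hQ, mem_filter] at hq
      refine ⟨hq.1, hq.2.1, ?_⟩
      by_contra hc
      push Not at hc
      exact hq.2.2 (by rw [TT, mem_filter]; exact ⟨hp, hc⟩)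
    have hev : ∀ q, EE μ FF (fun x => f p x * f q x) =
        ∫ β in J m j, F (Nb β z) * (G p (Nb β p) * G q (Nb β q)) := fun q => rfl
    simp only [hev]
    -- near
    have hnearq : ∀ q ∈ Q.filter (fun q => q ≤ 2 * p),
        ∫ β in J m j, F (Nb β z) * (G p (Nb β p) * G q (Nb β q)) ≤
        Cn * (Real.log p / p) ^ 2 * y + ((2 : ℝ) ^ (q - p))⁻¹ * x +
          2 * (m + 1) * Real.exp (-(3 / 16 * (p * Real.log 2))) := by
      intro q hq
      rw [mem_filter] at hq
      have hpq := (hQm q hq.1).2.1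
      have := k2 z (q - p) hjz (by omega) (by omega) (by omega) F hF0 hF1
      rwa [Nat.add_sub_cancel' hpq.le] at this
    have hmidq : ∀ q ∈ Q.filter (fun q => ¬ q ≤ 2 * p),
        ∫ β in J m j, F (Nb β z) * (G p (Nb β p) * G q (Nb β q)) ≤
        Cm * (Real.log q / q) * x := by
      intro q hq
      rw [mem_filter] at hq
      have hpq := (hQm q hq.1).2.1
      have hqa := (hPm q (hQm q hq.1).1).1
      have hlevp : z ≤ p := by omega
      have e1 : ∫ β in J m j, F (Nb β z) * (G p (Nb β p) * G q (Nb β q)) =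
          ∫ β in J m j, (fun N => F (N / 2 ^ (p - z)) * G p N) (Nb β p) * G q (Nb β q) := by
        refine setIntegral_congr_fun (measurableSet_J m j) fun β hβ => ?_
        simp only
        rw [Nb_anc' (J_pos hβ) hlevp]
        ring
      have e2 : x = ∫ β in J m j, (fun N => F (N / 2 ^ (p - z)) * G p N) (Nb β p) := by
        rw [hx]
        refine setIntegral_congr_fun (measurableSet_J m j) fun β hβ => ?_
        simp only
        rw [Nb_anc' (J_pos hβ) hlevp]
      rw [e1, e2]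
      exact hmid q (by omega) p (by omega) (by omega)
        (fun N => F (N / 2 ^ (p - z)) * G p N) fun N => mul_nonneg (hF0 _) (G_nonneg _ _)
    rw [← Finset.sum_filter_add_sum_filter_not Q (fun q => q ≤ 2 * p)]
    set Qn := Q.filter (fun q => q ≤ 2 * p) with hQn
    set Qm := Q.filter (fun q => ¬ q ≤ 2 * p) with hQmd
    have hsn : ∑ q ∈ Qn, (∫ β in J m j, F (Nb β z) * (G p (Nb β p) * G q (Nb β q))) ≤
        3 * Cn * C4 * (Real.log p / p) * y + x + 2 * (m + 1) * (Real.log p / (p : ℝ) ^ 2) := by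
      refine (Finset.sum_le_sum hnearq).trans ?_
      rw [Finset.sum_add_distrib, Finset.sum_add_distrib, Finset.sum_const, Finset.sum_const,
        nsmul_eq_mul, nsmul_eq_mul, ← Finset.sum_mul]
      have hc1 : (Qn.card : ℝ) ≤ C4 * ((2 * p + 1 : ℕ) : ℝ) / Real.log ((2 * p + 1 : ℕ) : ℝ) := by
        refine hcp (2 * p + 1) (by omega) Qn fun q hq => ?_
        rw [hQn, mem_filter] at hq
        exact ⟨(hPm q (hQm q hq.1).1).2.2, by omega⟩
      have hc2 : (Qn.card : ℝ) ≤ p := by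
        have h3 : Qn ⊆ Ioc p (2 * p) := by
          intro q hq
          rw [hQn, mem_filter] at hq
          rw [mem_Ioc]
          exact ⟨(hQm q hq.1).2.1, hq.2⟩
        have h4 := Finset.card_le_card h3
        rw [Nat.card_Ioc] at h4
        exact_mod_cast h4.trans (by omega)
      have hc3 : (Qn.card : ℝ) * (Real.log p / p) ≤ 3 * C4 := by
        have h3 : Real.log p ≤ Real.log ((2 * p + 1 : ℕ) : ℝ) :=
          Real.log_le_log hp0 (by push_cast; linarith)
        have h4 : C4 * ((2 * p + 1 : ℕ) : ℝ) / Real.log ((2 * p + 1 : ℕ) : ℝ) ≤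
            C4 * (3 * p) / Real.log p := by
          gcongr
          push_cast
          linarith
        calc (Qn.card : ℝ) * (Real.log p / p) ≤ (C4 * (3 * p) / Real.log p) * (Real.log p / p) :=
              mul_le_mul_of_nonneg_right (hc1.trans h4) (by positivity)
          _ = 3 * C4 := by field_simp
      have hs : ∑ q ∈ Qn, ((2 : ℝ) ^ (q - p))⁻¹ ≤ 1 := sum_half p Qn fun q hq => by
        rw [hQn, mem_filter] at hq
        exact (hQm q hq.1).2.1
      have t1 : (Qn.card : ℝ) * (Cn * (Real.log p / p) ^ 2 * y) ≤ 3 * Cn * C4 * (Real.log p / p) * y := by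
        have h5 : 0 ≤ Cn * (Real.log p / p) * y := by positivity
        calc (Qn.card : ℝ) * (Cn * (Real.log p / p) ^ 2 * y) =
              ((Qn.card : ℝ) * (Real.log p / p)) * (Cn * (Real.log p / p) * y) := by ring
          _ ≤ (3 * C4) * (Cn * (Real.log p / p) * y) := mul_le_mul_of_nonneg_right hc3 h5
          _ = _ := by ring
      have t2 : (∑ q ∈ Qn, ((2 : ℝ) ^ (q - p))⁻¹) * x ≤ x := by
        calc _ ≤ 1 * x := mul_le_mul_of_nonneg_right hs hx0
          _ = x := one_mul x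
      have t3 : (Qn.card : ℝ) * (2 * (m + 1) * Real.exp (-(3 / 16 * (p * Real.log 2)))) ≤
          2 * (m + 1) * (Real.log p / (p : ℝ) ^ 2) := by
        calc _ ≤ (p : ℝ) * (2 * (m + 1) * Real.exp (-(3 / 16 * (p * Real.log 2)))) :=
              mul_le_mul_of_nonneg_right hc2 (by positivity)
          _ = 2 * (m + 1) * ((p : ℝ) * Real.exp (-(3 / 16 * (p * Real.log 2)))) := by ring
          _ ≤ _ := mul_le_mul_of_nonneg_left k4 (by positivity)
      linarith
    have hllb : 0 ≤ 1 + Real.log (Real.log b) ∧ ∀ q, q ≤ b → a < q → Real.log (Real.log q) ≤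
        Real.log (Real.log b) ∧ 0 ≤ Real.log (Real.log q) := by
      have hstep : ∀ q, q ≤ b → a < q → Real.log (Real.log q) ≤
        Real.log (Real.log b) ∧ 0 ≤ Real.log (Real.log q) := by
        intro q hqb hqa
        obtain ⟨_, _, _, _, _, _, l7, l8⟩ := hA0 q (by omega)
        have hq0 : (0 : ℝ) < q := by
          have : (3 : ℝ) ≤ q := by exact_mod_cast l8
          linarith
        refine ⟨Real.log_le_log (by linarith) (Real.log_le_log hq0 (by exact_mod_cast hqb)),
          Real.log_nonneg l7⟩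
      have h3 := hstep p (hPm p hp).2.1 (hPm p hp).1
      exact ⟨by linarith [h3.1, h3.2], hstep⟩
    have hsm : ∑ q ∈ Qm, (∫ β in J m j, F (Nb β z) * (G p (Nb β p) * G q (Nb β q))) ≤
        Cm * C3 * (1 + Real.log (Real.log b)) * x := by
      refine (Finset.sum_le_sum hmidq).trans ?_
      rw [← Finset.sum_mul, ← Finset.mul_sum]
      refine mul_le_mul_of_nonneg_right ?_ hx0
      rw [mul_assoc]
      refine mul_le_mul_of_nonneg_left ?_ hCm.le
      rcases Qm.eq_empty_or_nonempty with h0 | h0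
      · rw [h0, Finset.sum_empty]
        exact mul_nonneg hC3.le hllb.1
      · set M := Qm.max' h0 with hM
        have hMmem : M ∈ Qm := Finset.max'_mem _ _
        have hM1 := hMmem
        rw [hQmd, mem_filter] at hM1
        have hM2 := hQm M hM1.1
        have hM3 := hPm M hM2.1
        obtain ⟨_, _, l3, _⟩ := hA0 M (by omega)
        refine (l3 Qm fun q hq => ?_).trans ?_
        · have hq1 := hq
          rw [hQmd, mem_filter] at hq1
          have hq2 := hQm q hq1.1
          refine ⟨(hPm q hq2.1).2.2, Finset.le_max' _ _ hq, ?_⟩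
          have h3 : (p : ℝ) < q := by exact_mod_cast hq2.2.1
          linarith [hM2.2.2]
        · refine mul_le_mul_of_nonneg_left ?_ hC3.le
          linarith [(hllb.2 M hM3.2.1 hM3.1).1]
    have hwp : cc * (Real.log p / p) = w p := rfl
    have hkey : 3 * Cn * C4 * (Real.log p / p) * y = 3 * Cn * C4 / cc * (w p * y) := by
      rw [← hwp]; field_simp
    have hwy : 0 ≤ w p * y := mul_nonneg (hw0 p) hy0
    have hx2 : x ≤ 2 * (w p * y) + e p := by
      have : (1 + ρ) * w p * y ≤ 2 * (w p * y) := by nlinarith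
      linarith
    have hep : 0 ≤ e p := he0 p
    have hlog0 : 0 ≤ Real.log p / (p : ℝ) ^ 2 := by positivity
    have t5 : Cm * C3 * (1 + Real.log (Real.log b)) * x ≤
        Cm * C3 * (1 + Real.log (Real.log b)) * (2 * (w p * y) + e p) :=
      mul_le_mul_of_nonneg_left hx2 (by positivity)
    have t6 : 3 * Cn * C4 / cc * (w p * y) + 2 * (w p * y) +
        Cm * C3 * (1 + Real.log (Real.log b)) * (2 * (w p * y)) ≤ R * w p * y := by
      have e1 : 3 * Cn * C4 / cc * (w p * y) + 2 * (w p * y) +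
        Cm * C3 * (1 + Real.log (Real.log b)) * (2 * (w p * y)) =
        ((3 * Cn * C4 / cc + 2) * 1 + 2 * Cm * C3 * (1 + Real.log (Real.log b))) * (w p * y) := by
        ring
      have e2 : R * w p * y = ((3 * Cn * C4 / cc + 2) * (1 + Real.log (Real.log b)) +
        2 * Cm * C3 * (1 + Real.log (Real.log b))) * (w p * y) := by rw [hR, hC6]; ring
      rw [e1, e2]
      refine mul_le_mul_of_nonneg_right (add_le_add (mul_le_mul_of_nonneg_left hll1 (by positivity))
        le_rfl) hwy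
    have t7 : e p + Cm * C3 * (1 + Real.log (Real.log b)) * e p +
        2 * (m + 1) * (Real.log p / (p : ℝ) ^ 2) ≤
        CE * (1 + Real.log (Real.log b)) * (Real.log p / (p : ℝ) ^ 2) := by
      have e1 : e p + Cm * C3 * (1 + Real.log (Real.log b)) * e p +
        2 * (m + 1) * (Real.log p / (p : ℝ) ^ 2) =
        ((K + 2 * (m + 1)) * 1 + Cm * C3 * K * (1 + Real.log (Real.log b))) *
          (Real.log p / (p : ℝ) ^ 2) := by rw [he]; ring
      have e2 : CE * (1 + Real.log (Real.log b)) * (Real.log p / (p : ℝ) ^ 2) =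
        ((K + 2 * (m + 1)) * (1 + Real.log (Real.log b)) +
          Cm * C3 * K * (1 + Real.log (Real.log b))) * (Real.log p / (p : ℝ) ^ 2) := by
        rw [hCE]; ring
      rw [e1, e2]
      refine mul_le_mul_of_nonneg_right (add_le_add (mul_le_mul_of_nonneg_left hll1 (by positivity))
        le_rfl) hlog0
    rw [hkey] at hsn
    linarith
  -- the conclusion
  have hmain := cheb P (TT κ0 a b) (fun q _ => hTsub q) hTlt f hfm hf01 FF hFFb hFF0 w e
    (fun p => CE * (1 + Real.log (Real.log b)) * (Real.log p / (p : ℝ) ^ 2)) ρ R V ε hρ0 hρ1 hε0.le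
    hw0 he0 hVs hV1 h1 h2 h3 h4
  have hyE : EE μ FF (fun _ => 1) = ∫ β in J m j, F (Nb β z) := by
    unfold EE
    simp only [mul_one]
    rfl
  have hbE : EE μ FF (fun x => if ∑ q ∈ P, f q x < (1 - ε) * V then (1 : ℝ) else 0) =
      ∫ β in J m j, F (Nb β z) * (if SB a b β < (1 - ε) * (cc * VB a b) then (1 : ℝ) else 0) := rfl
  rw [hbE, hyE] at hmain
  set I := ∫ β in J m j, F (Nb β z) with hI
  have hI0 : 0 ≤ I := integral_nonneg fun β => hF0 _
  set bad := ∫ β in J m j, F (Nb β z) * (if SB a b β < (1 - ε) * (cc * VB a b) then (1 : ℝ) else 0)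
    with hbad
  have hsum : ∑ q ∈ P, Real.log q / (q : ℝ) ^ 2 ≤ 4 / Real.sqrt a := by
    refine (Finset.sum_le_sum_of_subset_of_nonneg (t := Ioc a b) (Finset.filter_subset _ _)
      fun q _ _ => div_nonneg (Real.log_natCast_nonneg q) (by positivity)).trans
      (sum_log_sq a b (by omega))
  set S4 := 4 / Real.sqrt a with hS4
  have hS40 : 0 ≤ S4 := by positivity
  have hs1 : ∑ q ∈ P, e q ≤ K * S4 := by
    rw [he]
    simp only
    rw [← Finset.mul_sum]
    exact mul_le_mul_of_nonneg_left hsum hK.le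
  have hllV : 1 + Real.log (Real.log b) ≤ V := by
    refine le_trans ?_ hVR
    rw [le_div_iff₀ (by positivity)]
    have h5 : C6' * (1 + Real.log (Real.log b)) = R := rfl
    have h6 : 2 * (1 + Real.log (Real.log b)) ≤ R := by
      rw [hR]
      refine mul_le_mul_of_nonneg_right ?_ (by linarith)
      rw [hC6]
      have : 0 ≤ 3 * Cn * C4 / cc + 2 * Cm * C3 := by positivity
      linarith
    nlinarith
  have hs2 : ∑ p ∈ P, CE * (1 + Real.log (Real.log b)) * (Real.log p / (p : ℝ) ^ 2) ≤ CE * V ^ 2 * S4 := by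
    rw [← Finset.mul_sum]
    have h5 : CE * (1 + Real.log (Real.log b)) ≤ CE * V ^ 2 :=
      mul_le_mul_of_nonneg_left (hllV.trans (by nlinarith)) hCE0.le
    exact mul_le_mul h5 hsum (Finset.sum_nonneg fun q _ =>
      div_nonneg (Real.log_natCast_nonneg q) (by positivity)) (by positivity)
  have k1 : 7 * ρ = δ * ε ^ 2 / 2 := by rw [hρ]; ring
  have k2 : (2 + 2 * R) * V ≤ δ * ε ^ 2 / 2 * V ^ 2 := by
    rw [div_le_iff₀ (by positivity)] at hVR
    nlinarith
  have k3 : (7 * ρ * V ^ 2 + (2 + 2 * R) * V) * I ≤ δ * ε ^ 2 * V ^ 2 * I := by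
    refine mul_le_mul_of_nonneg_right ?_ hI0
    rw [k1]
    linarith
  have k4 : 11 / ρ * V ^ 2 * (∑ q ∈ P, e q) ≤ 11 / ρ * V ^ 2 * (K * S4) :=
    mul_le_mul_of_nonneg_left hs1 (by positivity)
  have k5 : ε ^ 2 * V ^ 2 * bad ≤ ε ^ 2 * V ^ 2 *
      (δ * I + (11 / (ρ * ε ^ 2) * K + 2 / ε ^ 2 * CE) * S4) := by
    have e1 : ε ^ 2 * V ^ 2 * (δ * I + (11 / (ρ * ε ^ 2) * K + 2 / ε ^ 2 * CE) * S4) =
      δ * ε ^ 2 * V ^ 2 * I + 11 / ρ * V ^ 2 * (K * S4) + 2 * (CE * V ^ 2 * S4) := by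
      field_simp
      ring
    rw [e1]
    linarith
  have k6 := le_of_mul_le_mul_left k5 (by positivity)
  have e7 : (11 / (ρ * ε ^ 2) * K + 2 / ε ^ 2 * CE) * S4 =
      (11 / (ρ * ε ^ 2) * K + 2 / ε ^ 2 * CE) * 4 / Real.sqrt a := by rw [hS4]; ring
  rw [e7] at k6
  exact k6

end Pool.Agent.V11115.Gap
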