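import Mathlib
import Pool.Agent.V11115.Gap.Base

set_option autoImplicit false

/-!
# Chaining the blocks
-/

namespace Pool.Agent.V11115.Gap

open Finset Filter Topology MeasureTheory

/-- the weight of a history, as a function of the level `z k` -/
noncomputable def Wt (δ : ℝ) (z : ℕ → ℕ) (B : ℕ → ℕ → ℝ) : ℕ → ℕ → ℝ
  | 0, _ => 1
  | k + 1, N => Wt δ z B k (N / 2 ^ (z (k + 1) - z k)) * (δ + (1 - δ) * B k N)

lemma Wt_bounds {δ : ℝ} (hδ0 : 0 < δ) (hδ1 : δ ≤ 1) {z : ℕ → ℕ} {B : ℕ → ℕ → ℝ}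
    (hB : ∀ k N, B k N = 0 ∨ B k N = 1) :
    ∀ k N, 0 ≤ Wt δ z B k N ∧ Wt δ z B k N ≤ 1 := by
  intro k
  induction k with
  | zero => intro N; simp [Wt]
  | succ k ih =>
    intro N
    have h := ih (N / 2 ^ (z (k + 1) - z k))
    have h2 : 0 ≤ δ + (1 - δ) * B k N ∧ δ + (1 - δ) * B k N ≤ 1 := by
      rcases hB k N with h | h <;> rw [h]
      · constructor <;> linarith
      · constructor <;> linarith
    rw [Wt]
    exact ⟨mul_nonneg h.1 h2.1, mul_le_one₀ h.2 h2.1 h2.2⟩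

lemma Wt_eq (δ : ℝ) {z : ℕ → ℕ} (hz : ∀ k, z k ≤ z (k + 1)) (B : ℕ → ℕ → ℝ) {β : ℝ} (hβ : 0 < β) :
    ∀ k, Wt δ z B k (Nb β (z k)) = ∏ l ∈ range k, (δ + (1 - δ) * B l (Nb β (z (l + 1)))) := by
  intro k
  induction k with
  | zero => simp [Wt]
  | succ k ih =>
    rw [Wt, Nb_anc' hβ (hz k), ih, Finset.prod_range_succ]

lemma chain_int {δ : ℝ} (hδ0 : 0 < δ) (hδ1 : δ ≤ 1 / 4) {z : ℕ → ℕ} {B : ℕ → ℕ → ℝ}
    (hz : ∀ k, z k ≤ z (k + 1))
    (hB : ∀ k N, B k N = 0 ∨ B k N = 1) {m j : ℕ} {η : ℝ} (hη : 0 ≤ η) (n : ℕ)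
    (h : ∀ k < n, ∀ F : ℕ → ℝ, (∀ N, 0 ≤ F N) → (∀ N, F N ≤ 1) →
      ∫ β in J m j, F (Nb β (z k)) * B k (Nb β (z (k + 1))) ≤
        δ * (∫ β in J m j, F (Nb β (z k))) + η) :
    ∫ β in J m j, Wt δ z B n (Nb β (z n)) ≤ (2 * δ) ^ n * (2 ^ j)⁻¹ + 2 * η := by
  have hW := Wt_bounds (z := z) hδ0 (by linarith) hB
  have key : ∀ k ≤ n, ∫ β in J m j, Wt δ z B k (Nb β (z k)) ≤ (2 * δ) ^ k * (2 ^ j)⁻¹ + 2 * η := by
    intro k hk
    induction k with
    | zero =>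
      simp only [Wt]
      rw [setIntegral_const, smul_eq_mul, mul_one, pow_zero, one_mul, Measure.real, vol_J]
      linarith
    | succ k ih =>
      have ih := ih (by omega)
      have hk := h k (by omega) (Wt δ z B k) (fun N => (hW k N).1) (fun N => (hW k N).2)
      have hB1 : ∀ N, |B k N| ≤ 1 := fun N => by rcases hB k N with h | h <;> rw [h] <;> norm_num
      have hWa : ∀ N, |Wt δ z B k N| ≤ 1 := fun N => by rw [abs_of_nonneg (hW k N).1]; exact (hW k N).2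
      have i1 : IntegrableOn (fun β => Wt δ z B k (Nb β (z k))) (J m j) :=
        integrable_J (M := 1) (measurable_FNb _ _) fun β => hWa _
      have i2 : IntegrableOn (fun β => Wt δ z B k (Nb β (z k)) * B k (Nb β (z (k + 1)))) (J m j) :=
        integrable_J (M := 1) ((measurable_FNb _ _).mul (measurable_FNb _ _)) fun β => by
          rw [abs_mul]; exact mul_le_one₀ (hWa _) (abs_nonneg _) (hB1 _)
      have e : ∫ β in J m j, Wt δ z B (k + 1) (Nb β (z (k + 1))) =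
          δ * (∫ β in J m j, Wt δ z B k (Nb β (z k))) +
            (1 - δ) * ∫ β in J m j, Wt δ z B k (Nb β (z k)) * B k (Nb β (z (k + 1))) := by
        rw [← integral_const_mul, ← integral_const_mul, ← integral_add (i1.const_mul _) (i2.const_mul _)]
        refine setIntegral_congr_fun (measurableSet_J m j) fun β hβ => ?_
        rw [Wt, Nb_anc' (J_pos hβ) (hz k)]
        ring
      rw [e]
      have h0 : 0 ≤ ∫ β in J m j, Wt δ z B k (Nb β (z k)) := integral_nonneg fun β => (hW k _).1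
      rw [pow_succ]
      set y := ∫ β in J m j, Wt δ z B k (Nb β (z k)) with hy
      set x := ∫ β in J m j, Wt δ z B k (Nb β (z k)) * B k (Nb β (z (k + 1))) with hx
      have h2 : (1 - δ) * x ≤ (1 - δ) * (δ * y + η) := mul_le_mul_of_nonneg_left hk (by linarith)
      have h3 : (1 - δ) * (δ * y + η) ≤ δ * y + η := by
        have h4 : 0 ≤ δ * y + η := by positivity
        nlinarith
      have h5 : 2 * δ * y ≤ 2 * δ * ((2 * δ) ^ k * (2 ^ j)⁻¹ + 2 * η) :=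
        mul_le_mul_of_nonneg_left ih (by linarith)
      have h6 : 2 * δ * (2 * η) ≤ η := by nlinarith
      have h7 : 2 * δ * ((2 * δ) ^ k * (2 ^ j)⁻¹ + 2 * η) =
        (2 * δ) ^ k * (2 * δ) * (2 ^ j)⁻¹ + 2 * δ * (2 * η) := by ring
      linarith
  exact key n le_rfl

lemma prod_card {δ : ℝ} (hδ0 : 0 < δ) (hδ1 : δ ≤ 1) {n : ℕ} (b : ℕ → ℝ)
    (hb : ∀ k, b k = 0 ∨ b k = 1) (s : ℕ)
    (h : ((range n).filter (fun k => b k = 0)).card ≤ s) :
    δ ^ s ≤ ∏ l ∈ range n, (δ + (1 - δ) * b l) := by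
  have e : ∀ l, δ + (1 - δ) * b l = if b l = 0 then δ else 1 := by
    intro l
    rcases hb l with h | h <;> rw [h] <;> norm_num
  simp only [e]
  rw [Finset.prod_ite, Finset.prod_const, Finset.prod_const_one, mul_one]
  exact pow_le_pow_of_le_one hδ0.le hδ1 h

/-- few good blocks only for a small set of amplitudes -/
theorem chain_meas {δ : ℝ} (hδ0 : 0 < δ) (hδ1 : δ ≤ 1 / 4) {z : ℕ → ℕ} {B : ℕ → ℕ → ℝ}
    (hz : ∀ k, z k ≤ z (k + 1))
    (hB : ∀ k N, B k N = 0 ∨ B k N = 1) {m j : ℕ} {η : ℝ} (hη : 0 ≤ η) (n s : ℕ)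
    (h : ∀ k < n, ∀ F : ℕ → ℝ, (∀ N, 0 ≤ F N) → (∀ N, F N ≤ 1) →
      ∫ β in J m j, F (Nb β (z k)) * B k (Nb β (z (k + 1))) ≤
        δ * (∫ β in J m j, F (Nb β (z k))) + η) :
    (volume.restrict (J m j)) {β : ℝ |
        ((range n).filter (fun k => B k (Nb β (z (k + 1))) = 0)).card ≤ s} ≤
      ENNReal.ofReal ((δ ^ s)⁻¹ * ((2 * δ) ^ n * (2 ^ j)⁻¹ + 2 * η)) := by
  have hW := Wt_bounds (z := z) hδ0 (by linarith) hB
  have h1 := chain_int hδ0 hδ1 hz hB hη n h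
  have hWa : ∀ N, |Wt δ z B n N| ≤ 1 := fun N => by rw [abs_of_nonneg (hW n N).1]; exact (hW n N).2
  have i1 : Integrable (fun β => Wt δ z B n (Nb β (z n))) (volume.restrict (J m j)) :=
    integrable_J (M := 1) (measurable_FNb _ _) fun β => hWa _
  have : IsFiniteMeasure (volume.restrict (J m j)) :=
    ⟨by rw [Measure.restrict_apply_univ]; unfold J; simp⟩
  have h2 := mul_meas_ge_le_integral_of_nonneg (μ := volume.restrict (J m j))
    (f := fun β => Wt δ z B n (Nb β (z n))) (Eventually.of_forall fun β => (hW n _).1) i1 (δ ^ s)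
  have h3 : ({β : ℝ | ((range n).filter (fun k => B k (Nb β (z (k + 1))) = 0)).card ≤ s} ∩ J m j) ⊆
      {β : ℝ | δ ^ s ≤ Wt δ z B n (Nb β (z n))} := by
    rintro β ⟨h4, h5⟩
    rw [Set.mem_ofPred_eq, Wt_eq δ hz B (J_pos h5)]
    exact prod_card hδ0 (by linarith) _ (fun k => hB k _) s h4
  have h4 : (volume.restrict (J m j)) {β : ℝ |
        ((range n).filter (fun k => B k (Nb β (z (k + 1))) = 0)).card ≤ s} ≤
      (volume.restrict (J m j)) {β : ℝ | δ ^ s ≤ Wt δ z B n (Nb β (z n))} := by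
    rw [Measure.restrict_apply' (measurableSet_J m j), Measure.restrict_apply' (measurableSet_J m j)]
    exact measure_mono fun β hβ => ⟨h3 hβ, hβ.2⟩
  refine h4.trans ?_
  rw [← ENNReal.ofReal_toReal (measure_ne_top (volume.restrict (J m j)) _)]
  refine ENNReal.ofReal_le_ofReal ?_
  change (volume.restrict (J m j)).real _ ≤ _
  have h6 : (0 : ℝ) < δ ^ s := by positivity
  have h7 : δ ^ s * (volume.restrict (J m j)).real
      {β : ℝ | δ ^ s ≤ Wt δ z B n (Nb β (z n))} ≤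
      δ ^ s * ((δ ^ s)⁻¹ * ((2 * δ) ^ n * (2 ^ j)⁻¹ + 2 * η)) := by
    rw [← mul_assoc, mul_inv_cancel₀ h6.ne', one_mul]
    exact h2.trans h1
  exact le_of_mul_le_mul_left h7 h6

end Pool.Agent.V11115.Gap
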