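import Mathlib
import Pool.Agent.V11115.Gap.Block2
import Pool.Agent.V11115.Gap.Chain
import Pool.Agent.Helper601.Mertens

set_option autoImplicit false

/-!
# The number of exponents in short windows
-/

namespace Pool.Agent.V11115.Gap

open Finset Filter Topology MeasureTheory

lemma SB_add {a b c : ℕ} (h1 : a ≤ b) (h2 : b ≤ c) (β : ℝ) : SB a c β = SB a b β + SB b c β := by
  unfold SB PB
  simp only [Finset.sum_filter]
  exact (Finset.sum_Ioc_consecutive _ h1 h2).symm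

lemma SB_nonneg (a b : ℕ) (β : ℝ) : 0 ≤ SB a b β := Finset.sum_nonneg fun p _ => G_nonneg _ _

lemma VB_add {a b c : ℕ} (h1 : a ≤ b) (h2 : b ≤ c) : VB a c = VB a b + VB b c := by
  unfold VB PB
  simp only [Finset.sum_filter]
  exact (Finset.sum_Ioc_consecutive _ h1 h2).symm

lemma VB_mertens : ∃ CM : ℝ, 0 ≤ CM ∧ ∀ a b : ℕ, 1 ≤ a → a ≤ b →
    Real.log b - Real.log a - CM ≤ VB a b := by
  obtain ⟨C, hC⟩ := Pool.Agent.Helper601.Mertens.mertens_log
  have hC0 : 0 ≤ C := (abs_nonneg _).trans (hC 1 le_rfl)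
  refine ⟨2 * C, by linarith, fun a b ha hab => ?_⟩
  have e : ∀ n : ℕ, ∑ p ∈ (Icc 1 n).filter Nat.Prime, Real.log p / p = VB 0 n := by
    intro n
    unfold VB PB
    rfl
  have h1 := hC a ha
  have h2 := hC b (ha.trans hab)
  rw [e] at h1 h2
  have h3 := VB_add (Nat.zero_le a) hab
  have h4 := (abs_le.1 h1).2
  have h5 := (abs_le.1 h2).1
  linarith

lemma two_pow_gt (s : ℕ) : (s : ℝ) < 2 ^ s := by exact_mod_cast s.lt_two_pow_self

lemma cond2 {κ0 : ℝ} {e s : ℕ} {E : ℝ} (hs : 1 ≤ s)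
    (he : ((e + 3 * s : ℕ) : ℝ) ≤ E * 4 ^ s) (h : E ≤ κ0 * 2 ^ s) :
    ∀ q : ℕ, 2 ^ (e + 3 * s) < q → ((2 ^ e : ℕ) : ℝ) ≤ κ0 * q / Real.log q := by
  intro q hq
  have hL1 : Real.log 2 < 1 := by have := Real.log_two_lt_d9; linarith
  have hL0 : 0 < Real.log 2 := Real.log_pos (by norm_num)
  set a : ℝ := 2 ^ (e + 3 * s) with ha
  have ha8 : (8 : ℝ) ≤ a := by
    rw [ha]
    calc (8 : ℝ) = 2 ^ 3 := by norm_num
      _ ≤ 2 ^ (e + 3 * s) := pow_le_pow_right₀ (by norm_num) (by omega)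
  have hqa : a ≤ q := by
    have h1 : ((2 ^ (e + 3 * s) : ℕ) : ℝ) ≤ q := by exact_mod_cast hq.le
    push_cast at h1
    exact h1
  have he1 : Real.exp 1 ≤ a := by have := Real.exp_one_lt_d9; linarith
  have hmono := Real.log_div_self_antitoneOn (Set.mem_ofPred_eq ▸ he1)
    (Set.mem_ofPred_eq ▸ (he1.trans hqa)) hqa
  have hq0 : (0 : ℝ) < q := by linarith
  have hlq : 0 < Real.log q := Real.log_pos (by linarith)
  rw [le_div_iff₀ hlq]
  have h1 : Real.log a ≤ κ0 * 2 ^ (3 * s) := by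
    rw [ha, Real.log_pow]
    have h2 : ((e + 3 * s : ℕ) : ℝ) * Real.log 2 ≤ ((e + 3 * s : ℕ) : ℝ) * 1 :=
      mul_le_mul_of_nonneg_left hL1.le (by positivity)
    have h3 : E * 4 ^ s ≤ κ0 * 2 ^ s * 4 ^ s := mul_le_mul_of_nonneg_right h (by positivity)
    have h4 : κ0 * 2 ^ s * 4 ^ s = κ0 * 2 ^ (3 * s) := by
      rw [show (4 : ℝ) = 2 ^ 2 by norm_num, ← pow_mul, mul_assoc, ← pow_add]
      congr 2
      ring
    linarith
  have h5 : Real.log q / q ≤ κ0 * 2 ^ (3 * s) / a := hmono.trans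
    (div_le_div_of_nonneg_right h1 (by linarith))
  have h6 : κ0 * 2 ^ (3 * s) / a = κ0 / 2 ^ e := by
    rw [ha, pow_add]
    field_simp
  rw [h6, div_le_div_iff₀ hq0 (by positivity)] at h5
  push_cast
  linarith

lemma cond4 {e s : ℕ} (he : ((e : ℕ) : ℝ) ≤ 8 ^ s) (he0 : 1 ≤ e) :
    Real.log (Real.log ((2 ^ e : ℕ) : ℝ)) ≤ 3 * s := by
  have hL1 : Real.log 2 < 1 := by have := Real.log_two_lt_d9; linarith
  have hL0 : 0 < Real.log 2 := Real.log_pos (by norm_num)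
  push_cast
  rw [Real.log_pow]
  have he1 : (1 : ℝ) ≤ e := by exact_mod_cast he0
  have h1 : (e : ℝ) * Real.log 2 ≤ 8 ^ s := by nlinarith
  have h2 : 0 < (e : ℝ) * Real.log 2 := by positivity
  have h3 := Real.log_le_log h2 h1
  rw [Real.log_pow, show (8 : ℝ) = 2 ^ 3 by norm_num, Real.log_pow] at h3
  have h4 : (s : ℝ) * (((3 : ℕ) : ℝ) * Real.log 2) ≤ s * (3 * 1) := by
    push_cast
    exact mul_le_mul_of_nonneg_left (by linarith) (Nat.cast_nonneg s)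
  linarith

/-- the bad indicator of the block `(a, b]` as a function of the level `b` -/
noncomputable def Bk (θ : ℝ) (a b N : ℕ) : ℝ :=
  if ∑ p ∈ PB a b, G p (N / 2 ^ (b - p)) < θ then 1 else 0

lemma Bk_01 (θ : ℝ) (a b N : ℕ) : Bk θ a b N = 0 ∨ Bk θ a b N = 1 := by
  unfold Bk; split_ifs <;> simp

lemma Bk_eq (θ : ℝ) (a b : ℕ) {β : ℝ} (hβ : 0 < β) :
    Bk θ a b (Nb β b) = if SB a b β < θ then 1 else 0 := by
  unfold Bk SB
  have : ∑ p ∈ PB a b, G p (Nb β b / 2 ^ (b - p)) = ∑ p ∈ PB a b, G p (Nb β p) := by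
    refine Finset.sum_congr rfl fun p hp => ?_
    rw [PB, mem_filter, mem_Ioc] at hp
    rw [Nb_anc' hβ hp.1.2]
  rw [this]

lemma sum_blocks_le {z a : ℕ → ℕ} (hz : ∀ k, z k ≤ a k ∧ a k ≤ z (k + 1)) (β : ℝ) (n : ℕ) :
    ∑ k ∈ range n, SB (a k) (z (k + 1)) β ≤ SB (z 0) (z n) β := by
  have hm : Monotone z := monotone_nat_of_le_succ fun k => (hz k).1.trans (hz k).2
  induction n with
  | zero => simpa using SB_nonneg _ _ β
  | succ n ih =>
    rw [Finset.sum_range_succ, SB_add (hm (Nat.zero_le n)) (hm (Nat.le_succ n)) β,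
      SB_add (hz n).1 (hz n).2 β]
    have := SB_nonneg (z n) (a n) β
    linarith

lemma log_tendsto : Tendsto (fun i : ℕ => Nat.log 2 i + 1) atTop atTop :=
  tendsto_atTop.2 fun X => (eventually_ge_atTop (2 ^ X)).mono fun i hi =>
    (Nat.le_log_of_pow_le one_lt_two hi).trans (Nat.le_succ _)

/-- a measure bound, in the form used for the Borel-Cantelli lemma -/
lemma bc {μ : Measure ℝ} {E : ℕ → Set ℝ} {g : ℕ → ℝ} (hg : Summable g)
    (i0 : ℕ) (h : ∀ i ≥ i0, μ (E i) ≤ ENNReal.ofReal (g i)) :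
    ∀ᵐ β ∂μ, ∀ᶠ i in atTop, β ∉ E i := by
  have h1 : ∑' i, μ (E (i + i0)) ≠ ⊤ := by
    have h2 : ∑' i, μ (E (i + i0)) ≤ ∑' i, ENNReal.ofReal (g (i + i0)) :=
      ENNReal.tsum_le_tsum fun i => h _ (by omega)
    have h3 : Summable fun i => g (i + i0) := (summable_nat_add_iff i0).2 hg
    exact ne_top_of_le_ne_top h3.tsum_ofReal_ne_top h2
  filter_upwards [ae_eventually_notMem h1] with β hβ
  obtain ⟨N, hN⟩ := eventually_atTop.1 hβ
  refine eventually_atTop.2 ⟨N + i0, fun i hi => ?_⟩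
  have := hN (i - i0) (by omega)
  rwa [Nat.sub_add_cancel (by omega)] at this

lemma sqrt_bound (i : ℕ) : 1 / Real.sqrt ((2 ^ i : ℕ) : ℝ) ≤ (4 / 5 : ℝ) ^ i := by
  have h1 : (5 / 4 : ℝ) ^ i ≤ Real.sqrt ((2 ^ i : ℕ) : ℝ) := by
    refine Real.le_sqrt_of_sq_le ?_
    push_cast
    rw [← pow_mul, mul_comm, pow_mul]
    exact pow_le_pow_left₀ (by norm_num) (by norm_num) i
  have h2 : (0 : ℝ) < (5 / 4 : ℝ) ^ i := by positivity
  calc 1 / Real.sqrt ((2 ^ i : ℕ) : ℝ) ≤ 1 / (5 / 4 : ℝ) ^ i :=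
        one_div_le_one_div_of_le h2 h1
    _ = (4 / 5 : ℝ) ^ i := by rw [one_div, ← inv_pow]; norm_num

end Pool.Agent.V11115.Gap
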