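import Mathlib
import Pool.Agent.V11115.Gap.Final

set_option autoImplicit false

/-!
# The number of exponents in short windows
-/

namespace Pool.Agent.V11115.Gap

open Finset Filter Topology MeasureTheory

theorem window_J {ε : ℝ} (hε0 : 0 < ε) (hε1 : ε ≤ 1) : ∃ A : ℕ, 1 ≤ A ∧ ∀ m j : ℕ, 1 ≤ m →
    ∀ᵐ β ∂(volume.restrict (J m j)), ∀ᶠ i : ℕ in atTop,
      (1 - ε) * cc * (((A * (Nat.log 2 i + 1) ^ 2 + 1 : ℕ) : ℝ) * Real.log 2) ≤
        SB (2 ^ i) (2 ^ (i + A * (Nat.log 2 i + 1) ^ 2)) β := by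
  classical
  obtain ⟨κ0, C6, hκ0, hC6, hblock⟩ := block_J
  obtain ⟨CM, hCM, hmert⟩ := VB_mertens
  have hL0 : 0 < Real.log 2 := Real.log_pos (by norm_num)
  have hL1 : 1 / 2 < Real.log 2 := by have := Real.log_two_gt_d9; linarith
  have hL2 : Real.log 2 < 1 := by have := Real.log_two_lt_d9; linarith
  have hcc := cc_pos
  -- parameters
  obtain ⟨r, hr⟩ := exists_nat_ge (4 / ε)
  have hr4 : (4 : ℝ) ≤ r := by
    refine le_trans ?_ hr
    rw [le_div_iff₀ hε0]; linarith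
  have hr4' : 4 ≤ r := by exact_mod_cast hr4
  set δ : ℝ := (1 / 2) ^ (r + 2) with hδ
  have hδ0 : 0 < δ := by positivity
  have hδ1 : δ ≤ 1 / 4 := by
    rw [hδ, pow_add]
    have : (1 / 2 : ℝ) ^ r ≤ 1 := pow_le_one₀ (by norm_num) (by norm_num)
    nlinarith
  set C7 := C6 / ((ε / 4) ^ 2 * δ) with hC7
  have hC70 : 0 < C7 := by positivity
  obtain ⟨D, hD⟩ := exists_nat_ge (max (24 / ε) (2 * (4 * C7 + 1) + 3))
  have hD1 : 24 / ε ≤ D := (le_max_left _ _).trans hD
  have hD2 : 2 * (4 * C7 + 1) + 3 ≤ D := (le_max_right _ _).trans hD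
  have hD5 : (5 : ℝ) ≤ D := by linarith
  have hD5' : 5 ≤ D := by exact_mod_cast hD5
  refine ⟨D * r, by nlinarith, fun m j hm => ?_⟩
  obtain ⟨C8, hC8, A0, hblock⟩ := hblock (ε / 4) δ (by positivity) (by linarith) hδ0 (by linarith) m j hm
  -- the scales
  set s : ℕ → ℕ := fun i => Nat.log 2 i + 1 with hs
  set z : ℕ → ℕ → ℕ := fun i k => 2 ^ (i + s i * D * k) with hz
  set a : ℕ → ℕ → ℕ := fun i k => 2 ^ (i + s i * D * k + 3 * s i) with ha
  set θ : ℕ → ℕ → ℝ := fun i k => (1 - ε / 4) * (cc * VB (a i k) (z i (k + 1))) with hθ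
  set B : ℕ → ℕ → ℕ → ℝ := fun i k N => Bk (θ i k) (a i k) (z i (k + 1)) N with hB
  have hs1 : ∀ i, 1 ≤ s i := fun i => Nat.succ_le_succ (Nat.zero_le _)
  have hza : ∀ i k, z i k ≤ a i k := fun i k => Nat.pow_le_pow_right (by norm_num) (by omega)
  have haz : ∀ i k, a i k ≤ z i (k + 1) := fun i k => by
    refine Nat.pow_le_pow_right (by norm_num) ?_
    have h5 : s i * 5 ≤ s i * D := Nat.mul_le_mul_left _ hD5'
    have h6 : s i * D * (k + 1) = s i * D * k + s i * D := Nat.mul_succ _ _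
    omega
  have hzz : ∀ i k, z i k ≤ z i (k + 1) := fun i k => (hza i k).trans (haz i k)
  -- large indices
  obtain ⟨X, hX⟩ := exists_nat_ge (max ((D * r + 4) / κ0) (max (D * r + 1) (max CM (16 * CM / ε))))
  have hX1 : ((D : ℝ) * r + 4) / κ0 ≤ X := (le_max_left _ _).trans hX
  have hX2 : (D : ℝ) * r + 1 ≤ X := (le_max_left _ _).trans ((le_max_right _ _).trans hX)
  have hX3 : CM ≤ X := (le_max_left _ _).trans ((le_max_right _ _).trans ((le_max_right _ _).trans hX))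
  have hX4 : 16 * CM / ε ≤ X :=
    (le_max_right _ _).trans ((le_max_right _ _).trans ((le_max_right _ _).trans hX))
  obtain ⟨i0, hi0⟩ := eventually_atTop.1 ((log_tendsto.eventually_ge_atTop X).and
    (eventually_ge_atTop (j + A0 + 1)))
  have hfacts : ∀ i ≥ i0, (X : ℝ) ≤ s i ∧ j + A0 + 1 ≤ i := fun i hi => by
    obtain ⟨h1, h2⟩ := hi0 i hi
    exact ⟨by exact_mod_cast h1, h2⟩
  -- exponents
  have hexp : ∀ i ≥ i0, ∀ k < r * s i, ((i + s i * D * (k + 1) : ℕ) : ℝ) ≤ (D * r + 1) * 4 ^ s i := by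
    intro i hi k hk
    have h1 : i < 2 ^ s i := Nat.lt_pow_succ_log_self one_lt_two i
    have h1' : (i : ℝ) ≤ 2 ^ s i := by exact_mod_cast h1.le
    have h2 : (2 : ℝ) ^ s i ≤ 4 ^ s i := pow_le_pow_left₀ (by norm_num) (by norm_num) _
    have h3 : s i * D * (k + 1) ≤ s i * D * (r * s i) := Nat.mul_le_mul_left _ hk
    have h3' : ((s i * D * (k + 1) : ℕ) : ℝ) ≤ D * r * (s i : ℝ) ^ 2 := by
      have : ((s i * D * (k + 1) : ℕ) : ℝ) ≤ ((s i * D * (r * s i) : ℕ) : ℝ) := by exact_mod_cast h3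
      refine this.trans (le_of_eq ?_)
      push_cast
      ring
    have h4 : (s i : ℝ) ^ 2 ≤ 4 ^ s i := by
      have h5 := two_pow_gt (s i)
      calc (s i : ℝ) ^ 2 ≤ (2 ^ s i) ^ 2 := pow_le_pow_left₀ (Nat.cast_nonneg _) h5.le 2
        _ = 4 ^ s i := by rw [← pow_mul, mul_comm, pow_mul]; norm_num
    have h6 : (D : ℝ) * r * (s i : ℝ) ^ 2 ≤ D * r * 4 ^ s i :=
      mul_le_mul_of_nonneg_left h4 (by positivity)
    rw [Nat.cast_add]
    linarith
  have hkey : ∀ i ≥ i0, ∀ k < r * s i, ∀ F : ℕ → ℝ, (∀ N, 0 ≤ F N) → (∀ N, F N ≤ 1) →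
      ∫ β in J m j, F (Nb β (z i k)) * B i k (Nb β (z i (k + 1))) ≤
        δ * (∫ β in J m j, F (Nb β (z i k))) + C8 * (4 / 5) ^ i := by
    intro i hi k hk F hF0 hF1
    obtain ⟨f1, f2⟩ := hfacts i hi
    have hsi := hs1 i
    have hsr : (1 : ℝ) ≤ s i := by exact_mod_cast hsi
    have e1 := hexp i hi k hk
    have h2i : i < 2 ^ i := i.lt_two_pow_self
    have hzi : 2 ^ i ≤ z i k := Nat.pow_le_pow_right (by norm_num) (by omega)
    have h2s := two_pow_gt (s i)
    have c1 : j ≤ z i k := by omega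
    have c5 : a i k ≥ A0 := by have := hza i k; omega
    have c3 : a i k < z i (k + 1) := by
      refine Nat.pow_lt_pow_right (by norm_num) ?_
      have h5 : s i * 5 ≤ s i * D := Nat.mul_le_mul_left _ hD5'
      have h6 : s i * D * (k + 1) = s i * D * k + s i * D := Nat.mul_succ _ _
      omega
    have c2 : ∀ q : ℕ, a i k < q → ((z i k : ℕ) : ℝ) ≤ κ0 * q / Real.log q := by
      refine cond2 (E := D * r + 1) hsi ?_ ?_
      · refine le_trans ?_ e1
        have : i + s i * D * k + 3 * s i ≤ i + s i * D * (k + 1) := by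
          have h5 : s i * 5 ≤ s i * D := Nat.mul_le_mul_left _ hD5'
          have h6 : s i * D * (k + 1) = s i * D * k + s i * D := Nat.mul_succ _ _
          omega
        exact_mod_cast this
      · rw [div_le_iff₀ hκ0] at hX1
        nlinarith
    have c4 : C6 / ((ε / 4) ^ 2 * δ) * (1 + Real.log (Real.log (z i (k + 1) : ℕ))) ≤
        VB (a i k) (z i (k + 1)) := by
      have h3 := hmert (a i k) (z i (k + 1)) (Nat.one_le_two_pow) (haz i k)
      have h4 : Real.log (z i (k + 1) : ℕ) - Real.log (a i k : ℕ) = ((D : ℝ) - 3) * s i * Real.log 2 := by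
        simp only [hz, ha]
        push_cast
        rw [Real.log_pow, Real.log_pow]
        push_cast
        ring
      rw [h4] at h3
      have h5 : Real.log (Real.log (z i (k + 1) : ℕ)) ≤ 3 * s i := by
        refine cond4 ?_ (by omega)
        refine e1.trans ?_
        have h6 : (D : ℝ) * r + 1 ≤ 2 ^ s i := by linarith
        calc ((D : ℝ) * r + 1) * 4 ^ s i ≤ 2 ^ s i * 4 ^ s i :=
              mul_le_mul_of_nonneg_right h6 (by positivity)
          _ = 8 ^ s i := by rw [← mul_pow]; norm_num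
      rw [← hC7]
      have h6 : C7 * (1 + Real.log (Real.log (z i (k + 1) : ℕ))) ≤ C7 * (4 * s i) :=
        mul_le_mul_of_nonneg_left (by linarith) hC70.le
      have h7 : (4 * C7 + 1) * s i ≤ ((D : ℝ) - 3) * s i * Real.log 2 := by
        have h8 : 4 * C7 + 1 ≤ ((D : ℝ) - 3) * Real.log 2 := by nlinarith
        calc (4 * C7 + 1) * s i ≤ (((D : ℝ) - 3) * Real.log 2) * s i :=
              mul_le_mul_of_nonneg_right h8 (by linarith)
          _ = _ := by ring
      have h9 : CM ≤ s i := hX3.trans f1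
      nlinarith
    have h := hblock (a i k) c5 (z i (k + 1)) (z i k) c1 c2 c3 c4 F hF0 hF1
    have e2 : ∫ β in J m j, F (Nb β (z i k)) * B i k (Nb β (z i (k + 1))) =
        ∫ β in J m j, F (Nb β (z i k)) * (if SB (a i k) (z i (k + 1)) β <
          (1 - ε / 4) * (cc * VB (a i k) (z i (k + 1))) then (1 : ℝ) else 0) := by
      refine setIntegral_congr_fun (measurableSet_J m j) fun β hβ => ?_
      simp only [hB]
      rw [Bk_eq _ _ _ (J_pos hβ)]
    rw [e2]
    refine h.trans (add_le_add le_rfl ?_)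
    have h3 : 1 / Real.sqrt (a i k : ℕ) ≤ (4 / 5) ^ i := by
      refine le_trans ?_ (sqrt_bound i)
      refine one_div_le_one_div_of_le (Real.sqrt_pos.2 (by positivity)) (Real.sqrt_le_sqrt ?_)
      exact_mod_cast hzi.trans (hza i k)
    calc C8 / Real.sqrt (a i k : ℕ) = C8 * (1 / Real.sqrt (a i k : ℕ)) := by ring
      _ ≤ C8 * (4 / 5) ^ i := mul_le_mul_of_nonneg_left h3 hC8.le
  -- the exceptional sets
  set E : ℕ → Set ℝ := fun i => {β : ℝ |
    ((range (r * s i)).filter (fun k => B i k (Nb β (z i (k + 1))) = 0)).card ≤ (r - 1) * s i} with hE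
  set g : ℕ → ℝ := fun i => (2 ^ j)⁻¹ * (1 / (i : ℝ) ^ 2) +
    2 * C8 * 2 ^ ((r + 2) * (r - 1)) * ((i : ℝ) ^ ((r + 2) * (r - 1)) * (4 / 5) ^ i) with hg
  have hgs : Summable g := by
    refine ((Real.summable_one_div_nat_pow.2 one_lt_two).mul_left _).add (Summable.mul_left _ ?_)
    exact summable_pow_mul_geometric_of_norm_lt_one _ (by
      rw [Real.norm_eq_abs, abs_of_pos (by norm_num)]; norm_num)
  have hEm : ∀ i ≥ i0, (volume.restrict (J m j)) (E i) ≤ ENNReal.ofReal (g i) := by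
    intro i hi
    obtain ⟨f1, f2⟩ := hfacts i hi
    have h := chain_meas hδ0 hδ1 (z := z i) (B := B i) (hzz i) (fun k N => Bk_01 _ _ _ _)
      (m := m) (j := j) (η := C8 * (4 / 5) ^ i) (by positivity) (r * s i) ((r - 1) * s i) (hkey i hi)
    refine h.trans (ENNReal.ofReal_le_ofReal ?_)
    have hi1 : 1 ≤ i := by omega
    have hiR : (1 : ℝ) ≤ i := by exact_mod_cast hi1
    have p1 : (i : ℝ) ≤ 2 ^ s i := by exact_mod_cast (Nat.lt_pow_succ_log_self one_lt_two i).le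
    have p2 : (2 : ℝ) ^ s i ≤ 2 * i := by
      have : 2 ^ Nat.log 2 i ≤ i := Nat.pow_log_le_self 2 (by omega)
      have h3 : (2 : ℝ) ^ Nat.log 2 i ≤ i := by exact_mod_cast this
      simp only [hs]
      rw [pow_succ]
      linarith
    have q1 : (δ ^ ((r - 1) * s i))⁻¹ * (2 * δ) ^ (r * s i) ≤ 1 / (i : ℝ) ^ 2 := by
      have e3 : r * s i = (r - 1) * s i + s i := by
        obtain ⟨r', rfl⟩ : ∃ r', r = r' + 1 := ⟨r - 1, by omega⟩
        rw [Nat.add_sub_cancel]
        ring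
      have e4 : (δ ^ ((r - 1) * s i))⁻¹ * (2 * δ) ^ (r * s i) = (2 ^ r * δ) ^ s i := by
        have e5 : (2 * δ) ^ (r * s i) = (2 ^ r) ^ s i * (δ ^ ((r - 1) * s i) * δ ^ s i) := by
          have e7 : ((2 : ℝ) ^ r) ^ s i = 2 ^ (r * s i) := (pow_mul _ _ _).symm
          rw [e7, ← pow_add, ← e3, mul_pow]
        rw [e5, mul_pow]
        have : δ ^ ((r - 1) * s i) ≠ 0 := by positivity
        field_simp
      rw [e4]
      have e5 : (2 : ℝ) ^ r * δ = (2 ^ 2)⁻¹ := by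
        rw [hδ, pow_add, ← mul_assoc, ← mul_pow]
        norm_num
      rw [e5, inv_pow, ← pow_mul, mul_comm, pow_mul, one_div]
      exact inv_anti₀ (by positivity) (pow_le_pow_left₀ (by linarith) p1 2)
    have q2 : (δ ^ ((r - 1) * s i))⁻¹ ≤ 2 ^ ((r + 2) * (r - 1)) * (i : ℝ) ^ ((r + 2) * (r - 1)) := by
      have e3 : (δ ^ ((r - 1) * s i))⁻¹ = (2 ^ s i) ^ ((r + 2) * (r - 1)) := by
        rw [hδ, ← pow_mul, one_div, inv_pow, inv_inv, ← pow_mul]
        congr 1
        ring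
      rw [e3, ← mul_pow]
      exact pow_le_pow_left₀ (by positivity) p2 _
    have q3 : 0 ≤ 2 * (C8 * (4 / 5 : ℝ) ^ i) := by positivity
    have q4 := mul_le_mul_of_nonneg_right q2 q3
    have q5 := mul_le_mul_of_nonneg_right q1 (show 0 ≤ ((2 : ℝ) ^ j)⁻¹ by positivity)
    have e6 : (δ ^ ((r - 1) * s i))⁻¹ * ((2 * δ) ^ (r * s i) * (2 ^ j)⁻¹ + 2 * (C8 * (4 / 5) ^ i)) =
      (δ ^ ((r - 1) * s i))⁻¹ * (2 * δ) ^ (r * s i) * (2 ^ j)⁻¹ +
        (δ ^ ((r - 1) * s i))⁻¹ * (2 * (C8 * (4 / 5) ^ i)) := by ring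
    rw [e6]
    simp only [hg]
    linarith
  have hae := bc hgs i0 hEm
  have hJ : ∀ᵐ β ∂(volume.restrict (J m j)), β ∈ J m j := ae_restrict_mem (measurableSet_J m j)
  filter_upwards [hae, hJ] with β hβ hβJ
  have hβ0 := J_pos hβJ
  filter_upwards [hβ, eventually_ge_atTop i0] with i hiE hi
  obtain ⟨f1, f2⟩ := hfacts i hi
  have hsr : (1 : ℝ) ≤ s i := by exact_mod_cast hs1 i
  -- many good blocks
  set Gd := (range (r * s i)).filter (fun k => B i k (Nb β (z i (k + 1))) = 0) with hGd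
  have hcard : (r - 1) * s i < Gd.card := by
    by_contra hc
    push Not at hc
    exact hiE hc
  have hcard' : ((r : ℝ) - 1) * s i ≤ Gd.card := by
    have h1 : (((r - 1) * s i : ℕ) : ℝ) ≤ Gd.card := by exact_mod_cast hcard.le
    rw [Nat.cast_mul, Nat.cast_sub (by omega), Nat.cast_one] at h1
    exact h1
  set Y := (1 - ε / 4) * (cc * (((D : ℝ) - 3) * s i * Real.log 2 - CM)) with hY
  have hgood : ∀ k ∈ Gd, Y ≤ SB (a i k) (z i (k + 1)) β := by
    intro k hk
    rw [hGd, mem_filter] at hk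
    have h1 := hk.2
    simp only [hB] at h1
    rw [Bk_eq _ _ _ hβ0] at h1
    have h2 : ¬ SB (a i k) (z i (k + 1)) β < θ i k := fun h => by
      rw [if_pos h] at h1
      exact one_ne_zero h1
    push Not at h2
    refine le_trans ?_ h2
    have h3 := hmert (a i k) (z i (k + 1)) (Nat.one_le_two_pow) (haz i k)
    have h4 : Real.log (z i (k + 1) : ℕ) - Real.log (a i k : ℕ) = ((D : ℝ) - 3) * s i * Real.log 2 := by
      simp only [hz, ha]
      push_cast
      rw [Real.log_pow, Real.log_pow]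
      push_cast
      ring
    rw [h4] at h3
    exact mul_le_mul_of_nonneg_left (mul_le_mul_of_nonneg_left h3 hcc.le) (by linarith)
  have htot := sum_blocks_le (z := z i) (a := a i) (fun k => ⟨hza i k, haz i k⟩) β (r * s i)
  have hz0 : z i 0 = 2 ^ i := by simp only [hz]; simp
  have hzn : z i (r * s i) = 2 ^ (i + D * r * (Nat.log 2 i + 1) ^ 2) := by
    simp only [hz]
    congr 1
    have : s i = Nat.log 2 i + 1 := rfl
    rw [this]
    ring
  rw [hz0, hzn] at htot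
  refine le_trans ?_ htot
  have hsub : ∑ k ∈ Gd, SB (a i k) (z i (k + 1)) β ≤ ∑ k ∈ range (r * s i), SB (a i k) (z i (k + 1)) β :=
    Finset.sum_le_sum_of_subset_of_nonneg (Finset.filter_subset _ _) fun k _ _ => SB_nonneg _ _ _
  refine le_trans ?_ hsub
  have hconst : (Gd.card : ℝ) * Y ≤ ∑ k ∈ Gd, SB (a i k) (z i (k + 1)) β := by
    rw [← nsmul_eq_mul]
    exact Finset.card_nsmul_le_sum _ _ _ hgood
  refine le_trans ?_ hconst
  -- numerics
  have hDε : 24 ≤ D * ε := by rwa [div_le_iff₀ hε0] at hD1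
  have hrε : 4 ≤ r * ε := by rwa [div_le_iff₀ hε0] at hr
  have hCMs : 16 * CM ≤ s i * ε := by
    have := hX4.trans f1
    rwa [div_le_iff₀ hε0] at this
  set S : ℝ := (s i : ℝ) with hS
  set L := Real.log 2 with hL
  have n1 : (1 - ε / 4) * (D * S * L) ≤ ((D : ℝ) - 3) * S * L - CM := by
    have t1 : 3 * (S * L) ≤ ε / 8 * (D * S * L) := by
      have : 0 ≤ S * L := by positivity
      nlinarith
    have t2 : CM ≤ ε / 8 * (D * S * L) := by
      have h5 : 1 * (1 / 2) ≤ D * L := mul_le_mul (by linarith) hL1.le (by norm_num) (by linarith)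
      have h6 : 0 ≤ ε * S := by positivity
      nlinarith
    nlinarith
  have n2 : 0 ≤ (1 - ε / 4) * (D * S * L) := mul_nonneg (by linarith) (by positivity)
  have n3 : (1 - ε / 4) * (cc * ((1 - ε / 4) * (D * S * L))) ≤ Y :=
    mul_le_mul_of_nonneg_left (mul_le_mul_of_nonneg_left n1 hcc.le) (by linarith)
  have n4 : 0 ≤ (1 - ε / 4) * (cc * ((1 - ε / 4) * (D * S * L))) :=
    mul_nonneg (by linarith) (mul_nonneg hcc.le n2)
  have n5 : (1 - ε / 4) * (r * S) ≤ (Gd.card : ℝ) := by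
    refine le_trans ?_ hcard'
    nlinarith
  have n6 : (1 - ε / 4) * (r * S) * ((1 - ε / 4) * (cc * ((1 - ε / 4) * (D * S * L)))) ≤
      (Gd.card : ℝ) * Y := mul_le_mul n5 n3 n4 (Nat.cast_nonneg _)
  refine le_trans ?_ n6
  have e8 : (((D * r * (Nat.log 2 i + 1) ^ 2 + 1 : ℕ) : ℝ) * L) = (D * r * S ^ 2 + 1) * L := by
    have : ((Nat.log 2 i + 1 : ℕ) : ℝ) = S := rfl
    push_cast at this ⊢
    rw [this]
  rw [e8]
  have e9 : (1 - ε / 4) * (r * S) * ((1 - ε / 4) * (cc * ((1 - ε / 4) * (D * S * L)))) =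
    cc * ((1 - ε / 4) ^ 3 * (D * r * S ^ 2)) * L := by ring
  rw [e9]
  have n7 : 1 - 3 * ε / 4 ≤ (1 - ε / 4) ^ 3 := by nlinarith [sq_nonneg ε, mul_nonneg hε0.le (sq_nonneg ε)]
  have n8 : 0 ≤ D * r * S ^ 2 := by positivity
  have n9 : 1 ≤ ε / 4 * (D * r * S ^ 2) := by
    have h5 : 1 ≤ S ^ 2 := by nlinarith
    have h6 : 4 ≤ ε * (D * r) := by nlinarith
    nlinarith
  have n10 : (1 - ε) * (D * r * S ^ 2 + 1) ≤ (1 - ε / 4) ^ 3 * (D * r * S ^ 2) := by
    have h5 := mul_le_mul_of_nonneg_right n7 n8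
    nlinarith
  have n11 := mul_le_mul_of_nonneg_right (mul_le_mul_of_nonneg_left n10 hcc.le) hL0.le
  calc (1 - ε) * cc * ((D * r * S ^ 2 + 1) * L) = cc * ((1 - ε) * (D * r * S ^ 2 + 1)) * L := by ring
    _ ≤ _ := n11

end Pool.Agent.V11115.Gap
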