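import Mathlib
import Pool.Agent.V11115.Gap.Window

set_option autoImplicit false

/-!
# All intervals
-/

namespace Pool.Agent.V11115.Gap

open Finset Filter Topology MeasureTheory

/-- almost all positive amplitudes -/
lemma ae_pos_of_J {Q : ℝ → Prop} (h : ∀ m j : ℕ, 1 ≤ m → ∀ᵐ β ∂(volume.restrict (J m j)), Q β) :
    ∀ᵐ β : ℝ, 0 < β → Q β := by
  have h1 : ∀ᵐ β : ℝ, ∀ m j : ℕ, 1 ≤ m → β ∈ J m j → Q β := by
    rw [ae_all_iff]
    intro m
    rw [ae_all_iff]
    intro j
    by_cases hm : 1 ≤ m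
    · have := (ae_restrict_iff' (measurableSet_J m j)).1 (h m j hm)
      filter_upwards [this] with β hβ _ hJ using hβ hJ
    · exact Eventually.of_forall fun β h1 => absurd h1 hm
  filter_upwards [h1] with β hβ h0
  obtain ⟨j, hj⟩ := pow_unbounded_of_one_lt (2 / β) (one_lt_two (α := ℝ))
  have h2 : 2 < β * 2 ^ j := by
    rw [div_lt_iff₀ h0] at hj
    linarith
  obtain ⟨h3, h4⟩ := Nb_bounds h0 j
  have h5 : 1 ≤ Nb β j := by
    by_contra hc
    have h6 : Nb β j = 0 := by omega
    rw [h6, Nat.cast_zero] at h4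
    linarith
  refine hβ (Nb β j) j h5 ?_
  rw [mem_J_iff le_rfl h0, Nat.sub_self, pow_zero, mul_one, mul_one]
  exact ⟨le_rfl, Nat.lt_succ_self _⟩

/-- a window after every large `n` -/
lemma next {ε : ℝ} (hε1 : ε ≤ 1) {A : ℕ} {β : ℝ}
    (h : ∀ᶠ i : ℕ in atTop,
      (1 - ε) * cc * (((A * (Nat.log 2 i + 1) ^ 2 + 1 : ℕ) : ℝ) * Real.log 2) ≤
        SB (2 ^ i) (2 ^ (i + A * (Nat.log 2 i + 1) ^ 2)) β) :
    ∀ᶠ n : ℕ in atTop, ∃ N1 : ℕ, n < N1 ∧
      Real.log N1 - Real.log n ≤ 25 * (A + 1) * (Real.log (Real.log n)) ^ 2 ∧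
      (1 - ε) * cc * (Real.log N1 - Real.log n) ≤ SB n N1 β := by
  have hL0 : 0 < Real.log 2 := Real.log_pos (by norm_num)
  have hL1 : 69 / 100 < Real.log 2 := by have := Real.log_two_gt_d9; linarith
  have hL2 : Real.log 2 < 1 := by have := Real.log_two_lt_d9; linarith
  have hcc := cc_pos
  obtain ⟨i0, hi0⟩ := eventually_atTop.1 h
  have hll : Tendsto (fun n : ℕ => Real.log (Real.log n)) atTop atTop :=
    Real.tendsto_log_atTop.comp Pool.Agent.H305R2.log_nat_tendsto
  filter_upwards [eventually_ge_atTop (2 ^ i0), eventually_ge_atTop 2,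
    hll.eventually_ge_atTop 1, Pool.Agent.H305R2.log_nat_tendsto.eventually_ge_atTop 1]
    with n hn0 hn2 hn3 hn4
  set i := Nat.log 2 n + 1 with hi
  have hii : i0 ≤ i := (Nat.le_log_of_pow_le one_lt_two hn0).trans (Nat.le_succ _)
  have hni : n < 2 ^ i := Nat.lt_pow_succ_log_self one_lt_two n
  have hin : 2 ^ (i - 1) ≤ n := by
    rw [hi, Nat.add_sub_cancel]
    exact Nat.pow_log_le_self 2 (by omega)
  set s := Nat.log 2 i + 1 with hs
  have hw := hi0 i hii
  rw [← hs] at hw
  set N1 := 2 ^ (i + A * s ^ 2) with hN1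
  have hiN : 2 ^ i ≤ N1 := Nat.pow_le_pow_right (by norm_num) (by omega)
  have hn0' : (0 : ℝ) < n := by exact_mod_cast (by omega : 0 < n)
  have hlog : Real.log N1 - Real.log n ≤ ((A * s ^ 2 + 1 : ℕ) : ℝ) * Real.log 2 := by
    have h1 : Real.log N1 = ((i + A * s ^ 2 : ℕ) : ℝ) * Real.log 2 := by
      rw [hN1]; push_cast; rw [Real.log_pow]; push_cast; ring
    have h2 : ((i - 1 : ℕ) : ℝ) * Real.log 2 ≤ Real.log n := by
      have h3 : ((2 ^ (i - 1) : ℕ) : ℝ) ≤ n := by exact_mod_cast hin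
      have h4 := Real.log_le_log (by positivity) h3
      push_cast at h4
      rwa [Real.log_pow] at h4
    have h5 : ((i - 1 : ℕ) : ℝ) = i - 1 := by rw [Nat.cast_sub (by omega), Nat.cast_one]
    rw [h1]
    rw [h5] at h2
    push_cast
    linarith
  refine ⟨N1, lt_of_lt_of_le hni hiN, ?_, ?_⟩
  · -- the length of the window
    have h1 : (i : ℝ) ≤ 3 * Real.log n := by
      have h2 : ((Nat.log 2 n : ℕ) : ℝ) * Real.log 2 ≤ Real.log n := by
        have h3 : ((2 ^ Nat.log 2 n : ℕ) : ℝ) ≤ n := by exact_mod_cast Nat.pow_log_le_self 2 (by omega)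
        have h4 := Real.log_le_log (by positivity) h3
        push_cast at h4
        rwa [Real.log_pow] at h4
      rw [hi]
      push_cast
      have h5 : (0 : ℝ) ≤ (Nat.log 2 n : ℕ) := Nat.cast_nonneg _
      nlinarith
    have hi1 : (1 : ℝ) ≤ i := by exact_mod_cast (by omega : 1 ≤ i)
    have h2 : Real.log i ≤ 6 / 5 + Real.log (Real.log n) := by
      have h3 := Real.log_le_log (by linarith) h1
      rw [Real.log_mul (by norm_num) (by linarith)] at h3
      have h4 : Real.log 3 ≤ 6 / 5 := by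
        rw [Real.log_le_iff_le_exp (by norm_num)]
        have h5 : Real.exp (6 / 5) = Real.exp 1 * Real.exp (1 / 5) := by
          rw [← Real.exp_add]; norm_num
        have h6 := Real.exp_one_gt_d9
        have h7 := Real.add_one_le_exp (1 / 5 : ℝ)
        rw [h5]
        nlinarith
      linarith
    have h3 : (s : ℝ) ≤ 5 * Real.log (Real.log n) := by
      have h4 : ((Nat.log 2 i : ℕ) : ℝ) * Real.log 2 ≤ Real.log i := by
        have h3 : ((2 ^ Nat.log 2 i : ℕ) : ℝ) ≤ i := by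
          exact_mod_cast Nat.pow_log_le_self 2 (by omega)
        have h4 := Real.log_le_log (by positivity) h3
        push_cast at h4
        rwa [Real.log_pow] at h4
      rw [hs]
      push_cast
      have h5 : (0 : ℝ) ≤ (Nat.log 2 i : ℕ) := Nat.cast_nonneg _
      nlinarith
    have hs1 : (1 : ℝ) ≤ s := by exact_mod_cast (by omega : 1 ≤ s)
    refine hlog.trans ?_
    push_cast
    have h5 : ((A : ℝ) * s ^ 2 + 1) * Real.log 2 ≤ (A + 1) * (s : ℝ) ^ 2 := by
      have h6 : (1 : ℝ) ≤ (s : ℝ) ^ 2 := by nlinarith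
      have h7 : 0 ≤ (A : ℝ) * s ^ 2 := by positivity
      nlinarith
    have h6 : (s : ℝ) ^ 2 ≤ (5 * Real.log (Real.log n)) ^ 2 := pow_le_pow_left₀ (by positivity) h3 2
    calc ((A : ℝ) * s ^ 2 + 1) * Real.log 2 ≤ (A + 1) * (s : ℝ) ^ 2 := h5
      _ ≤ (A + 1) * (5 * Real.log (Real.log n)) ^ 2 := mul_le_mul_of_nonneg_left h6 (by positivity)
      _ = _ := by ring
  · have h1 := SB_add hni.le hiN β
    have h2 := SB_nonneg n (2 ^ i) β
    have h3 : (1 - ε) * cc * (Real.log N1 - Real.log n) ≤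
        (1 - ε) * cc * (((A * s ^ 2 + 1 : ℕ) : ℝ) * Real.log 2) :=
      mul_le_mul_of_nonneg_left hlog (mul_nonneg (by linarith) hcc.le)
    linarith

/-- **All intervals.** -/
theorem all_intervals {ε : ℝ} (hε0 : 0 < ε) (hε1 : ε ≤ 1) : ∃ C : ℝ, 0 < C ∧
    ∀ᵐ β : ℝ, 0 < β → ∃ n0 : ℕ, ∀ n N : ℕ, n0 ≤ n → n ≤ N →
      (1 - ε) * cc * (Real.log N - Real.log n - C * (Real.log (Real.log N)) ^ 2) ≤ SB n N β := by
  obtain ⟨A, hA, hwin⟩ := window_J hε0 hε1
  refine ⟨25 * (A + 1), by positivity, ?_⟩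
  filter_upwards [ae_pos_of_J hwin] with β hβ h0
  have hcc := cc_pos
  have hll : Tendsto (fun n : ℕ => Real.log (Real.log n)) atTop atTop :=
    Real.tendsto_log_atTop.comp Pool.Agent.H305R2.log_nat_tendsto
  obtain ⟨n0, hn0⟩ := eventually_atTop.1 ((next hε1 (hβ h0)).and
    ((hll.eventually_ge_atTop 1).and (eventually_ge_atTop 3)))
  refine ⟨n0, fun n N hn hnN => ?_⟩
  -- induction on the length
  induction hd : N - n using Nat.strong_induction_on generalizing n with
  | _ d ih =>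
    obtain ⟨⟨N1, g1, g2, g3⟩, g4, g5⟩ := hn0 n hn
    have hmono : Real.log (Real.log n) ≤ Real.log (Real.log N) := by
      have hn3 : (3 : ℝ) ≤ n := by exact_mod_cast g5
      have h1 : 0 < Real.log n := Real.log_pos (by linarith)
      refine Real.log_le_log h1 (Real.log_le_log (by linarith) (by exact_mod_cast hnN))
    by_cases hc : N1 ≤ N
    · have h1 := ih (N - N1) (by omega) N1 (hn.trans g1.le) hc rfl
      have h2 := SB_add g1.le hc β
      have h3 : (1 - ε) * cc * (Real.log N - Real.log n -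
          25 * (A + 1) * (Real.log (Real.log N)) ^ 2) =
        (1 - ε) * cc * (Real.log N1 - Real.log n) +
        (1 - ε) * cc * (Real.log N - Real.log N1 -
          25 * (A + 1) * (Real.log (Real.log N)) ^ 2) := by ring
      rw [h3, h2]
      exact add_le_add g3 h1
    · push Not at hc
      have h1 : Real.log N ≤ Real.log N1 := by
        have hN : 0 < N := by omega
        exact Real.log_le_log (by exact_mod_cast hN) (by exact_mod_cast hc.le)
      have h2 : (Real.log (Real.log n)) ^ 2 ≤ (Real.log (Real.log N)) ^ 2 :=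
        pow_le_pow_left₀ (by linarith) hmono 2
      have h3 : 25 * ((A : ℝ) + 1) * (Real.log (Real.log n)) ^ 2 ≤
        25 * ((A : ℝ) + 1) * (Real.log (Real.log N)) ^ 2 := mul_le_mul_of_nonneg_left h2 (by positivity)
      have h4 : Real.log N - Real.log n - 25 * (A + 1) * (Real.log (Real.log N)) ^ 2 ≤ 0 := by linarith
      have h5 : (1 - ε) * cc * (Real.log N - Real.log n -
        25 * (A + 1) * (Real.log (Real.log N)) ^ 2) ≤ 0 :=
        mul_nonpos_of_nonneg_of_nonpos (mul_nonneg (by linarith) hcc.le) h4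
      exact h5.trans (SB_nonneg _ _ _)

end Pool.Agent.V11115.Gap
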